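import Pool.Agent.P8H86.EM.Opt
import Pool.Agent.H671R2.PolyAuto
import Pool.Agent.H622R2.MatGraph
import Pool.Agent.H622R2.CoNP

/-!
# A polynomial-time decision procedure
-/

set_option autoImplicit false

namespace Pool.Agent.P8H86.EM

open Pool.Agent.NPC Pool.Agent.NPC.R671 Pool.Agent.H622R2 Finset

/-- the chosen clique -/
def selK (g : ℕ → ℕ) (q : Option ℕ) (v : ℕ) : Bool := q.elim false fun p => seg g p v

theorem exists_opt (a : ℕ → ℕ → Bool) (hsymm : ∀ u v, a u v = a v u) (hirr : ∀ u, a u u = false)
    (n : ℕ) (S : List ℕ) (hS : S.length ≤ 5) (K : ℕ → Bool) :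
    ∃ q : Option ℕ, (q = none ∨ ∃ p < n, q = some p) ∧
      mis a n S (selK (wt a n S) q) ≤ mis a n S K := by
  by_cases hT : (mem n S K).Nonempty
  · obtain ⟨p, hp, hcard, hsum⟩ := exists_top ((range n).filter fun v => v ∉ S) (mem n S K) (by
      intro v hv
      unfold mem at hv
      rw [mem_filter] at hv ⊢
      exact ⟨hv.1, hv.2.1⟩) hT (wt a n S)
    rw [mem_filter, mem_range] at hp
    refine ⟨some p, Or.inr ⟨p, hp.1, rfl⟩, ?_⟩
    have hset : ((range n).filter fun v => v ∉ S).filter (fun v => seg (wt a n S) p v = true) =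
        mem n S (selK (wt a n S) (some p)) := by
      unfold mem
      rw [filter_filter]
      rfl
    rw [hset] at hcard hsum
    have e1 := mis_eq a hsymm hirr n S hS K
    have e2 := mis_eq a hsymm hirr n S hS (selK (wt a n S) (some p))
    rw [hcard] at e2
    have hsum' : (∑ v ∈ mem n S K, (wt a n S v : ℤ)) ≤
        ∑ v ∈ mem n S (selK (wt a n S) (some p)), (wt a n S v : ℤ) := by
      exact_mod_cast hsum
    have : (mis a n S (selK (wt a n S) (some p)) : ℤ) ≤ mis a n S K := by
      rw [e1, e2]
      linarith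
    exact_mod_cast this
  · refine ⟨none, Or.inl rfl, ?_⟩
    rw [not_nonempty_iff_eq_empty] at hT
    have e1 := mis_eq a hsymm hirr n S hS K
    rw [hT] at e1
    have : (mis a n S K : ℤ) = mis a n S (fun _ => false) := by
      rw [e1]; simp
    have h2 : mis a n S K = mis a n S (fun _ => false) := by exact_mod_cast this
    rw [h2]
    exact le_rfl

/-- prepend an element in all ways -/
def ext (R : List ℕ) (L : List (List ℕ)) : List (List ℕ) := L.flatMap fun S => R.map fun a => a :: S

/-- all lists of length five -/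
def tuples (R : List ℕ) : List (List ℕ) := ext R (ext R (ext R (ext R (ext R [[]]))))

theorem mem_ext {R : List ℕ} {L : List (List ℕ)} {S : List ℕ} :
    S ∈ ext R L ↔ ∃ a ∈ R, ∃ T ∈ L, S = a :: T := by
  unfold ext
  rw [List.mem_flatMap]
  constructor
  · rintro ⟨T, hT, h⟩
    obtain ⟨a, ha, rfl⟩ := List.mem_map.1 h
    exact ⟨a, ha, T, hT, rfl⟩
  · rintro ⟨a, ha, T, hT, rfl⟩
    exact ⟨T, hT, List.mem_map.2 ⟨a, ha, rfl⟩⟩

theorem mem_tuples {R S : List ℕ} : S ∈ tuples R ↔ S.length = 5 ∧ ∀ x ∈ S, x ∈ R := by
  have key : ∀ (m : ℕ) (L : List (List ℕ)), (∀ T, T ∈ L ↔ T.length = m ∧ ∀ x ∈ T, x ∈ R) →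
      ∀ T, T ∈ ext R L ↔ T.length = m + 1 ∧ ∀ x ∈ T, x ∈ R := by
    intro m L hL T
    rw [mem_ext]
    constructor
    · rintro ⟨a, ha, T, hT, rfl⟩
      rw [hL] at hT
      refine ⟨by simp [hT.1], fun x hx => ?_⟩
      rw [List.mem_cons] at hx
      rcases hx with rfl | hx
      · exact ha
      · exact hT.2 x hx
    · rintro ⟨h1, h2⟩
      cases T with
      | nil => simp at h1
      | cons a T =>
        exact ⟨a, h2 a List.mem_cons_self, T, (hL T).2 ⟨by simpa using h1, fun x hx =>
          h2 x (List.mem_cons_of_mem _ hx)⟩, rfl⟩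
  unfold tuples
  refine key 4 _ (key 3 _ (key 2 _ (key 1 _ (key 0 _ ?_)))) S
  intro T
  rw [List.mem_singleton]
  constructor
  · rintro rfl; simp
  · rintro ⟨h, -⟩; exact List.length_eq_zero_iff.1 h

/-- the weights, from the matrix -/
def wtL (A : List (List Bool)) (S : List ℕ) (v : ℕ) : ℕ :=
  ((List.range A.length).filter fun u => entry A v u).length +
    ((List.range A.length).filter fun u => decide (u ∈ S) && entry A v u).length

/-- twice the cost, from the matrix -/
def misL (A : List (List Bool)) (S : List ℕ) (q : Option ℕ) : ℕ :=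
  ((List.range A.length ×ˢ List.range A.length).filter fun p =>
    cp (entry A) S (selK (wtL A S) q) p.1 p.2).length

/-- the decision procedure -/
def decA (A : List (List Bool)) (k : ℕ) : Bool :=
  ([] :: tuples (List.range A.length)).any fun S =>
    (none :: (List.range A.length).map some).any fun q => decide (misL A S q ≤ 2 * k)

theorem length_filter_range (n : ℕ) (p : ℕ → Bool) :
    ((List.range n).filter p).length = ∑ v ∈ range n, (p v).toNat := by
  induction n with
  | zero => simp
  | succ n ih =>
    rw [List.range_succ, List.filter_append, List.length_append, ih, sum_range_succ]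
    congr 1
    cases h : p n <;> simp [h]

theorem length_filter_product {α β : Type} (l : List α) (l' : List β) (p : α × β → Bool) :
    ((l ×ˢ l').filter p).length = (l.map fun u => (l'.filter fun v => p (u, v)).length).sum := by
  induction l with
  | nil => rfl
  | cons a l ih =>
    rw [List.product_cons, List.filter_append, List.length_append, ih, List.map_cons, List.sum_cons]
    congr 1
    rw [List.filter_map, List.length_map]
    rfl

theorem sum_map_range (n : ℕ) (f : ℕ → ℕ) : ((List.range n).map f).sum = ∑ v ∈ range n, f v := by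
  induction n with
  | zero => simp
  | succ n ih =>
    rw [List.range_succ, List.map_append, List.sum_append, ih, sum_range_succ]
    simp

theorem wtL_eq (A : List (List Bool)) (S : List ℕ) : wtL A S = wt (entry A) A.length S := by
  funext v
  unfold wtL wt
  rw [length_filter_range, length_filter_range]

theorem misL_eq (A : List (List Bool)) (S : List ℕ) (q : Option ℕ) :
    misL A S q = mis (entry A) A.length S (selK (wt (entry A) A.length S) q) := by
  unfold misL mis
  rw [length_filter_product, sum_map_range, wtL_eq]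
  exact sum_congr rfl fun u _ => length_filter_range _ _

/-! ### The matrix of a graph -/

theorem entry_adjMatrix {n : ℕ} (G : SimpleGraph (Fin n)) (u v : ℕ) :
    entry (adjMatrix G) u v = true ↔ ∃ (hu : u < n) (hv : v < n), G.Adj ⟨u, hu⟩ ⟨v, hv⟩ := by
  classical
  unfold entry adjMatrix
  by_cases hu : u < n
  · by_cases hv : v < n
    · simp [List.getD_eq_getElem?_getD, hu, hv]
    · simp [List.getD_eq_getElem?_getD, hu, hv]
  · simp [List.getD_eq_getElem?_getD, hu]

theorem entry_symm {n : ℕ} (G : SimpleGraph (Fin n)) (u v : ℕ) :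
    entry (adjMatrix G) u v = entry (adjMatrix G) v u := by
  rw [Bool.eq_iff_iff, entry_adjMatrix, entry_adjMatrix]
  constructor
  · rintro ⟨h1, h2, h3⟩; exact ⟨h2, h1, h3.symm⟩
  · rintro ⟨h1, h2, h3⟩; exact ⟨h2, h1, h3.symm⟩

theorem entry_irr {n : ℕ} (G : SimpleGraph (Fin n)) (u : ℕ) :
    entry (adjMatrix G) u u = false := by
  rw [← Bool.not_eq_true, entry_adjMatrix]
  rintro ⟨h1, h2, h3⟩
  exact h3.ne rfl

theorem length_adjMatrix {n : ℕ} (G : SimpleGraph (Fin n)) : (adjMatrix G).length = n := by
  simp [adjMatrix]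

/-- the graph of differences -/
def dg {V : Type} (G G' : SimpleGraph V) : SimpleGraph V where
  Adj u v := ¬ (G.Adj u v ↔ G'.Adj u v)
  symm := ⟨fun u v h => by rw [G.adj_comm v u, G'.adj_comm v u]; exact h⟩
  loopless := ⟨fun u h => h (by simp)⟩

theorem two_cost {n : ℕ} (G G' : SimpleGraph (Fin n)) (p : ℕ → ℕ → Bool)
    (hp : ∀ u v : Fin n, p u v = true ↔ ¬ (G.Adj u v ↔ G'.Adj u v)) :
    ∑ u ∈ range n, ∑ v ∈ range n, (p u v).toNat = 2 * cost G G' := by
  classical
  have h1 : (dg G G').edgeSet = diff G G' := by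
    ext e
    induction e using Sym2.ind with
    | _ u v => rw [mem_diff]; rfl
  have h2 : cost G G' = (dg G G').edgeFinset.card := by
    rw [cost_eq, ← h1, ← SimpleGraph.coe_edgeFinset, Set.ncard_coe_finset]
  rw [h2, ← SimpleGraph.sum_degrees_eq_twice_card_edges]
  rw [← Fin.sum_univ_eq_sum_range (fun u => ∑ v ∈ range n, (p u v).toNat) n]
  refine sum_congr rfl fun u _ => ?_
  rw [← Fin.sum_univ_eq_sum_range (fun v => (p u v).toNat) n]
  rw [← SimpleGraph.card_neighborFinset_eq_degree, card_eq_sum_ones,
    SimpleGraph.neighborFinset_eq_filter, sum_filter]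
  refine sum_congr rfl fun v _ => ?_
  have h3 : p u v = true ↔ (dg G G').Adj u v := hp u v
  by_cases h : (dg G G').Adj u v
  · rw [if_pos h, h3.2 h]; rfl
  · rw [if_neg h]
    have : p u v = false := by
      rw [← Bool.not_eq_true, h3]; exact h
    rw [this]; rfl

theorem mis_cost {n : ℕ} (G : SimpleGraph (Fin n)) (S : List ℕ) (K : ℕ → Bool) :
    mis (entry (adjMatrix G)) n S K = 2 * cost G (TG G fun v : Fin n => clS S K v.1) := by
  classical
  unfold mis
  refine two_cost _ _ _ fun u v => ?_
  have e1 : entry (adjMatrix G) u v = decide (G.Adj u v) := by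
    rw [Bool.eq_iff_iff, entry_adjMatrix, decide_eq_true_eq]
    constructor
    · rintro ⟨_, _, h⟩; exact h
    · intro h; exact ⟨u.2, v.2, h⟩
  unfold cp
  rw [e1]
  change _ ↔ ¬ (G.Adj u v ↔ (u ≠ v ∧ tgt (decide (G.Adj u v)) (clS S K u) (clS S K v) = true))
  by_cases huv : u = v
  · subst huv
    simp
  · have huv' : ¬ u.1 = v.1 := fun h => huv (Fin.ext h)
    by_cases hg : G.Adj u v
    · cases ht : tgt true (clS S K u) (clS S K v) <;> simp [hg, ht, huv, huv']
    · cases ht : tgt false (clS S K u) (clS S K v) <;> simp [hg, ht, huv, huv']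

theorem clS_val {n : ℕ} (S : List (Fin n)) (K : Fin n → Bool) (v : Fin n) :
    clS (S.map Fin.val) (fun x => if h : x < n then K ⟨x, h⟩ else false) v.1 = clS S K v := by
  unfold clS
  have h1 : v.1 ∈ S.map Fin.val ↔ v ∈ S := by
    rw [List.mem_map]
    constructor
    · rintro ⟨x, hx, h⟩
      rwa [← Fin.ext h]
    · intro h; exact ⟨v, h, rfl⟩
  have h2 : (S.map Fin.val).idxOf v.1 = S.idxOf v := by
    clear h1
    induction S with
    | nil => rfl
    | cons a S ih =>
      rw [List.map_cons, List.idxOf_cons, List.idxOf_cons, ih]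
      by_cases h : a = v
      · rw [h]
        simp only [beq_self_eq_true]
      · have h' : ¬ a.1 = v.1 := fun e => h (Fin.ext e)
        rw [beq_false_of_ne h, beq_false_of_ne h']
  rw [h2]
  by_cases hv : v ∈ S
  · rw [if_pos hv, if_pos (h1.2 hv)]
  · rw [if_neg hv, if_neg (fun h => hv (h1.1 h))]
    have h3 : (fun x => if h : x < n then K ⟨x, h⟩ else false) v.1 = K v := by
      change (if h : v.1 < n then K ⟨v.1, h⟩ else false) = K v
      rw [dif_pos v.2]
    rw [h3]

theorem decA_iff {n : ℕ} (G : SimpleGraph (Fin n)) (k : ℕ) :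
    decA (adjMatrix G) k = true ↔ Modifiable .editing {C4, TwoK2} G k := by
  have hlen := length_adjMatrix G
  unfold decA
  rw [List.any_eq_true]
  constructor
  · rintro ⟨S, hS, h⟩
    rw [List.any_eq_true] at h
    obtain ⟨q, -, h⟩ := h
    rw [decide_eq_true_eq, misL_eq, hlen, mis_cost] at h
    have hS5 : S.length ≤ 5 := by
      rw [List.mem_cons] at hS
      rcases hS with rfl | hS
      · simp
      · exact (mem_tuples.1 hS).1.le
    refine ⟨TG G fun v : Fin n => clS S (selK (wt (entry (adjMatrix G)) n S) q) v.1, trivial,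
      TG_free G _ (fun v => clS_le hS5 _ _) (fun u v h1 h2 => ?_), by omega⟩
    exact Fin.ext (clS_inj _ _ _ h1 h2)
  · intro h
    rw [modifiable_both] at h
    obtain ⟨S, K, hS, hc⟩ := h
    have hlen' : (S.map Fin.val).length ≤ 5 := by
      rw [List.length_map]
      rcases hS with rfl | hS
      · simp
      · omega
    obtain ⟨q, hq, hle⟩ := exists_opt (entry (adjMatrix G)) (entry_symm G) (entry_irr G) n
      (S.map Fin.val) hlen' (fun x => if h : x < n then K ⟨x, h⟩ else false)
    refine ⟨S.map Fin.val, ?_, ?_⟩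
    · rcases hS with rfl | hS
      · simp
      · refine List.mem_cons_of_mem _ (mem_tuples.2 ⟨by simpa using hS, fun x hx => ?_⟩)
        obtain ⟨y, -, rfl⟩ := List.mem_map.1 hx
        rw [hlen]
        exact List.mem_range.2 y.2
    · rw [List.any_eq_true]
      refine ⟨q, ?_, ?_⟩
      · rcases hq with rfl | ⟨p, hp, rfl⟩
        · exact List.mem_cons_self
        · refine List.mem_cons_of_mem _ (List.mem_map.2 ⟨p, ?_, rfl⟩)
          rw [hlen]
          exact List.mem_range.2 hp
      · rw [decide_eq_true_eq, misL_eq, hlen]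
        refine hle.trans ?_
        rw [mis_cost]
        have : (fun v : Fin n => clS (S.map Fin.val)
            (fun x => if h : x < n then K ⟨x, h⟩ else false) v.1) = clS S K := by
          funext v
          exact clS_val S K v
        rw [this]
        omega

end Pool.Agent.P8H86.EM
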