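import Pool.Agent.P8H86.EM.Defs

/-!
# Basic facts on edge modification problems
-/

set_option autoImplicit false

namespace Pool.Agent.P8H86.EM

open Pool.Agent.NPC Pool.Agent.NPC.R671

variable {V W : Type}

/-- The four vertices form an induced cycle, in this order. -/
def IsC4 (G : SimpleGraph V) (a b c d : V) : Prop :=
  G.Adj a b ∧ G.Adj b c ∧ G.Adj c d ∧ G.Adj d a ∧ a ≠ c ∧ ¬ G.Adj a c ∧ b ≠ d ∧ ¬ G.Adj b d

theorem isEmpty_C4 (G : SimpleGraph V) :
    IsEmpty (SimpleGraph.cycleGraph 4 ↪g G) ↔ ∀ a b c d, ¬ IsC4 G a b c d := by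
  constructor
  · intro h a b c d ⟨h1, h2, h3, h4, h5, h6, h7, h8⟩
    refine h.false ⟨⟨![a, b, c, d], ?_⟩, ?_⟩
    · intro i j hij
      fin_cases i <;> fin_cases j <;> simp_all [SimpleGraph.Adj.ne, SimpleGraph.Adj.ne']
    · intro i j
      have e6 : ¬ G.Adj c a := fun h => h6 h.symm
      have e8 : ¬ G.Adj d b := fun h => h8 h.symm
      fin_cases i <;> fin_cases j <;>
        simp [SimpleGraph.cycleGraph_adj, h1, h2, h3, h4, h6, h8, h1.symm, h2.symm, h3.symm,
          h4.symm, e6, e8] <;> decide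
  · intro h
    refine ⟨fun f => h (f 0) (f 1) (f 2) (f 3) ⟨?_, ?_, ?_, ?_, ?_, ?_, ?_, ?_⟩⟩
    · rw [f.map_adj_iff]; decide
    · rw [f.map_adj_iff]; decide
    · rw [f.map_adj_iff]; decide
    · rw [f.map_adj_iff]; decide
    · exact fun e => absurd (f.injective e) (by decide)
    · rw [f.map_adj_iff]; decide
    · exact fun e => absurd (f.injective e) (by decide)
    · rw [f.map_adj_iff]; decide

theorem isEmpty_2K2 (G : SimpleGraph V) :
    IsEmpty ((SimpleGraph.cycleGraph 4)ᶜ ↪g G) ↔ ∀ a b c d, ¬ IsC4 Gᶜ a b c d := by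
  rw [← isEmpty_C4]
  have e : ((SimpleGraph.cycleGraph 4)ᶜ ↪g G) ≃ (SimpleGraph.cycleGraph 4 ↪g Gᶜ) :=
    (SimpleGraph.Embedding.complEquiv (G := (SimpleGraph.cycleGraph 4)ᶜ) (H := G)).trans
      (Equiv.cast (by rw [compl_compl]))
  exact e.isEmpty_congr

theorem free_C4 (G : SimpleGraph V) : Free {C4} G ↔ ∀ a b c d, ¬ IsC4 G a b c d := by
  rw [← isEmpty_C4]
  simp [Free, C4]

theorem free_2K2 (G : SimpleGraph V) : Free {TwoK2} G ↔ ∀ a b c d, ¬ IsC4 Gᶜ a b c d := by
  rw [← isEmpty_2K2]
  simp [Free, TwoK2]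

theorem free_both (G : SimpleGraph V) : Free {C4, TwoK2} G ↔
    (∀ a b c d, ¬ IsC4 G a b c d) ∧ ∀ a b c d, ¬ IsC4 Gᶜ a b c d := by
  rw [← free_C4, ← free_2K2]
  simp [Free]

theorem free_compl (G : SimpleGraph V) : Free {TwoK2} Gᶜ ↔ Free {C4} G := by
  rw [free_2K2, free_C4, compl_compl]

/-- the edges which differ -/
def diff (G G' : SimpleGraph V) : Set (Sym2 V) := symmDiff G.edgeSet G'.edgeSet

theorem mem_diff (G G' : SimpleGraph V) (a b : V) :
    s(a, b) ∈ diff G G' ↔ ¬ (G.Adj a b ↔ G'.Adj a b) := by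
  unfold diff
  rw [Set.mem_symmDiff]
  simp only [SimpleGraph.mem_edgeSet]
  tauto

theorem diff_compl (G G' : SimpleGraph V) : diff Gᶜ G'ᶜ = diff G G' := by
  ext e
  induction e using Sym2.ind with
  | _ a b =>
    rw [mem_diff, mem_diff, SimpleGraph.compl_adj, SimpleGraph.compl_adj]
    by_cases hab : a = b
    · subst hab; simp
    · simp [hab]; tauto

theorem cost_eq (G G' : SimpleGraph V) : cost G G' = (diff G G').ncard := rfl

theorem cost_compl (G G' : SimpleGraph V) : cost Gᶜ G'ᶜ = cost G G' := by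
  rw [cost_eq, cost_eq, diff_compl]

/-- the type of modification for the complement -/
def Modification.dual : Modification → Modification
  | .deletion => .completion
  | .completion => .deletion
  | .editing => .editing

theorem allows_compl (M : Modification) (G G' : SimpleGraph V) :
    M.dual.Allows Gᶜ G'ᶜ ↔ M.Allows G G' := by
  cases M <;> simp [Modification.dual, Modification.Allows]

theorem modifiable_compl (M : Modification) (G : SimpleGraph V) (k : ℕ) :
    Modifiable M.dual {TwoK2} Gᶜ k ↔ Modifiable M {C4} G k := by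
  constructor
  · rintro ⟨G', h1, h2, h3⟩
    refine ⟨G'ᶜ, ?_, ?_, ?_⟩
    · rw [← allows_compl, compl_compl]; exact h1
    · rw [← free_compl, compl_compl]; exact h2
    · rw [← cost_compl, compl_compl]; exact h3
  · rintro ⟨G', h1, h2, h3⟩
    refine ⟨G'ᶜ, ?_, ?_, ?_⟩
    · rw [allows_compl]; exact h1
    · rw [free_compl]; exact h2
    · rw [cost_compl]; exact h3

/-! ### Isomorphism -/

theorem Free.iso {F : Set Graph} {G : SimpleGraph V} {H : SimpleGraph W} (e : G ≃g H)
    (h : Free F G) : Free F H := by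
  intro K hK
  have := h K hK
  exact ⟨fun f => this.false (f.trans e.symm.toRelEmbedding)⟩

/-- the graph on `W` which corresponds to a graph on `V` -/
def tr (e : V ≃ W) (G : SimpleGraph V) : SimpleGraph W := G.comap e.symm

theorem tr_adj (e : V ≃ W) (G : SimpleGraph V) (a b : V) : (tr e G).Adj (e a) (e b) ↔ G.Adj a b := by
  simp [tr]

def trIso (e : V ≃ W) (G : SimpleGraph V) : G ≃g tr e G where
  toEquiv := e
  map_rel_iff' := by intro a b; exact tr_adj e G a b

theorem cost_tr (e : V ≃ W) (G G' : SimpleGraph V) : cost (tr e G) (tr e G') = cost G G' := by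
  rw [cost_eq, cost_eq]
  have h : diff (tr e G) (tr e G') = (Sym2.map e) '' diff G G' := by
    ext x
    induction x using Sym2.ind with
    | _ a b =>
      obtain ⟨a, rfl⟩ := e.surjective a
      obtain ⟨b, rfl⟩ := e.surjective b
      rw [mem_diff, tr_adj, tr_adj, ← mem_diff, Set.mem_image]
      constructor
      · intro h
        exact ⟨s(a, b), h, by simp⟩
      · rintro ⟨y, hy, hxy⟩
        have : y = s(a, b) := Sym2.map.injective e.injective (by rw [hxy]; simp)
        rwa [← this]
  rw [h, Set.ncard_image_of_injective _ (Sym2.map.injective e.injective)]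

theorem Modifiable.tr {M : Modification} {F : Set Graph} {G : SimpleGraph V} {k : ℕ} (e : V ≃ W)
    (h : Modifiable M F G k) : Modifiable M F (EM.tr e G) k := by
  obtain ⟨G', h1, h2, h3⟩ := h
  refine ⟨EM.tr e G', ?_, h2.iso (trIso e G'), by rw [cost_tr]; exact h3⟩
  cases M
  · intro a b hab
    exact h1 hab
  · intro a b hab
    exact h1 hab
  · trivial

theorem tr_eq {G : SimpleGraph V} {H : SimpleGraph W} (e : G ≃g H) : EM.tr e.toEquiv G = H := by
  ext a b
  obtain ⟨a, rfl⟩ := e.surjective a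
  obtain ⟨b, rfl⟩ := e.surjective b
  rw [e.map_adj_iff]
  exact tr_adj e.toEquiv G a b

theorem modifiable_iso {M : Modification} {F : Set Graph} {G : SimpleGraph V} {H : SimpleGraph W}
    (e : G ≃g H) (k : ℕ) : Modifiable M F G k ↔ Modifiable M F H k := by
  constructor
  · intro h
    rw [← tr_eq e]
    exact h.tr _
  · intro h
    rw [← tr_eq e.symm]
    exact h.tr _

end Pool.Agent.P8H86.EM
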