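import Pool.Agent.H671R2.CK.Defs
import Pool.Agent.H671R2.ZDefs

/-!
# Edge modification problems for families of forbidden induced subgraphs
-/

set_option autoImplicit false

namespace Pool.Agent.P8H86.EM

open Pool.Agent.NPC Pool.Agent.NPC.R671

/-- Finite graphs, on the vertices `0, ..., n - 1`. -/
abbrev Graph : Type := Σ n : ℕ, SimpleGraph (Fin n)

/-- `G` is `F`-free: no induced subgraph of `G` is isomorphic to a member of `F`. -/
def Free (F : Set Graph) {V : Type} (G : SimpleGraph V) : Prop :=
  ∀ H ∈ F, IsEmpty (H.2 ↪g G)

/-- The three types of edge modification problems. -/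
inductive Modification : Type
  | deletion
  | completion
  | editing

/-- The modification of `G` into `G'` is of the given type: only removing edges, only adding edges,
or both. -/
def Modification.Allows (M : Modification) {V : Type} (G G' : SimpleGraph V) : Prop :=
  match M with
  | .deletion => G' ≤ G
  | .completion => G ≤ G'
  | .editing => True

/-- The number of edges which are added or removed. -/
noncomputable def cost {V : Type} (G G' : SimpleGraph V) : ℕ :=
  (symmDiff G.edgeSet G'.edgeSet).ncard

/-- The graph `G` can be made `F`-free by at most `k` modifications of type `M`. -/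
def Modifiable (M : Modification) (F : Set Graph) {V : Type} (G : SimpleGraph V) (k : ℕ) : Prop :=
  ∃ G' : SimpleGraph V, M.Allows G G' ∧ Free F G' ∧ cost G G' ≤ k

/-- The bit string coding an instance: the adjacency matrix, and the parameter in binary. -/
noncomputable def code {n : ℕ} (G : SimpleGraph (Fin n)) (k : ℕ) : List Bool :=
  bits (adjMatrix G, k)

/-- The `F`-free edge modification problem of type `M`, with parameter `k`, has a polynomial kernel:
there is a polynomial-time algorithm `f` that maps every instance `(G, k)` to an equivalent instance
`(G', k')` whose size is at most `p k`, for some polynomial `p`. -/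
def HasPolyKernel (M : Modification) (F : Set Graph) : Prop :=
  ∃ (f : List Bool → List Bool) (p : Polynomial ℕ), PolyTime f ∧
    ∀ (n : ℕ) (G : SimpleGraph (Fin n)) (k : ℕ),
      ∃ (n' : ℕ) (G' : SimpleGraph (Fin n')) (k' : ℕ), f (code G k) = code G' k' ∧
        (Modifiable M F G k ↔ Modifiable M F G' k') ∧ (code G' k').length ≤ p.eval k

/-- The problem is incompressible: it has no polynomial kernel. -/
def Incompressible (M : Modification) (F : Set Graph) : Prop := ¬ HasPolyKernel M F

/-- The cycle with four vertices. -/
def C4 : Graph := ⟨4, SimpleGraph.cycleGraph 4⟩

/-- Two disjoint edges, the complement of the cycle with four vertices. -/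
def TwoK2 : Graph := ⟨4, (SimpleGraph.cycleGraph 4)ᶜ⟩

end Pool.Agent.P8H86.EM
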