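import Pool.Agent.P8H86.EM.Basic

/-!
# The protected graph

A graph (the base graph) without triangles and 4-cycles, with a root `r`. Some of its vertices get a
pendant vertex. A hub is joined to all vertices except the root. Every pair of vertices, except the
pairs consisting of the hub and a vertex `≠ r` of the base graph, is protected: its modification
makes `k + 1` further modifications necessary.
-/

set_option autoImplicit false

namespace Pool.Agent.P8H86.EM

variable {Λ : Type} [DecidableEq Λ]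

/-- main vertices: the hub, the vertices of the base graph, and the pendant vertices -/
abbrev Mn (Λ : Type) : Type := Option (Λ × Bool)

/-- vertices: main vertices, and vertices which protect pairs of main vertices -/
abbrev Cd (Λ : Type) : Type := Mn Λ ⊕ ((Mn Λ × Mn Λ) × (ℕ × Bool))

/-- adjacency of main vertices -/
def mad (ad : Λ → Λ → Bool) (r : Λ) : Mn Λ → Mn Λ → Bool
  | none, none => false
  | none, some (v, b) => b || decide (v ≠ r)
  | some (v, b), none => b || decide (v ≠ r)
  | some (v, false), some (w, false) => ad v w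
  | some (v, false), some (w, true) => decide (v = w)
  | some (v, true), some (w, false) => decide (v = w)
  | some (_, true), some (_, true) => false

/-- protected pairs -/
def fr (r : Λ) : Mn Λ → Mn Λ → Bool
  | none, none => false
  | none, some (v, b) => b || decide (v = r)
  | some (v, b), none => b || decide (v = r)
  | some x, some y => decide (x ≠ y)

/-- adjacency -/
def cad (ad : Λ → Λ → Bool) (r : Λ) : Cd Λ → Cd Λ → Bool
  | .inl x, .inl y => mad ad r x y
  | .inl z, .inr ((x, y), (_, b)) =>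
      if mad ad r x y then decide (z = x) || decide (z = y) else decide (z = if b then y else x)
  | .inr ((x, y), (_, b)), .inl z =>
      if mad ad r x y then decide (z = x) || decide (z = y) else decide (z = if b then y else x)
  | .inr ((x, y), (i, b)), .inr ((x', y'), (i', b')) =>
      decide ((x, y) = (x', y')) && (decide (i = i') && (decide (b ≠ b') && !(mad ad r x y)))

/-- the list of the main vertices -/
def mlist (bs : List Λ) (ta : Λ → Bool) : List (Mn Λ) :=
  none :: (bs.map (fun v => some (v, false)) ++ (bs.filter ta).map (fun v => some (v, true)))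

/-- the list of the vertices -/
def clist (bs : List Λ) (ta : Λ → Bool) (r : Λ) (k : ℕ) : List (Cd Λ) :=
  (mlist bs ta).map Sum.inl ++
    (((mlist bs ta) ×ˢ (mlist bs ta)).filter (fun p => fr r p.1 p.2)).flatMap fun p =>
      (List.range (k + 1)).flatMap fun i => [Sum.inr (p, (i, false)), Sum.inr (p, (i, true))]

section
variable (ad : Λ → Λ → Bool) (r : Λ)

theorem mad_symm (hs : ∀ v w, ad v w = ad w v) (x y : Mn Λ) : mad ad r x y = mad ad r y x := by
  rcases x with _ | ⟨v, _ | _⟩ <;> rcases y with _ | ⟨w, _ | _⟩ <;>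
    first | exact hs _ _ | simp [mad, eq_comm]

theorem mad_irrefl (hi : ∀ v, ad v v = false) (x : Mn Λ) : mad ad r x x = false := by
  rcases x with _ | ⟨v, _ | _⟩ <;> simp [mad, hi]

theorem fr_symm (x y : Mn Λ) : fr r x y = fr r y x := by
  rcases x with _ | ⟨v, _ | _⟩ <;> rcases y with _ | ⟨w, _ | _⟩ <;> simp [fr, eq_comm]

theorem fr_irrefl (x : Mn Λ) : fr r x x = false := by
  rcases x with _ | ⟨v, _ | _⟩ <;> simp [fr]

theorem cad_symm (hs : ∀ v w, ad v w = ad w v) (x y : Cd Λ) : cad ad r x y = cad ad r y x := by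
  rcases x with x | ⟨⟨x, x'⟩, ⟨i, b⟩⟩ <;> rcases y with y | ⟨⟨y, y'⟩, ⟨j, c⟩⟩
  · exact mad_symm ad r hs x y
  · rfl
  · rfl
  · unfold cad
    by_cases h : (x, x') = (y, y')
    · simp only [Prod.mk.injEq] at h
      obtain ⟨rfl, rfl⟩ := h
      simp [eq_comm]
    · have h' : ¬ (y, y') = (x, x') := fun e => h e.symm
      simp [h, h']

theorem cad_irrefl (hi : ∀ v, ad v v = false) (x : Cd Λ) : cad ad r x x = false := by
  rcases x with x | ⟨⟨x, x'⟩, ⟨i, b⟩⟩
  · exact mad_irrefl ad r hi x
  · simp [cad]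

end

section
variable {bs : List Λ} {ta : Λ → Bool} {r : Λ} {k : ℕ}

theorem mem_mlist {x : Mn Λ} : x ∈ mlist bs ta ↔ x = none ∨ (∃ v ∈ bs, x = some (v, false)) ∨
    ∃ v ∈ bs, ta v = true ∧ x = some (v, true) := by
  unfold mlist
  simp only [List.mem_cons, List.mem_append, List.mem_map, List.mem_filter]
  constructor
  · rintro (h | ⟨v, h1, h2⟩ | ⟨v, ⟨h1, h2⟩, h3⟩)
    · exact Or.inl h
    · exact Or.inr (Or.inl ⟨v, h1, h2.symm⟩)
    · exact Or.inr (Or.inr ⟨v, h1, h2, h3.symm⟩)
  · rintro (h | ⟨v, h1, h2⟩ | ⟨v, h1, h2, h3⟩)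
    · exact Or.inl h
    · exact Or.inr (Or.inl ⟨v, h1, h2.symm⟩)
    · exact Or.inr (Or.inr ⟨v, ⟨h1, h2⟩, h3.symm⟩)

theorem mlist_none : (none : Mn Λ) ∈ mlist bs ta := mem_mlist.2 (Or.inl rfl)

theorem mlist_base {v : Λ} : (some (v, false) : Mn Λ) ∈ mlist bs ta ↔ v ∈ bs := by
  rw [mem_mlist]
  constructor
  · rintro (h | ⟨w, h1, h2⟩ | ⟨w, h1, h2, h3⟩)
    · simp at h
    · simp only [Option.some.injEq, Prod.mk.injEq, and_true] at h2
      rw [h2]; exact h1
    · simp at h3
  · intro h
    exact Or.inr (Or.inl ⟨v, h, rfl⟩)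

theorem mlist_pend {v : Λ} : (some (v, true) : Mn Λ) ∈ mlist bs ta ↔ v ∈ bs ∧ ta v = true := by
  rw [mem_mlist]
  constructor
  · rintro (h | ⟨w, h1, h2⟩ | ⟨w, h1, h2, h3⟩)
    · simp at h
    · simp at h2
    · simp only [Option.some.injEq, Prod.mk.injEq, and_true] at h3
      rw [h3]; exact ⟨h1, h2⟩
  · intro h
    exact Or.inr (Or.inr ⟨v, h.1, h.2, rfl⟩)

theorem clist_inl {x : Mn Λ} : (Sum.inl x : Cd Λ) ∈ clist bs ta r k ↔ x ∈ mlist bs ta := by
  unfold clist
  simp

theorem clist_inr {x y : Mn Λ} {i : ℕ} {b : Bool} :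
    (Sum.inr ((x, y), (i, b)) : Cd Λ) ∈ clist bs ta r k ↔
      x ∈ mlist bs ta ∧ y ∈ mlist bs ta ∧ fr r x y = true ∧ i < k + 1 := by
  unfold clist
  simp only [List.mem_append, List.mem_map, reduceCtorEq, and_false, exists_false, false_or,
    List.mem_flatMap, List.mem_filter, List.mem_range, List.mem_cons, Sum.inr.injEq,
    Prod.mk.injEq, List.not_mem_nil, or_false, Prod.exists, List.mem_product]
  constructor
  · rintro ⟨x', y', ⟨⟨h1, h2⟩, h3⟩, j, h4, h5⟩
    rcases h5 with ⟨⟨rfl, rfl⟩, rfl, rfl⟩ | ⟨⟨rfl, rfl⟩, rfl, rfl⟩ <;> exact ⟨h1, h2, h3, h4⟩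
  · rintro ⟨h1, h2, h3, h4⟩
    refine ⟨x, y, ⟨⟨h1, h2⟩, h3⟩, i, h4, ?_⟩
    cases b <;> simp

theorem mlist_nodup (h : bs.Nodup) : (mlist bs ta).Nodup := by
  unfold mlist
  rw [List.nodup_cons]
  refine ⟨by simp, ?_⟩
  rw [List.nodup_append]
  refine ⟨h.map (fun a b e => by simpa using e), (h.filter _).map (fun a b e => by simpa using e),
    ?_⟩
  intro a ha b hb
  rw [List.mem_map] at ha hb
  obtain ⟨v, -, rfl⟩ := ha
  obtain ⟨w, -, rfl⟩ := hb
  simp

theorem clist_nodup (h : bs.Nodup) : (clist bs ta r k).Nodup := by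
  have hm := mlist_nodup (ta := ta) h
  unfold clist
  rw [List.nodup_append]
  refine ⟨hm.map Sum.inl_injective, ?_, ?_⟩
  · rw [List.nodup_flatMap]
    refine ⟨?_, ?_⟩
    · intro p hp
      rw [List.nodup_flatMap]
      refine ⟨fun i _ => by simp, ?_⟩
      refine List.nodup_range.imp ?_
      intro i j hij
      simp [Function.onFun, List.disjoint_left, hij]
    · refine ((hm.product hm).filter _).imp ?_
      intro p q hpq
      rw [Function.onFun, List.disjoint_left]
      intro a ha hb
      simp only [List.mem_flatMap, List.mem_range, List.mem_cons, List.not_mem_nil, or_false]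
        at ha hb
      obtain ⟨i, -, hi⟩ := ha
      obtain ⟨j, -, hj⟩ := hb
      rcases hi with rfl | rfl <;> rcases hj with hj | hj <;>
        simp only [Sum.inr.injEq, Prod.mk.injEq] at hj <;> exact hpq hj.1
  · intro a ha b hb
    rw [List.mem_map] at ha
    obtain ⟨x, -, rfl⟩ := ha
    simp only [List.mem_flatMap, List.mem_cons, List.not_mem_nil, or_false] at hb
    obtain ⟨p, -, i, -, hb⟩ := hb
    rcases hb with rfl | rfl <;> simp

end

end Pool.Agent.P8H86.EM
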