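import Pool.Agent.P8H86.EM.GammaThm

/-!
# From closed sets to modifications of the protected graph
-/

set_option autoImplicit false

namespace Pool.Agent.P8H86.EM

variable {Λ : Type} [DecidableEq Λ]

theorem IsC4.rot {V : Type} {G : SimpleGraph V} {a b c d : V} (h : IsC4 G a b c d) :
    IsC4 G b c d a := by
  obtain ⟨h1, h2, h3, h4, h5, h6, h7, h8⟩ := h
  exact ⟨h2, h3, h4, h1, h7, h8, h5.symm, fun h => h6 h.symm⟩

/-- the pairs which are deleted -/
def cut (S : Finset Λ) (x y : Cd Λ) : Prop :=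
  ∃ v ∈ S, (x = Sum.inl none ∧ y = Sum.inl (some (v, false))) ∨
    (y = Sum.inl none ∧ x = Sum.inl (some (v, false)))

omit [DecidableEq Λ] in
theorem cut_symm {S : Finset Λ} {x y : Cd Λ} (h : cut S x y) : cut S y x := by
  obtain ⟨v, hv, h⟩ := h
  exact ⟨v, hv, h.symm⟩

section
variable {bs : List Λ} {ad : Λ → Λ → Bool} {ta : Λ → Bool} {r : Λ} {k : ℕ}

/-- the modified graph -/
def cutG (H : Good bs ad r) (ta : Λ → Bool) (k : ℕ) (S : Finset Λ) :
    SimpleGraph (Vx bs ta r k) where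
  Adj x y := cad ad r x.1 y.1 = true ∧ ¬ cut S x.1 y.1
  symm := ⟨fun x y h => ⟨by rw [cad_symm ad r H.symm]; exact h.1, fun h' => h.2 (cut_symm h')⟩⟩
  loopless := ⟨fun x h => by have := h.1; rw [cad_irrefl ad r H.irrefl] at this; simp at this⟩

theorem cutG_adj (H : Good bs ad r) {S : Finset Λ} (x y : Vx bs ta r k) :
    (cutG H ta k S).Adj x y ↔ cad ad r x.1 y.1 = true ∧ ¬ cut S x.1 y.1 := Iff.rfl

omit [DecidableEq Λ] in
theorem not_cut_inr {S : Finset Λ} (x : Cd Λ) (q) : ¬ cut S x (Sum.inr q) := by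
  rintro ⟨v, -, h | h⟩
  · simp at h
  · simp at h

theorem not_cut_fr {S : Finset Λ} (hr : r ∉ S) {x y : Mn Λ} (h : fr r x y = true) :
    ¬ cut S (Sum.inl x : Cd Λ) (Sum.inl y) := by
  rintro ⟨v, hv, h' | h'⟩
  · simp only [Sum.inl.injEq] at h'
    obtain ⟨rfl, rfl⟩ := h'
    simp only [fr, Bool.false_or, decide_eq_true_eq] at h
    subst h
    exact hr hv
  · simp only [Sum.inl.injEq] at h'
    obtain ⟨rfl, rfl⟩ := h'
    simp only [fr, Bool.false_or, decide_eq_true_eq] at h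
    subst h
    exact hr hv

/-- neighbours of a protecting vertex of an adjacent pair -/
theorem nb_edge {x y : Mn Λ} {i : ℕ} {β : Bool} (hm : mad ad r x y = true) (z : Cd Λ)
    (h : cad ad r (Sum.inr ((x, y), (i, β))) z = true) : z = Sum.inl x ∨ z = Sum.inl y := by
  rcases z with z | ⟨⟨x', y'⟩, ⟨j, γ⟩⟩
  · simp only [cad, hm, if_true, Bool.or_eq_true, decide_eq_true_eq] at h
    rcases h with h | h
    · exact Or.inl (by rw [h])
    · exact Or.inr (by rw [h])
  · simp [cad, hm] at h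

/-- neighbours of a protecting vertex of a pair which is not adjacent -/
theorem nb_nonedge {x y : Mn Λ} {i : ℕ} {β : Bool} (hm : ¬ mad ad r x y = true) (z : Cd Λ)
    (h : cad ad r (Sum.inr ((x, y), (i, β))) z = true) :
    z = Sum.inl (if β then y else x) ∨ z = Sum.inr ((x, y), (i, !β)) := by
  rcases z with z | ⟨⟨x', y'⟩, ⟨j, γ⟩⟩
  · simp only [cad, hm, if_false, Bool.false_eq_true, decide_eq_true_eq] at h
    exact Or.inl (by rw [h])
  · simp only [cad, Prod.mk.injEq, Bool.and_eq_true, decide_eq_true_eq] at h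
    obtain ⟨⟨rfl, rfl⟩, rfl, h, -⟩ := h
    right
    cases β <;> cases γ <;> simp_all

theorem no_inr (H : Good bs ad r) {S : Finset Λ} (hr : r ∉ S) {a b c d : Vx bs ta r k}
    (h : IsC4 (cutG H ta k S) a b c d) : ∃ x : Mn Λ, a.1 = Sum.inl x := by
  obtain ⟨⟨hab, -⟩, ⟨hbc, -⟩, ⟨hcd, -⟩, ⟨hda, -⟩, hac, -, hbd, hnbd⟩ := h
  obtain ⟨a, ha⟩ := a
  rcases a with x | ⟨⟨x, y⟩, ⟨i, β⟩⟩
  · exact ⟨x, rfl⟩
  exfalso
  obtain ⟨hx, hy, hxy, hi⟩ := clist_inr.1 ha
  rw [cad_symm ad r H.symm] at hda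
  have hbd' : b.1 ≠ d.1 := fun e => hbd (Subtype.ext e)
  by_cases hm : mad ad r x y = true
  · have hm' : mad ad r y x = true := by rw [mad_symm ad r H.symm]; exact hm
    have hyx : fr r y x = true := by rw [fr_symm]; exact hxy
    rcases nb_edge hm _ hab with hb | hb <;> rcases nb_edge hm _ hda with hd | hd
    · exact hbd' (hb.trans hd.symm)
    · refine hnbd ⟨?_, ?_⟩
      · rw [hb, hd]; exact hm
      · rw [hb, hd]; exact not_cut_fr hr hxy
    · refine hnbd ⟨?_, ?_⟩
      · rw [hb, hd]; exact hm'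
      · rw [hb, hd]; exact not_cut_fr hr hyx
    · exact hbd' (hb.trans hd.symm)
  · have hm' : ¬ mad ad r y x = true := by rw [mad_symm ad r H.symm]; exact hm
    have hac' : c.1 ≠ Sum.inr ((x, y), (i, β)) := fun e => hac (Subtype.ext e.symm)
    have fin : ∀ b d : Cd Λ, b = Sum.inl (if β then y else x) → d = Sum.inr ((x, y), (i, !β)) →
        cad ad r c.1 b = true → cad ad r d c.1 = true → False := by
      rintro _ _ rfl rfl h1 h2
      rcases nb_nonedge hm _ h2 with h3 | h3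
      · rw [h3] at h1
        cases β
        · exact hm' h1
        · exact hm h1
      · rw [Bool.not_not] at h3
        exact hac' h3
    rcases nb_nonedge hm _ hab with hb | hb <;> rcases nb_nonedge hm _ hda with hd | hd
    · exact hbd' (hb.trans hd.symm)
    · exact fin b.1 d.1 hb hd (by rw [cad_symm ad r H.symm]; exact hbc)
        (by rw [cad_symm ad r H.symm]; exact hcd)
    · exact fin d.1 b.1 hd hb hcd hbc
    · exact hbd' (hb.trans hd.symm)

/-- no induced 4-cycle through the hub -/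
theorem no_hub (H : Good bs ad r) {S : Finset Λ} (hS : Closed bs ad ta r S)
    {a b c d : Vx bs ta r k} (h : IsC4 (cutG H ta k S) a b c d) (ha : a.1 = Sum.inl none) :
    False := by
  obtain ⟨x, hb⟩ := no_inr H hS.1 h.rot
  obtain ⟨y, hc⟩ := no_inr H hS.1 h.rot.rot
  obtain ⟨z, hd⟩ := no_inr H hS.1 h.rot.rot.rot
  obtain ⟨hab, hbc, hcd, hda, hac, hnac, hbd, -⟩ := h
  have hbd' : b.1 ≠ d.1 := fun e => hbd (Subtype.ext e)
  have hac' : a.1 ≠ c.1 := fun e => hac (Subtype.ext e)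
  have mb : x ∈ mlist bs ta := clist_inl.1 (hb ▸ b.2)
  have mc : y ∈ mlist bs ta := clist_inl.1 (hc ▸ c.2)
  have md : z ∈ mlist bs ta := clist_inl.1 (hd ▸ d.2)
  rw [cutG_adj] at hab hbc hcd hda hnac
  rw [ha] at hab hda hnac hac'
  rw [hb] at hab hbc hbd'
  rw [hc] at hbc hcd hnac hac'
  rw [hd] at hcd hda hbd'
  -- the vertex opposite to the hub
  rcases y with _ | ⟨v, _ | _⟩
  · exact hac' rfl
  swap
  · refine hnac ⟨by simp [cad, mad], not_cut_fr hS.1 (by simp [fr])⟩
  have hv : v ∈ insert r S := by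
    rw [Finset.mem_insert]
    by_contra hv
    rw [not_or] at hv
    refine hnac ⟨by simpa [cad, mad] using hv.1, ?_⟩
    rintro ⟨w, hw, h | h⟩
    · simp only [Sum.inl.injEq, Option.some.injEq, Prod.mk.injEq, and_true, true_and] at h
      rw [h] at hv
      exact hv.2 hw
    · simp at h
  -- a neighbour of the hub
  have nb : ∀ x : Mn Λ, x ∈ mlist bs ta → cad ad r (Sum.inl none) (Sum.inl x) = true →
      ¬ cut S (Sum.inl none : Cd Λ) (Sum.inl x) →
      cad ad r (Sum.inl (some (v, false))) (Sum.inl x) = true →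
      (x = some (v, true) ∧ ta v = true) ∨
        ∃ w ∈ bs, x = some (w, false) ∧ ad v w = true ∧ w ∉ insert r S := by
    intro x mx h1 h2 h3
    rcases x with _ | ⟨w, _ | _⟩
    · simp [cad, mad] at h1
    · right
      refine ⟨w, mlist_base.1 mx, rfl, by simpa [cad, mad] using h3, ?_⟩
      rw [Finset.mem_insert, not_or]
      refine ⟨by simpa [cad, mad] using h1, fun hw => h2 ⟨w, hw, Or.inl ⟨rfl, rfl⟩⟩⟩
    · left
      have : v = w := by simpa [cad, mad] using h3
      subst this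
      exact ⟨rfl, (mlist_pend.1 mx).2⟩
  have hcs := cad_symm ad r H.symm
  have n1 := nb x mb hab.1 hab.2 (by rw [hcs]; exact hbc.1)
  have n2 := nb z md (by rw [hcs]; exact hda.1) (fun h => hda.2 (cut_symm h)) hcd.1
  obtain ⟨c1, c2⟩ := hS.2.2 v hv
  rcases n1 with ⟨e1, t1⟩ | ⟨w1, m1, e1, a1, o1⟩ <;> rcases n2 with ⟨e2, t2⟩ | ⟨w2, m2, e2, a2, o2⟩
  · exact hbd' (by rw [e1, e2])
  · exact o2 (c1 t1 w2 m2 a2)
  · exact o1 (c1 t2 w1 m1 a1)
  · exact hbd' (by rw [e1, e2, c2 w1 m1 w2 m2 a1 a2 o1 o2])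

theorem no_C4 (H : Good bs ad r) {S : Finset Λ} (hS : Closed bs ad ta r S)
    (a b c d : Vx bs ta r k) : ¬ IsC4 (cutG H ta k S) a b c d := by
  intro h
  obtain ⟨x, ha⟩ := no_inr H hS.1 h
  obtain ⟨y, hb⟩ := no_inr H hS.1 h.rot
  obtain ⟨z, hc⟩ := no_inr H hS.1 h.rot.rot
  obtain ⟨w, hd⟩ := no_inr H hS.1 h.rot.rot.rot
  have k1 : x ≠ none := fun e => no_hub H hS h (by rw [ha, e])
  have k2 : y ≠ none := fun e => no_hub H hS h.rot (by rw [hb, e])
  have k3 : z ≠ none := fun e => no_hub H hS h.rot.rot (by rw [hc, e])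
  have k4 : w ≠ none := fun e => no_hub H hS h.rot.rot.rot (by rw [hd, e])
  have ma : x ∈ mlist bs ta := clist_inl.1 (ha ▸ a.2)
  have mb : y ∈ mlist bs ta := clist_inl.1 (hb ▸ b.2)
  have mc : z ∈ mlist bs ta := clist_inl.1 (hc ▸ c.2)
  have md : w ∈ mlist bs ta := clist_inl.1 (hd ▸ d.2)
  obtain ⟨⟨hab, -⟩, ⟨hbc, -⟩, ⟨hcd, -⟩, ⟨hda, -⟩, hac, -, hbd, -⟩ := h
  have hbd' : b.1 ≠ d.1 := fun e => hbd (Subtype.ext e)
  have hac' : a.1 ≠ c.1 := fun e => hac (Subtype.ext e)
  rw [ha] at hab hda hac'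
  rw [hb] at hab hbc hbd'
  rw [hc] at hbc hcd hac'
  rw [hd] at hcd hda hbd'
  -- pendant vertices have only one neighbour
  have pend : ∀ x y z : Mn Λ, x ≠ none → y ≠ none → z ≠ none →
      cad ad r (Sum.inl x) (Sum.inl y) = true → cad ad r (Sum.inl y) (Sum.inl z) = true →
      (Sum.inl x : Cd Λ) ≠ Sum.inl z → ∃ v, y = some (v, false) := by
    intro x y z h1 h2 h3 h4 h5 h6
    rcases y with _ | ⟨v, _ | _⟩
    · exact absurd rfl h2
    · exact ⟨v, rfl⟩
    · exfalso
      rcases x with _ | ⟨u, _ | _⟩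
      · exact h1 rfl
      · rcases z with _ | ⟨t, _ | _⟩
        · exact h3 rfl
        · simp only [cad, mad, decide_eq_true_eq] at h4 h5
          exact h6 (by rw [h4, h5])
        · simp [cad, mad] at h5
      · simp [cad, mad] at h4
  have hcs := cad_symm ad r H.symm
  obtain ⟨a', rfl⟩ := pend w x y k4 k1 k2 hda hab (fun e => hbd' e.symm)
  obtain ⟨b', rfl⟩ := pend _ y z k1 k2 k3 hab hbc hac'
  obtain ⟨c', rfl⟩ := pend _ z w k2 k3 k4 hbc hcd hbd'
  obtain ⟨d', rfl⟩ := pend _ w _ k3 k4 k1 hcd hda (fun e => hac' e.symm)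
  rcases H.cyc a' (mlist_base.1 ma) b' (mlist_base.1 mb) c' (mlist_base.1 mc) d'
    (mlist_base.1 md) hab hbc hcd hda with e | e
  · exact hac' (by rw [e])
  · exact hbd' (by rw [e])

/-- From a closed set to a modification (only deletions are used). -/
theorem modifiable_of_closed (H : Good bs ad r) (M : Modification)
    (hM : M = .deletion ∨ M = .editing) {S : Finset Λ} (hk : S.card ≤ k)
    (hS : Closed bs ad ta r S) : Modifiable M {C4} (gam H ta k) k := by
  refine ⟨cutG H ta k S, ?_, ?_, ?_⟩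
  · rcases hM with rfl | rfl
    · intro x y hxy
      exact hxy.1
    · trivial
  · rw [free_C4]
    exact no_C4 H hS
  · refine le_trans ?_ hk
    rw [cost_eq]
    have h0 : (none : Mn Λ) ∈ mlist bs ta := mlist_none
    let f : Λ → Sym2 (Vx bs ta r k) := fun v =>
      if hv : v ∈ bs then s(mv h0, mv (mlist_base.2 hv)) else s(mv h0, mv h0)
    have hsub : diff (gam H ta k) (cutG H ta k S) ⊆ f '' S := by
      intro e he
      induction e using Sym2.ind with
      | _ x y =>
        rw [mem_diff, gam_adj, cutG_adj] at he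
        have hcut : cut S x.1 y.1 := by
          by_contra hc
          exact he ⟨fun h => ⟨h, hc⟩, fun h => h.1⟩
        obtain ⟨v, hv, h | h⟩ := hcut
        · refine ⟨v, hv, ?_⟩
          have hvb := hS.2.1 v hv
          simp only [f, hvb, dif_pos]
          have e1 : x = mv h0 := Subtype.ext h.1
          have e2 : y = mv (mlist_base.2 hvb) := Subtype.ext h.2
          rw [e1, e2]
        · refine ⟨v, hv, ?_⟩
          have hvb := hS.2.1 v hv
          simp only [f, hvb, dif_pos]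
          have e1 : y = mv h0 := Subtype.ext h.1
          have e2 : x = mv (mlist_base.2 hvb) := Subtype.ext h.2
          rw [e1, e2, Sym2.eq_swap]
    refine (Set.ncard_le_ncard hsub (S.finite_toSet.image f)).trans ?_
    refine (Set.ncard_image_le S.finite_toSet).trans ?_
    rw [Set.ncard_coe_finset]

theorem gam_iff (H : Good bs ad r) (M : Modification) (hM : M = .deletion ∨ M = .editing) :
    Modifiable M {C4} (gam H ta k) k ↔ ∃ S : Finset Λ, S.card ≤ k ∧ Closed bs ad ta r S :=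
  ⟨closed_of_modifiable H M, fun ⟨_, h1, h2⟩ => modifiable_of_closed H M hM h1 h2⟩

end

end Pool.Agent.P8H86.EM
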