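import Pool.Agent.P8H86.EM.Gamma

/-!
# The protected graph and closed sets
-/

set_option autoImplicit false

namespace Pool.Agent.P8H86.EM

variable {Λ : Type} [DecidableEq Λ]

/-- The sets `S` such that `S ∪ {r}` is closed: all neighbours of a vertex of type `ta`, and all
neighbours but at most one of any other vertex belong to the set. -/
def Closed (bs : List Λ) (ad : Λ → Λ → Bool) (ta : Λ → Bool) (r : Λ) (S : Finset Λ) : Prop :=
  r ∉ S ∧ (∀ v ∈ S, v ∈ bs) ∧ ∀ b ∈ insert r S,
    (ta b = true → ∀ a ∈ bs, ad b a = true → a ∈ insert r S) ∧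
    ∀ a ∈ bs, ∀ c ∈ bs, ad b a = true → ad b c = true → a ∉ insert r S → c ∉ insert r S → a = c

/-- The conditions on the base graph. -/
structure Good (bs : List Λ) (ad : Λ → Λ → Bool) (r : Λ) : Prop where
  symm : ∀ v w, ad v w = ad w v
  irrefl : ∀ v, ad v v = false
  root : r ∈ bs
  tri : ∀ a ∈ bs, ∀ b ∈ bs, ∀ c ∈ bs, ad a b = true → ad b c = true → ad c a = true → False
  cyc : ∀ a ∈ bs, ∀ b ∈ bs, ∀ c ∈ bs, ∀ d ∈ bs, ad a b = true → ad b c = true → ad c d = true →
    ad d a = true → a = c ∨ b = d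

/-- the graph on all codes -/
def codeG (ad : Λ → Λ → Bool) (r : Λ) (hs : ∀ v w, ad v w = ad w v) (hi : ∀ v, ad v v = false) :
    SimpleGraph (Cd Λ) where
  Adj x y := cad ad r x y = true
  symm := ⟨fun x y h => by rw [cad_symm ad r hs]; exact h⟩
  loopless := ⟨fun x h => by rw [cad_irrefl ad r hi] at h; exact absurd h (by simp)⟩

section
variable {bs : List Λ} {ad : Λ → Λ → Bool} {ta : Λ → Bool} {r : Λ} {k : ℕ}

/-- the vertex type -/
abbrev Vx (bs : List Λ) (ta : Λ → Bool) (r : Λ) (k : ℕ) : Type := {c : Cd Λ // c ∈ clist bs ta r k}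

instance : Finite (Vx bs ta r k) := (List.finite_toSet (clist bs ta r k)).to_subtype

theorem diff_finite {V : Type} [Finite V] (G G' : SimpleGraph V) : (diff G G').Finite := by
  have : Finite (Sym2 V) := Finite.of_surjective (fun p : V × V => s(p.1, p.2))
    (fun e => by induction e using Sym2.ind with | _ a b => exact ⟨(a, b), rfl⟩)
  exact Set.toFinite _

/-- the protected graph -/
def gam (H : Good bs ad r) (ta : Λ → Bool) (k : ℕ) : SimpleGraph (Vx bs ta r k) :=
  (codeG ad r H.symm H.irrefl).comap Subtype.val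

theorem gam_adj (H : Good bs ad r) (x y : Vx bs ta r k) :
    (gam H ta k).Adj x y ↔ cad ad r x.1 y.1 = true := Iff.rfl

/-- a main vertex -/
def mv {x : Mn Λ} (h : x ∈ mlist bs ta) : Vx bs ta r k := ⟨Sum.inl x, clist_inl.2 h⟩

/-- Protected pairs are not modified. -/
theorem protected_pair (H : Good bs ad r) (G' : SimpleGraph (Vx bs ta r k))
    (hf : Free {C4} G') (hc : cost (gam H ta k) G' ≤ k) {x y : Mn Λ} (hx : x ∈ mlist bs ta)
    (hy : y ∈ mlist bs ta) (hxy : fr r x y = true) :
    G'.Adj (mv hx) (mv hy) ↔ mad ad r x y = true := by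
  by_contra hne
  rw [free_C4] at hf
  have hxne : x ≠ y := by
    rintro rfl
    rw [fr_irrefl] at hxy
    exact absurd hxy (by simp)
  -- the two protecting vertices
  let A : Fin (k + 1) → Vx bs ta r k := fun i =>
    ⟨Sum.inr ((x, y), ((i : ℕ), false)), clist_inr.2 ⟨hx, hy, hxy, i.2⟩⟩
  let B : Fin (k + 1) → Vx bs ta r k := fun i =>
    ⟨Sum.inr ((x, y), ((i : ℕ), true)), clist_inr.2 ⟨hx, hy, hxy, i.2⟩⟩
  have hAB : ∀ i, A i ≠ B i := by
    intro i h
    simp [A, B] at h
  have hXY : (mv hx : Vx bs ta r k) ≠ mv hy := by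
    intro h
    simp only [mv, Subtype.mk.injEq, Sum.inl.injEq] at h
    exact hxne h
  have hXA : ∀ i, (mv hx : Vx bs ta r k) ≠ A i := by intro i h; simp [mv, A] at h
  have hXB : ∀ i, (mv hx : Vx bs ta r k) ≠ B i := by intro i h; simp [mv, B] at h
  have hYA : ∀ i, (mv hy : Vx bs ta r k) ≠ A i := by intro i h; simp [mv, A] at h
  have hYB : ∀ i, (mv hy : Vx bs ta r k) ≠ B i := by intro i h; simp [mv, B] at h
  -- one of the pairs is modified
  have key : ∀ i, ∃ e ∈ diff (gam H ta k) G', (A i ∈ e ∨ B i ∈ e) ∧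
      ∀ z ∈ e, z = mv hx ∨ z = mv hy ∨ z = A i ∨ z = B i := by
    intro i
    by_contra hcon
    push Not at hcon
    have same : ∀ u v : Vx bs ta r k, (A i ∈ s(u, v) ∨ B i ∈ s(u, v)) →
        (∀ z ∈ s(u, v), z = mv hx ∨ z = mv hy ∨ z = A i ∨ z = B i) →
        (G'.Adj u v ↔ cad ad r u.1 v.1 = true) := by
      intro u v h1 h2
      by_contra h3
      have h4 : s(u, v) ∈ diff (gam H ta k) G' := by
        rw [mem_diff, gam_adj]
        exact fun h => h3 h.symm
      obtain ⟨z, hz, hz1, hz2, hz3, hz4⟩ := hcon _ h4 h1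
      rcases h2 z hz with h | h | h | h
      · exact hz1 h
      · exact hz2 h
      · exact hz3 h
      · exact hz4 h
    have sXA := same (mv hx) (A i) (Or.inl (by simp)) (by simp)
    have sYA := same (mv hy) (A i) (Or.inl (by simp)) (by simp)
    have sXB := same (mv hx) (B i) (Or.inr (by simp)) (by simp)
    have sYB := same (mv hy) (B i) (Or.inr (by simp)) (by simp)
    have sAB := same (A i) (B i) (Or.inl (by simp)) (by simp)
    by_cases hm : mad ad r x y = true
    · have n1 : ¬ G'.Adj (mv hx) (mv hy) := fun h => hne ⟨fun _ => hm, fun _ => h⟩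
      simp only [mv, A, B, cad, hm, if_true, decide_true, Bool.true_or, Bool.or_true,
        Bool.not_true, Bool.and_false, iff_true] at sXA sYA sXB sYB sAB
      refine hf (mv hx) (A i) (mv hy) (B i) ⟨sXA, sYA.symm, sYB, sXB.symm, hXY, n1, hAB i, ?_⟩
      simpa using sAB
    · have n1 : G'.Adj (mv hx) (mv hy) := by
        by_contra h
        exact hne ⟨fun h' => absurd h' h, fun h' => absurd h' hm⟩
      have hxne' : ¬ y = x := fun h => hxne h.symm
      simp only [mv, A, B, cad, hm, if_false, Bool.false_eq_true, if_true, decide_true,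
        Bool.not_false, Bool.and_true, iff_true, hxne, hxne', decide_false, iff_false] at sXA sYA sXB sYB sAB
      refine hf (mv hx) (A i) (B i) (mv hy) ⟨sXA, ?_, sYB.symm, n1.symm, hXB i, sXB, (hYA i).symm, ?_⟩
      · simpa using sAB
      · exact fun h => sYA h.symm
  choose f hf1 hf2 hf3 using key
  have hinj : Function.Injective f := by
    intro i j hij
    have h1 := hf2 i
    rw [hij] at h1
    rcases h1 with h1 | h1
    · rcases hf3 j _ h1 with h | h | h | h
      · exact absurd h (hXA i).symm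
      · exact absurd h (hYA i).symm
      · simp only [A, Subtype.mk.injEq, Sum.inr.injEq, Prod.mk.injEq, true_and, and_true] at h
        exact Fin.ext h
      · simp [A, B] at h
    · rcases hf3 j _ h1 with h | h | h | h
      · exact absurd h (hXB i).symm
      · exact absurd h (hYB i).symm
      · simp [A, B] at h
      · simp only [B, Subtype.mk.injEq, Sum.inr.injEq, Prod.mk.injEq, true_and, and_true] at h
        exact Fin.ext h
  have hcard : k + 1 ≤ (diff (gam H ta k) G').ncard := by
    have h1 : (Set.range f).ncard = k + 1 := by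
      rw [← Set.image_univ, Set.ncard_image_of_injective _ hinj, Set.ncard_univ]
      simp
    rw [← h1]
    exact Set.ncard_le_ncard (by rintro _ ⟨i, rfl⟩; exact hf1 i) (diff_finite _ _)
  rw [cost_eq] at hc
  omega

/-- From a modification to a closed set. -/
theorem closed_of_modifiable (H : Good bs ad r) (M : Modification)
    (h : Modifiable M {C4} (gam H ta k) k) : ∃ S : Finset Λ, S.card ≤ k ∧ Closed bs ad ta r S := by
  classical
  obtain ⟨G', -, hf, hc⟩ := h
  have P := fun {x y : Mn Λ} (hx : x ∈ mlist bs ta) (hy : y ∈ mlist bs ta)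
    (hxy : fr r x y = true) => protected_pair H G' hf hc hx hy hxy
  rw [free_C4] at hf
  have h0 : (none : Mn Λ) ∈ mlist bs ta := mlist_none
  have hb : ∀ {v : Λ}, v ∈ bs → (some (v, false) : Mn Λ) ∈ mlist bs ta := fun h => mlist_base.2 h
  have hp : ∀ {v : Λ}, v ∈ bs → ta v = true → (some (v, true) : Mn Λ) ∈ mlist bs ta :=
    fun h h' => mlist_pend.2 ⟨h, h'⟩
  set S : Finset Λ := bs.toFinset.filter (fun v => v ≠ r ∧ ∃ hv : v ∈ bs,
    ¬ G'.Adj (mv h0) (mv (hb hv))) with hS
  have memS : ∀ v (hv : v ∈ bs), v ∈ S ↔ v ≠ r ∧ ¬ G'.Adj (mv h0) (mv (hb hv)) := by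
    intro v hv
    rw [hS, Finset.mem_filter, List.mem_toFinset]
    exact ⟨fun h => ⟨h.2.1, h.2.2.2⟩, fun h => ⟨hv, h.1, hv, h.2⟩⟩
  have memSbs : ∀ v ∈ S, v ∈ bs := by
    intro v hv
    rw [hS, Finset.mem_filter, List.mem_toFinset] at hv
    exact hv.1
  have hin : ∀ b (hbs : b ∈ bs), b ∈ insert r S → ¬ G'.Adj (mv h0) (mv (hb hbs)) := by
    intro b hbs hbS
    rw [Finset.mem_insert] at hbS
    rcases hbS with rfl | hbS
    · rw [P h0 (hb hbs) (by simp [fr])]
      simp [mad]
    · exact ((memS b hbs).1 hbS).2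
  have hout : ∀ a (ha : a ∈ bs), a ∉ insert r S → G'.Adj (mv h0) (mv (hb ha)) := by
    intro a ha haS
    rw [Finset.mem_insert, not_or, memS a ha] at haS
    by_contra h
    exact haS.2 ⟨haS.1, h⟩
  have hmvne : ∀ {x y : Mn Λ} (hx : x ∈ mlist bs ta) (hy : y ∈ mlist bs ta), x ≠ y →
      (mv hx : Vx bs ta r k) ≠ mv hy := by
    intro x y hx hy hxy h
    simp only [mv, Subtype.mk.injEq, Sum.inl.injEq] at h
    exact hxy h
  refine ⟨S, ?_, ?_, memSbs, ?_⟩
  · refine le_trans ?_ hc
    rw [cost_eq, ← Set.ncard_coe_finset]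
    refine Set.ncard_le_ncard_of_injOn
      (fun v => if hv : v ∈ bs then s((mv h0 : Vx bs ta r k), mv (hb hv)) else s(mv h0, mv h0))
      ?_ ?_ (diff_finite _ _)
    · intro v hv
      have hv' : v ∈ S := hv
      have hvb := memSbs v hv'
      have h2 := (memS v hvb).1 hv'
      simp only [hvb, dif_pos]
      rw [mem_diff, gam_adj]
      simp only [mv, cad, mad]
      have : decide (v ≠ r) = true := by simpa using h2.1
      simp only [this, Bool.false_or, true_iff]
      exact h2.2
    · intro v hv w hw hvw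
      have hvb := memSbs v hv
      have hwb := memSbs w hw
      simp only [hvb, hwb, dif_pos, Sym2.eq_iff, true_and] at hvw
      rcases hvw with h | h
      · simp only [mv, Subtype.mk.injEq, Sum.inl.injEq, Option.some.injEq, Prod.mk.injEq,
          and_true] at h
        exact h
      · exact absurd h.1 (hmvne _ _ (by simp))
  · intro h
    rw [memS r H.root] at h
    exact h.1 rfl
  · intro b hbS
    have hbs : b ∈ bs := by
      rw [Finset.mem_insert] at hbS
      rcases hbS with rfl | h
      · exact H.root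
      · exact memSbs b h
    have nb := hin b hbs hbS
    refine ⟨?_, ?_⟩
    · intro htb a ha hab
      by_contra haS
      have hne : a ≠ b := by
        rintro rfl
        rw [H.irrefl] at hab
        exact absurd hab (by simp)
      have e1 := hout a ha haS
      have e2 : G'.Adj (mv (hb ha)) (mv (hb hbs)) :=
        (P (hb ha) (hb hbs) (by simpa [fr] using hne)).2 (by simpa [mad, H.symm a b] using hab)
      have e3 : G'.Adj (mv (hb hbs)) (mv (hp hbs htb)) :=
        (P (hb hbs) (hp hbs htb) (by simp [fr])).2 (by simp [mad])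
      have e4 : G'.Adj (mv h0) (mv (hp hbs htb)) :=
        (P h0 (hp hbs htb) (by simp [fr])).2 (by simp [mad])
      have e5 : ¬ G'.Adj (mv (hb ha)) (mv (hp hbs htb)) := fun h =>
        absurd ((P (hb ha) (hp hbs htb) (by simp [fr])).1 h) (by simpa [mad] using hne)
      exact hf _ _ _ _ ⟨e1, e2, e3, e4.symm, hmvne _ _ (by simp), nb, hmvne _ _ (by simp), e5⟩
    · intro a ha c hc' hba hbc haS hcS
      by_contra hac
      have hne : a ≠ b := by
        rintro rfl
        rw [H.irrefl] at hba
        exact absurd hba (by simp)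
      have hne' : b ≠ c := by
        rintro rfl
        rw [H.irrefl] at hbc
        exact absurd hbc (by simp)
      have e1 := hout a ha haS
      have e2 : G'.Adj (mv (hb ha)) (mv (hb hbs)) :=
        (P (hb ha) (hb hbs) (by simpa [fr] using hne)).2 (by simpa [mad, H.symm a b] using hba)
      have e3 : G'.Adj (mv (hb hbs)) (mv (hb hc')) :=
        (P (hb hbs) (hb hc') (by simpa [fr] using hne')).2 (by simpa [mad] using hbc)
      have e4 := hout c hc' hcS
      have e5 : ¬ G'.Adj (mv (hb ha)) (mv (hb hc')) := by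
        intro h
        have h2 := (P (hb ha) (hb hc') (by simpa [fr] using hac)).1 h
        have h3 : ad a c = true := by simpa [mad] using h2
        exact H.tri a ha b hbs c hc' (by rw [H.symm]; exact hba) hbc (by rw [H.symm]; exact h3)
      exact hf _ _ _ _ ⟨e1, e2, e3, e4.symm, hmvne _ _ (by simp), nb,
        hmvne _ _ (by simpa using hac), e5⟩

end

end Pool.Agent.P8H86.EM
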