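import Pool.Agent.P8H86.EM.PolyRed
import Pool.Agent.H671R2.CK.K3
import Pool.Agent.H622R2.CoNP
import Pool.Agent.H671R2.Search

/-!
# `C₄`-free and `2K₂`-free edge editing have no polynomial kernels unless `coNP ⊆ NP/poly`
-/

set_option autoImplicit false

namespace Pool.Agent.P8H86.EM

open Pool.Agent.NPC Pool.Agent.NPC.R671 Pool.Agent.H622R2
open Pool.Agent.CK (Form maxLen CoNPSubsetNPPoly InNPPoly)

theorem code_inj {n n' : ℕ} {G : SimpleGraph (Fin n)} {G' : SimpleGraph (Fin n')} {k k' : ℕ}
    (h : code G k = code G' k') : (⟨n, G⟩ : Graph) = ⟨n', G'⟩ ∧ k = k' := by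
  have h1 := bits_injective h
  rw [Prod.mk.injEq] at h1
  obtain ⟨h1, rfl⟩ := h1
  have hn : n = n' := by
    have := congrArg List.length h1
    simpa [adjMatrix] using this
  subst hn
  rw [adjMatrix_inj h1]
  exact ⟨rfl, rfl⟩

theorem eval_mono' (p : Polynomial ℕ) {a b : ℕ} (h : a ≤ b) : p.eval a ≤ p.eval b := by
  rw [Polynomial.eval_eq_sum, Polynomial.eval_eq_sum]
  exact Finset.sum_le_sum fun i _ => Nat.mul_le_mul_left _ (Nat.pow_le_pow_left h i)

theorem foldl_le (fs : List Form) (b m : ℕ) (h : ∀ φ ∈ fs, φ.length ≤ m) :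
    fs.foldl (fun a φ => max a φ.length) b ≤ max b m := by
  induction fs generalizing b with
  | nil => simp
  | cons φ fs ih =>
    rw [List.foldl_cons]
    refine (ih _ fun ψ hψ => h ψ (List.mem_cons_of_mem _ hψ)).trans ?_
    have := h φ List.mem_cons_self
    omega

theorem instK_bound (fs : List Form) (m : ℕ) (h : ∀ φ ∈ fs, φ.length ≤ m) :
    instK fs ≤ fs.length.size + 1 + 20 * ((m + 1) * (m + 1)) := by
  have h1 : maxLen fs ≤ m + 1 := by
    unfold Pool.Agent.CK.maxLen
    refine (foldl_le fs 1 m h).trans ?_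
    omega
  have h2 : bK fs ≤ 20 * ((m + 1) * (m + 1)) := by
    unfold bK
    exact Nat.mul_le_mul_left _ (Nat.mul_le_mul h1 h1)
  have h3 : (2 * (insts fs).length).size ≤ fs.length.size + 1 := by
    unfold insts
    rw [List.length_map, Nat.size_le, pow_succ]
    have := Nat.lt_size_self fs.length
    omega
  unfold instK budget
  omega

/-- The general principle. -/
theorem incomp_of (M : Modification) (F : Set Graph) (N : List Form → ℕ)
    (G : (fs : List Form) → SimpleGraph (Fin (N fs)))
    (hG : Poly (fun fs : List Form => adjMatrix (G fs)))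
    (hiff : ∀ fs : List Form, fs ≠ [] → (Modifiable M F (G fs) (instK fs) ↔ ∃ φ ∈ fs, SAT3 φ))
    (h : HasPolyKernel M F) : CoNPSubsetNPPoly := by
  obtain ⟨f, p, hf, hker⟩ := h
  intro L hL
  obtain ⟨red, hred, hpr, hL'⟩ := hardPr_SAT3b Lᶜ hL
  have hredP : Poly red := PC.comp (g := red) (f := fun x => x) hred rawOut
  obtain ⟨p1, hp1⟩ := hredP.sz_le
  -- the composition followed by the kernelization
  let comp : List (List Bool) → List Bool := fun xs => f (code (G (xs.map red)) (instK (xs.map red)))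
  have hcomp : Poly comp := by
    have h1 : Poly (fun xs : List (List Bool) => xs.map red) :=
      NPC.Poly.map (F := fun _ x => red x) NPC.Poly.id (hredP.comp (NPC.Poly.snd NPC.Poly.id))
    have h2 : Poly (fun xs : List (List Bool) => (adjMatrix (G (xs.map red)), instK (xs.map red))) :=
      NPC.Poly.pair (hG.comp h1) (upoly_instK h1).toPoly
    exact (poly_of_polyTime hf).comp (poly_bits.comp h2)
  have hnil : ∀ xs : List (List Bool), xs ≠ [] → xs.map red ≠ [] := by
    intro xs hxs
    simpa using hxs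
  refine CK.fs L comp hcomp (fun y => ∃ (n : ℕ) (G' : SimpleGraph (Fin n)) (k : ℕ),
    y = code G' k ∧ Modifiable M F G' k)
    (Polynomial.C 4 * p.comp (Polynomial.X + 1 + Polynomial.C 20 *
      ((p1.comp (4 * Polynomial.X + 1) + 1) * (p1.comp (4 * Polynomial.X + 1) + 1))) + 1) ?_ ?_
  · intro n xs _ hn
    obtain ⟨n', G', k', h1, -, h3⟩ := hker _ (G (xs.map red)) (instK (xs.map red))
    have hlen : ∀ φ ∈ xs.map red, φ.length ≤ p1.eval (4 * n + 1) := by
      intro φ hφ
      obtain ⟨x, hx, rfl⟩ := List.mem_map.1 hφ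
      have e1 := length_lt_sz (red x)
      have e2 := hp1 x
      have e3 := sz_listBool_le x
      rw [hn x hx] at e3
      have e4 := eval_mono' p1 e3
      omega
    have h4 := instK_bound _ _ hlen
    rw [List.length_map] at h4
    have h5 := sz_listBool_le (comp xs)
    have h6 : (comp xs).length ≤ p.eval (instK (xs.map red)) := by
      change (f _).length ≤ _
      rw [h1]
      exact h3
    refine h5.trans ?_
    simp only [Polynomial.eval_add, Polynomial.eval_mul, Polynomial.eval_C, Polynomial.eval_comp,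
      Polynomial.eval_X, Polynomial.eval_one, Polynomial.eval_ofNat]
    refine Nat.add_le_add_right (Nat.mul_le_mul_left 4 (h6.trans (eval_mono' p (h4.trans ?_)))) 1
    have e5 : p1.eval (4 * n + 1) ≤ p1.eval (4 * (n + xs.length.size) + 1) :=
      eval_mono' p1 (by omega)
    have e6 : (p1.eval (4 * n + 1) + 1) * (p1.eval (4 * n + 1) + 1) ≤
        (p1.eval (4 * (n + xs.length.size) + 1) + 1) * (p1.eval (4 * (n + xs.length.size) + 1) + 1) :=
      Nat.mul_le_mul (by omega) (by omega)
    omega
  · intro n xs hne _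
    obtain ⟨n', G', k', h1, h2, -⟩ := hker _ (G (xs.map red)) (instK (xs.map red))
    have h3 : (∃ φ ∈ xs.map red, SAT3 φ) ↔ ∃ x ∈ xs, x ∉ L := by
      constructor
      · rintro ⟨φ, hφ, hs⟩
        obtain ⟨x, hx, rfl⟩ := List.mem_map.1 hφ
        exact ⟨x, hx, (hL' x).2 hs⟩
      · rintro ⟨x, hx, hxL⟩
        exact ⟨red x, List.mem_map_of_mem hx, (hL' x).1 hxL⟩
    rw [← h3, ← hiff _ (hnil xs hne), h2]
    change (∃ (m : ℕ) (G'' : SimpleGraph (Fin m)) (k : ℕ),
      f (code (G (xs.map red)) (instK (xs.map red))) = code G'' k ∧ Modifiable M F G'' k) ↔ _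
    rw [h1]
    constructor
    · rintro ⟨m, G'', k'', e1, e2⟩
      obtain ⟨e3, rfl⟩ := code_inj e1
      rw [Sigma.mk.inj_iff] at e3
      obtain ⟨rfl, e4⟩ := e3
      rw [eq_of_heq e4]
      exact e2
    · intro e
      exact ⟨n', G', k', rfl, e⟩

theorem incomp_C4 (M : Modification) (hM : M = .deletion ∨ M = .editing)
    (h : HasPolyKernel M {C4}) : CoNPSubsetNPPoly := by
  refine incomp_of M {C4} _ instG ?_ (fun fs hne => inst_iff M hM fs hne) h
  exact (poly_instM NPC.Poly.id).congr fun fs => (instG_matrix fs).symm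

theorem incomp_2K2 (M : Modification) (hM : M = .deletion ∨ M = .editing)
    (h : HasPolyKernel M.dual {TwoK2}) : CoNPSubsetNPPoly := by
  refine incomp_of M.dual {TwoK2} _ (fun fs => (instG fs)ᶜ) ?_
    (fun fs hne => ?_) h
  · exact (poly_instN NPC.Poly.id).congr fun fs => (instG_compl_matrix fs).symm
  · rw [modifiable_compl]
    exact inst_iff M hM fs hne

end Pool.Agent.P8H86.EM
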