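import Pool.Agent.P8H86.EM.PolyAlgo

/-!
# The kernel for `{C₄, 2K₂}`-free edge editing
-/

set_option autoImplicit false

namespace Pool.Agent.P8H86.EM

open Pool.Agent.NPC Pool.Agent.NPC.R671 Pool.Agent.H622R2

theorem decide_both : ∃ f : List Bool → List Bool, PolyTime f ∧
    ∀ (n : ℕ) (G : SimpleGraph (Fin n)) (k : ℕ),
      f (code G k) = [true] ↔ Modifiable .editing {C4, TwoK2} G k := by
  refine ⟨fun x => [decB x], polyTime_of_poly poly_decB, fun n G k => ?_⟩
  rw [← decB_code]
  simp

theorem yes_inst : Modifiable .editing {C4, TwoK2} (⊥ : SimpleGraph (Fin 0)) 0 := by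
  refine ⟨⊥, trivial, ?_, ?_⟩
  · rw [free_both]
    exact ⟨fun a => a.elim0, fun a => a.elim0⟩
  · rw [cost_eq]
    have : diff (⊥ : SimpleGraph (Fin 0)) ⊥ = ∅ := by
      unfold diff
      simp
    rw [this]
    simp

theorem no_inst : ¬ Modifiable .editing {C4, TwoK2} C4.2 0 := by
  rintro ⟨G', -, hF, hc⟩
  rw [cost_eq, Nat.le_zero, Set.ncard_eq_zero (diff_finite _ _)] at hc
  have : C4.2 = G' := by
    ext u v
    by_contra h
    have := (mem_diff C4.2 G' u v).2 h
    rw [hc] at this
    exact this
  rw [← this] at hF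
  exact (hF C4 (by simp)).false (SimpleGraph.Embedding.refl (G := C4.2))

theorem kernel_both : HasPolyKernel .editing {C4, TwoK2} := by
  refine ⟨fun x => bif decB x then code (⊥ : SimpleGraph (Fin 0)) 0 else code C4.2 0,
    Polynomial.C ((code (⊥ : SimpleGraph (Fin 0)) 0).length + (code C4.2 0).length), ?_, ?_⟩
  · exact polyTime_of_poly_list (Poly.cond poly_decB (NPC.Poly.const _) (NPC.Poly.const _))
  · intro n G k
    by_cases h : Modifiable .editing {C4, TwoK2} G k
    · refine ⟨0, ⊥, 0, ?_, ⟨fun _ => yes_inst, fun _ => h⟩, ?_⟩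
      · have := (decB_code G k).2 h
        simp only [this, cond_true]
      · rw [Polynomial.eval_C]; omega
    · refine ⟨4, C4.2, 0, ?_, ⟨fun h' => absurd h' h, fun h' => absurd h' no_inst⟩, ?_⟩
      · have : decB (code G k) = false := by
          rw [← Bool.not_eq_true, decB_code]; exact h
        simp only [this, cond_false]
        rfl
      · rw [Polynomial.eval_C]; exact Nat.le_add_left _ _

end Pool.Agent.P8H86.EM
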