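import Pool.Agent.P8H86.EM.Struct

/-!
# The cost of a class function, and the optimal class functions
-/

set_option autoImplicit false

namespace Pool.Agent.P8H86.EM

open Finset

/-- the contribution of a pair to the cost -/
def cp (a : ℕ → ℕ → Bool) (S : List ℕ) (K : ℕ → Bool) (u v : ℕ) : Bool :=
  !(decide (u = v)) && !(a u v == tgt (a u v) (clS S K u) (clS S K v))

/-- twice the cost -/
def mis (a : ℕ → ℕ → Bool) (n : ℕ) (S : List ℕ) (K : ℕ → Bool) : ℕ :=
  ∑ u ∈ range n, ∑ v ∈ range n, (cp a S K u v).toNat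

/-- the weight of a vertex -/
def wt (a : ℕ → ℕ → Bool) (n : ℕ) (S : List ℕ) (v : ℕ) : ℕ :=
  ∑ u ∈ range n, (a v u).toNat + ∑ u ∈ range n, (decide (u ∈ S) && a v u).toNat

theorem tgt_l5 (b : Bool) {i : ℕ} (h : i < 5) : tgt b i 5 = true := by simp [tgt, h]
theorem tgt_l6 (b : Bool) {i : ℕ} (h : i < 5) : tgt b i 6 = false := by simp [tgt, h]
theorem tgt_r5 (b : Bool) {i : ℕ} (h : i < 5) : tgt b 5 i = true := by simp [tgt, h]
theorem tgt_r6 (b : Bool) {i : ℕ} (h : i < 5) : tgt b 6 i = false := by simp [tgt, h]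

theorem cp_eq (a : ℕ → ℕ → Bool) (hsymm : ∀ u v, a u v = a v u) (hirr : ∀ u, a u u = false)
    (S : List ℕ) (hS : S.length ≤ 5) (K : ℕ → Bool) (u v : ℕ) :
    ((cp a S K u v).toNat : ℤ) = (cp a S (fun _ => false) u v).toNat +
      (decide (u ∈ S)).toNat * ((!decide (v ∈ S) && K v).toNat * (1 - 2 * (a v u).toNat)) +
      (decide (v ∈ S)).toNat * ((!decide (u ∈ S) && K u).toNat * (1 - 2 * (a u v).toNat)) +
      (!decide (u ∈ S) && K u).toNat * (!decide (v ∈ S) && K v).toNat -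
      (!decide (u ∈ S) && K u).toNat * ((1 - (decide (v ∈ S)).toNat) * (a u v).toNat) -
      (!decide (v ∈ S) && K v).toNat * ((1 - (decide (u ∈ S)).toNat) * (a v u).toNat) -
      (if u = v then (!decide (u ∈ S) && K u).toNat else 0) := by
  rw [hsymm v u]
  by_cases huv : u = v
  · subst huv
    rw [hirr]
    by_cases hu : u ∈ S <;> cases hK : K u <;> simp [cp, hu]
  · have e1 : ∀ w, w ∈ S → ∀ K' : ℕ → Bool, clS S K' w = S.idxOf w := by
      intro w hw K'
      simp [clS, hw]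
    have e2 : ∀ w, w ∈ S → S.idxOf w < 5 := fun w hw => by
      have := List.idxOf_lt_length_of_mem hw
      omega
    have e3 : ∀ w, w ∉ S → clS S (fun _ => false) w = 6 := by
      intro w hw
      simp [clS, hw]
    have e4 : ∀ w, w ∉ S → K w = true → clS S K w = 5 := by
      intro w hw hK
      simp [clS, hw, hK]
    have e5 : ∀ w, w ∉ S → K w = false → clS S K w = 6 := by
      intro w hw hK
      simp [clS, hw, hK]
    by_cases hu : u ∈ S <;> by_cases hv : v ∈ S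
    · simp [cp, huv, hu, hv, e1 u hu, e1 v hv]
    · cases hK : K v <;> cases hab : a u v
      · simp [cp, huv, hu, hv, e1 u hu, e3 v hv, e5 v hv hK, tgt_l6 _ (e2 u hu), hab]
      · simp [cp, huv, hu, hv, e1 u hu, e3 v hv, e5 v hv hK, tgt_l6 _ (e2 u hu), hab]
      · simp [cp, huv, hu, hv, e1 u hu, e3 v hv, e4 v hv hK, tgt_l6 _ (e2 u hu), tgt_l5 _ (e2 u hu), hab]
      · simp [cp, huv, hu, hv, e1 u hu, e3 v hv, e4 v hv hK, tgt_l6 _ (e2 u hu), tgt_l5 _ (e2 u hu), hab]
    · cases hK : K u <;> cases hab : a u v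
      · simp [cp, huv, hu, hv, e1 v hv, e3 u hu, e5 u hu hK, tgt_r6 _ (e2 v hv), hab]
      · simp [cp, huv, hu, hv, e1 v hv, e3 u hu, e5 u hu hK, tgt_r6 _ (e2 v hv), hab]
      · simp [cp, huv, hu, hv, e1 v hv, e3 u hu, e4 u hu hK, tgt_r6 _ (e2 v hv), tgt_r5 _ (e2 v hv), hab]
      · simp [cp, huv, hu, hv, e1 v hv, e3 u hu, e4 u hu hK, tgt_r6 _ (e2 v hv), tgt_r5 _ (e2 v hv), hab]
    · have t1 : ∀ b, tgt b 5 5 = true := fun b => rfl
      have t2 : ∀ b, tgt b 6 6 = false := fun b => rfl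
      have t3 : ∀ b, tgt b 5 6 = b := fun b => rfl
      have t4 : ∀ b, tgt b 6 5 = b := fun b => rfl
      cases hK : K u <;> cases hK' : K v <;> cases hab : a u v
      · simp [cp, huv, hu, hv, e3 u hu, e3 v hv, e5 u hu hK, e5 v hv hK', hab, t2]
      · simp [cp, huv, hu, hv, e3 u hu, e3 v hv, e5 u hu hK, e5 v hv hK', hab, t2]
      · simp [cp, huv, hu, hv, e3 u hu, e3 v hv, e5 u hu hK, e4 v hv hK', hab, t2, t4]
      · simp [cp, huv, hu, hv, e3 u hu, e3 v hv, e5 u hu hK, e4 v hv hK', hab, t2, t4]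
      · simp [cp, huv, hu, hv, e3 u hu, e3 v hv, e4 u hu hK, e5 v hv hK', hab, t2, t3]
      · simp [cp, huv, hu, hv, e3 u hu, e3 v hv, e4 u hu hK, e5 v hv hK', hab, t2, t3]
      · simp [cp, huv, hu, hv, e3 u hu, e3 v hv, e4 u hu hK, e4 v hv hK', hab, t2, t1]
      · simp [cp, huv, hu, hv, e3 u hu, e3 v hv, e4 u hu hK, e4 v hv hK', hab, t2, t1]

/-- the members of the clique -/
def mem (n : ℕ) (S : List ℕ) (K : ℕ → Bool) : Finset ℕ := (range n).filter fun v => v ∉ S ∧ K v = true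

theorem sum_mem (n : ℕ) (S : List ℕ) (K : ℕ → Bool) (f : ℕ → ℤ) :
    ∑ v ∈ range n, ((!decide (v ∈ S) && K v).toNat : ℤ) * f v = ∑ v ∈ mem n S K, f v := by
  unfold mem
  rw [sum_filter]
  refine sum_congr rfl fun v _ => ?_
  by_cases hv : v ∈ S <;> cases K v <;> simp [hv]

theorem mis_eq (a : ℕ → ℕ → Bool) (hsymm : ∀ u v, a u v = a v u) (hirr : ∀ u, a u u = false)
    (n : ℕ) (S : List ℕ) (hS : S.length ≤ 5) (K : ℕ → Bool) :
    (mis a n S K : ℤ) = mis a n S (fun _ => false) + (mem n S K).card * (mem n S K).card +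
      (2 * (∑ u ∈ range n, ((decide (u ∈ S)).toNat : ℤ)) - 1) * (mem n S K).card -
      2 * ∑ v ∈ mem n S K, (wt a n S v : ℤ) := by
  have h0 : (mis a n S K : ℤ) = ∑ u ∈ range n, ∑ v ∈ range n, ((cp a S K u v).toNat : ℤ) := by
    unfold mis; push_cast; rfl
  have h0' : (mis a n S (fun _ => false) : ℤ) =
      ∑ u ∈ range n, ∑ v ∈ range n, ((cp a S (fun _ => false) u v).toNat : ℤ) := by
    unfold mis; push_cast; rfl
  have hX : ∑ v ∈ range n, ((!decide (v ∈ S) && K v).toNat : ℤ) = (mem n S K).card := by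
    have := sum_mem n S K (fun _ => 1)
    simpa using this
  rw [h0, sum_congr rfl fun u _ => sum_congr rfl fun v _ => cp_eq a hsymm hirr S hS K u v]
  simp only [sum_add_distrib, sum_sub_distrib]
  rw [← h0']
  -- the first mixed sum
  have s1 : ∑ u ∈ range n, ∑ v ∈ range n, ((decide (u ∈ S)).toNat : ℤ) *
      ((!decide (v ∈ S) && K v).toNat * (1 - 2 * ((a v u).toNat : ℤ))) =
      ∑ v ∈ mem n S K, ∑ u ∈ range n, ((decide (u ∈ S)).toNat : ℤ) *
        (1 - 2 * ((a v u).toNat : ℤ)) := by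
    rw [sum_comm, ← sum_mem]
    refine sum_congr rfl fun v _ => ?_
    rw [mul_sum]
    refine sum_congr rfl fun u _ => ?_
    ring
  have s2 : ∑ u ∈ range n, ∑ v ∈ range n, ((decide (v ∈ S)).toNat : ℤ) *
      ((!decide (u ∈ S) && K u).toNat * (1 - 2 * ((a u v).toNat : ℤ))) =
      ∑ v ∈ mem n S K, ∑ u ∈ range n, ((decide (u ∈ S)).toNat : ℤ) *
        (1 - 2 * ((a v u).toNat : ℤ)) := by
    rw [← sum_mem]
    refine sum_congr rfl fun v _ => ?_
    rw [mul_sum]
    refine sum_congr rfl fun u _ => ?_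
    ring
  have s3 : ∑ u ∈ range n, ∑ v ∈ range n, ((!decide (u ∈ S) && K u).toNat : ℤ) *
      (!decide (v ∈ S) && K v).toNat = (mem n S K).card * (mem n S K).card := by
    rw [← sum_mul_sum, hX]
  have s4 : ∑ u ∈ range n, ∑ v ∈ range n, ((!decide (u ∈ S) && K u).toNat : ℤ) *
      ((1 - ((decide (v ∈ S)).toNat : ℤ)) * (a u v).toNat) =
      ∑ v ∈ mem n S K, ∑ u ∈ range n, (1 - ((decide (u ∈ S)).toNat : ℤ)) * (a v u).toNat := by
    rw [← sum_mem]
    refine sum_congr rfl fun v _ => ?_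
    rw [mul_sum]
  have s5 : ∑ u ∈ range n, ∑ v ∈ range n, ((!decide (v ∈ S) && K v).toNat : ℤ) *
      ((1 - ((decide (u ∈ S)).toNat : ℤ)) * (a v u).toNat) =
      ∑ v ∈ mem n S K, ∑ u ∈ range n, (1 - ((decide (u ∈ S)).toNat : ℤ)) * (a v u).toNat := by
    rw [sum_comm, ← sum_mem]
    refine sum_congr rfl fun v _ => ?_
    rw [mul_sum]
  have s6 : ∑ u ∈ range n, ∑ v ∈ range n, (((if u = v then (!decide (u ∈ S) && K u).toNat else 0 : ℕ)) : ℤ) =
      (mem n S K).card := by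
    rw [← hX]
    refine sum_congr rfl fun u hu => ?_
    rw [← Nat.cast_sum, sum_ite_eq, if_pos hu]
  have s6' : ∑ u ∈ range n, ∑ v ∈ range n, (if u = v then ((!decide (u ∈ S) && K u).toNat : ℤ) else 0) =
      (mem n S K).card := by
    rw [← hX]
    refine sum_congr rfl fun u hu => ?_
    rw [sum_ite_eq, if_pos hu]
  rw [s1, s2, s3, s4, s5]
  have hfin : 2 * ∑ v ∈ mem n S K, ∑ u ∈ range n, ((decide (u ∈ S)).toNat : ℤ) *
        (1 - 2 * ((a v u).toNat : ℤ)) - 2 * ∑ v ∈ mem n S K, ∑ u ∈ range n,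
          (1 - ((decide (u ∈ S)).toNat : ℤ)) * (a v u).toNat =
      2 * (∑ u ∈ range n, ((decide (u ∈ S)).toNat : ℤ)) * (mem n S K).card -
        2 * ∑ v ∈ mem n S K, (wt a n S v : ℤ) := by
    rw [mul_sum, mul_sum, ← sum_sub_distrib, mul_sum (mem n S K) _ (2 : ℤ)]
    have : 2 * (∑ u ∈ range n, ((decide (u ∈ S)).toNat : ℤ)) * ((mem n S K).card : ℤ) =
        ∑ v ∈ mem n S K, 2 * (∑ u ∈ range n, ((decide (u ∈ S)).toNat : ℤ)) := by
      rw [sum_const, nsmul_eq_mul]; ring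
    rw [this, ← sum_sub_distrib]
    refine sum_congr rfl fun v _ => ?_
    unfold wt
    push_cast
    rw [← sum_add_distrib, ← mul_sub, ← mul_sub, ← sum_sub_distrib, ← sum_sub_distrib]
    congr 1
    refine sum_congr rfl fun u _ => ?_
    by_cases hu : u ∈ S <;> cases a v u <;> simp [hu]
  have e := s6'
  try rw [s6']
  try rw [s6]
  linarith

/-- an initial segment of the linear order given by the weights -/
def seg (g : ℕ → ℕ) (p v : ℕ) : Bool := decide (g p < g v) || (decide (g p = g v) && decide (v ≤ p))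

theorem exists_top (R T : Finset ℕ) (hT : T ⊆ R) (hne : T.Nonempty) (g : ℕ → ℕ) :
    ∃ p ∈ R, (R.filter fun v => seg g p v = true).card = T.card ∧
      ∑ v ∈ T, g v ≤ ∑ v ∈ R.filter (fun v => seg g p v = true), g v := by
  let F : ℕ → Finset ℕ := fun p => R.filter fun v => seg g p v = true
  have hmem : ∀ p v, v ∈ F p ↔ v ∈ R ∧ (g p < g v ∨ (g p = g v ∧ v ≤ p)) := by
    intro p v
    simp [F, seg]
  have hself : ∀ p ∈ R, p ∈ F p := fun p hp => (hmem p p).2 ⟨hp, Or.inr ⟨rfl, le_rfl⟩⟩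
  have hlt : ∀ p ∈ R, ∀ q ∈ R, p ≠ q → p ∈ F q → (F p).card < (F q).card := by
    intro p hp q hq hpq hpF
    refine card_lt_card ?_
    rw [hmem] at hpF
    refine ⟨?_, ?_⟩
    · intro v hv
      rw [hmem] at hv ⊢
      refine ⟨hv.1, ?_⟩
      obtain ⟨-, h1⟩ := hpF
      obtain ⟨-, h2⟩ := hv
      omega
    · intro hsub
      have := hsub (hself q hq)
      rw [hmem] at this
      obtain ⟨-, h1⟩ := hpF
      obtain ⟨-, h2⟩ := this
      omega
  have hinj : Set.InjOn (fun p => (F p).card) (R : Set ℕ) := by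
    intro p hp q hq heq
    by_contra hpq
    have hor : p ∈ F q ∨ q ∈ F p := by
      rw [hmem, hmem]
      rcases lt_trichotomy (g p) (g q) with h | h | h
      · right; exact ⟨hq, Or.inl h⟩
      · rcases le_total p q with h' | h'
        · left; exact ⟨hp, Or.inr ⟨h.symm, h'⟩⟩
        · right; exact ⟨hq, Or.inr ⟨h, h'⟩⟩
      · left; exact ⟨hp, Or.inl h⟩
    have heq' : (F p).card = (F q).card := heq
    rcases hor with h | h
    · have := hlt p hp q hq hpq h
      omega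
    · have := hlt q hq p hp (Ne.symm hpq) h
      omega
  have himg : R.image (fun p => (F p).card) = Icc 1 R.card := by
    refine eq_of_subset_of_card_le ?_ ?_
    · intro m hm
      rw [mem_image] at hm
      obtain ⟨p, hp, rfl⟩ := hm
      rw [mem_Icc]
      exact ⟨card_pos.2 ⟨p, hself p hp⟩, card_le_card (filter_subset _ _)⟩
    · rw [card_image_of_injOn hinj, Nat.card_Icc]
      omega
  have hTm : T.card ∈ Icc 1 R.card := by
    rw [mem_Icc]
    exact ⟨card_pos.2 hne, card_le_card hT⟩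
  rw [← himg, mem_image] at hTm
  obtain ⟨p, hp, hcard⟩ := hTm
  refine ⟨p, hp, hcard, ?_⟩
  change ∑ v ∈ T, g v ≤ ∑ v ∈ F p, g v
  have h1 : ∑ v ∈ T \ F p, g v ≤ (T \ F p).card * g p := by
    rw [← smul_eq_mul]
    refine sum_le_card_nsmul _ _ _ fun v hv => ?_
    rw [mem_sdiff, hmem] at hv
    obtain ⟨h1, h2⟩ := hv
    by_contra h3
    exact h2 ⟨hT h1, Or.inl (by omega)⟩
  have h2 : (F p \ T).card * g p ≤ ∑ v ∈ F p \ T, g v := by
    rw [← smul_eq_mul]
    refine card_nsmul_le_sum _ _ _ fun v hv => ?_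
    rw [mem_sdiff, hmem] at hv
    omega
  have h3 : (T \ F p).card = (F p \ T).card := by
    have e1 := card_sdiff_add_card_inter T (F p)
    have e2 := card_sdiff_add_card_inter (F p) T
    rw [inter_comm] at e2
    have : (F p).card = T.card := hcard
    omega
  have e1 := sum_inter_add_sum_sdiff T (F p) g
  have e2 := sum_inter_add_sum_sdiff (F p) T g
  rw [inter_comm] at e2
  rw [h3] at h1
  omega

end Pool.Agent.P8H86.EM
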