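import Pool.Agent.P8H86.EM.Algo
import Pool.Agent.H671R2.Search
import Pool.Agent.NPC.Dec

/-!
# The decision procedure runs in polynomial time; the kernel
-/

set_option autoImplicit false

namespace Pool.Agent.P8H86.EM

open Pool.Agent.NPC Pool.Agent.NPC.R671 Pool.Agent.H622R2

variable {α : Type} [TEnc α]

theorem poly_entry {A : α → List (List Bool)} {i j : α → ℕ} (hA : Poly A) (hi : Poly i)
    (hj : Poly j) : Poly (fun a => entry (A a) (i a) (j a)) := by
  unfold entry
  exact NPC.Poly.getD (NPC.Poly.getD hA hi (NPC.Poly.const _)) hj (NPC.Poly.const _)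

theorem poly_idxOf {l : α → List ℕ} {v : α → ℕ} (hl : Poly l) (hv : Poly v) :
    Poly (fun a => (l a).idxOf (v a)) := by
  obtain ⟨r, hr⟩ := hl.sz_le
  have key : ∀ (w : ℕ) (L : List ℕ), L.foldr (fun x s => if x = w then 0 else s + 1) 0 = L.idxOf w := by
    intro w L
    induction L with
    | nil => rfl
    | cons x L ih =>
      rw [List.foldr_cons, ih, List.idxOf_cons]
      by_cases h : x = w
      · simp [h]
      · rw [if_neg h, beq_false_of_ne h]; rfl
  have hlen : ∀ (w : ℕ) (L : List ℕ), L.idxOf w ≤ L.length := fun w L => List.idxOf_le_length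
  refine (NPC.Poly.foldr (s := fun _ => 0) (F := fun a x s => if x = v a then 0 else s + 1) hl
    (NPC.Poly.const 0) ?_ (Polynomial.C 4 * r + Polynomial.C 1) ?_).congr fun a => key _ _
  · refine Poly.ite (p := fun p : α × ℕ × ℕ => p.2.1 = v p.1) ?_ (NPC.Poly.const 0) ?_
    · exact Poly.dec_eq (by fun_prop) (hv.comp (NPC.Poly.fst NPC.Poly.id))
    · fun_prop
  · intro a k hk
    rw [key]
    have h1 := hlen (v a) ((l a).drop k)
    have h2 := sz_nat_le (((l a).drop k).idxOf (v a))
    have h3 := NPC.Poly.size_le_self (((l a).drop k).idxOf (v a))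
    have h4 := length_lt_sz (l a)
    have h5 := hr a
    rw [List.length_drop] at h1
    simp only [Polynomial.eval_add, Polynomial.eval_mul, Polynomial.eval_C]
    omega

theorem poly_tgt {b : α → Bool} {i j : α → ℕ} (hb : Poly b) (hi : Poly i) (hj : Poly j) :
    Poly (fun a => tgt (b a) (i a) (j a)) := by
  have h5 : Poly (fun _ : α => 5) := NPC.Poly.const 5
  have h1 : Poly (fun a => decide ((i a + 1) % 5 = j a ∨ (j a + 1) % 5 = i a)) := by fun_prop
  have h2 : Poly (fun a => decide (j a = 5)) := by fun_prop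
  have h3 : Poly (fun a => decide (i a = 5)) := by fun_prop
  have h4 : Poly (fun a => decide (i a < 5)) := by fun_prop
  have h6 : Poly (fun a => decide (j a < 5)) := by fun_prop
  have h7 : Poly (fun a => decide (i a = j a)) := by fun_prop
  unfold tgt
  exact Poly.ite (p := fun a => i a < 5) h4 (Poly.ite (p := fun a => j a < 5) h6 h1 h2)
    (Poly.ite (p := fun a => j a < 5) h6 h3 (Poly.ite (p := fun a => i a = j a) h7 h3 hb))

theorem poly_clS {S : α → List ℕ} {K : α → ℕ → Bool} {v : α → ℕ} (hS : Poly S)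
    (hK : Poly (fun a => K a (v a))) (hv : Poly v) : Poly (fun a => clS (S a) (K a) (v a)) := by
  have h1 : Poly (fun a => decide (v a ∈ S a)) := Poly.dec_mem hv hS
  have h2 : Poly (fun a => decide (K a (v a) = true)) := hK.congr fun a => by simp
  unfold clS
  exact Poly.ite (p := fun a => v a ∈ S a) h1 (poly_idxOf hS hv)
    (Poly.ite (p := fun a => K a (v a) = true) h2 (NPC.Poly.const 5) (NPC.Poly.const 6))

theorem poly_cp {A : α → List (List Bool)} {S : α → List ℕ} {K : α → ℕ → Bool} {u v : α → ℕ}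
    (hA : Poly A) (hS : Poly S) (hKu : Poly (fun a => K a (u a))) (hKv : Poly (fun a => K a (v a)))
    (hu : Poly u) (hv : Poly v) :
    Poly (fun a => cp (entry (A a)) (S a) (K a) (u a) (v a)) := by
  have h1 := poly_entry hA hu hv
  have h2 := poly_tgt h1 (poly_clS hS hKu hu) (poly_clS hS hKv hv)
  unfold cp
  refine Poly.and (Poly.not (Poly.dec_eq hu hv)) (Poly.not ?_)
  exact (Poly.dec_eq h1 h2).congr fun a => by
    rw [Bool.eq_iff_iff]; simp

theorem poly_range {A : α → List (List Bool)} (hA : Poly A) :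
    Poly (fun a => List.range (A a).length) := (UPoly.length hA).range

theorem poly_wtL {A : α → List (List Bool)} {S : α → List ℕ} {v : α → ℕ} (hA : Poly A)
    (hS : Poly S) (hv : Poly v) : Poly (fun a => wtL (A a) (S a) (v a)) := by
  have hr := poly_range hA
  have hA' : Poly (fun p : α × ℕ => A p.1) := hA.comp (NPC.Poly.fst NPC.Poly.id)
  have hS' : Poly (fun p : α × ℕ => S p.1) := hS.comp (NPC.Poly.fst NPC.Poly.id)
  have hv' : Poly (fun p : α × ℕ => v p.1) := hv.comp (NPC.Poly.fst NPC.Poly.id)
  have hs : Poly (fun p : α × ℕ => p.2) := NPC.Poly.snd NPC.Poly.id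
  unfold wtL
  refine NPC.Poly.add (NPC.Poly.length (NPC.Poly.filter (p := fun a u => entry (A a) (v a) u) hr
    (poly_entry hA' hv' hs))) (NPC.Poly.length (NPC.Poly.filter
      (p := fun a u => decide (u ∈ S a) && entry (A a) (v a) u) hr ?_))
  exact Poly.and (Poly.dec_mem hs hS') (poly_entry hA' hv' hs)

theorem poly_seg {A : α → List (List Bool)} {S : α → List ℕ} {p v : α → ℕ} (hA : Poly A)
    (hS : Poly S) (hp : Poly p) (hv : Poly v) :
    Poly (fun a => seg (wtL (A a) (S a)) (p a) (v a)) := by
  have h1 := poly_wtL hA hS hp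
  have h2 := poly_wtL hA hS hv
  unfold seg
  fun_prop

theorem poly_selK {A : α → List (List Bool)} {S : α → List ℕ} {q : α → Option ℕ} {v : α → ℕ}
    (hA : Poly A) (hS : Poly S) (hq : Poly q) (hv : Poly v) :
    Poly (fun a => selK (wtL (A a) (S a)) (q a) (v a)) := by
  unfold selK
  refine Poly.optElim (h := fun a p => seg (wtL (A a) (S a)) p (v a)) hq (NPC.Poly.const _) ?_
  exact poly_seg (hA.comp (NPC.Poly.fst NPC.Poly.id)) (hS.comp (NPC.Poly.fst NPC.Poly.id))
    (NPC.Poly.snd NPC.Poly.id) (hv.comp (NPC.Poly.fst NPC.Poly.id))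

theorem poly_misL {A : α → List (List Bool)} {S : α → List ℕ} {q : α → Option ℕ} (hA : Poly A)
    (hS : Poly S) (hq : Poly q) : Poly (fun a => misL (A a) (S a) (q a)) := by
  have hr := poly_range hA
  have hA' : Poly (fun p : α × (ℕ × ℕ) => A p.1) := hA.comp (NPC.Poly.fst NPC.Poly.id)
  have hS' : Poly (fun p : α × (ℕ × ℕ) => S p.1) := hS.comp (NPC.Poly.fst NPC.Poly.id)
  have hq' : Poly (fun p : α × (ℕ × ℕ) => q p.1) := hq.comp (NPC.Poly.fst NPC.Poly.id)
  have h1 : Poly (fun p : α × (ℕ × ℕ) => p.2.1) := by fun_prop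
  have h2 : Poly (fun p : α × (ℕ × ℕ) => p.2.2) := by fun_prop
  unfold misL
  refine NPC.Poly.length (NPC.Poly.filter (p := fun a p =>
    cp (entry (A a)) (S a) (selK (wtL (A a) (S a)) (q a)) p.1 p.2) (poly_product hr hr) ?_)
  exact poly_cp (K := fun p : α × (ℕ × ℕ) => selK (wtL (A p.1) (S p.1)) (q p.1)) hA' hS'
    (poly_selK hA' hS' hq' h1) (poly_selK hA' hS' hq' h2) h1 h2

theorem poly_ext {R : α → List ℕ} {L : α → List (List ℕ)} (hR : Poly R) (hL : Poly L) :
    Poly (fun a => ext (R a) (L a)) := by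
  unfold ext
  refine NPC.Poly.flatMap (F := fun a S => (R a).map fun x => x :: S) hL ?_
  exact NPC.Poly.map (α := α × List ℕ) (l := fun p => R p.1) (F := fun p x => x :: p.2)
    (hR.comp (NPC.Poly.fst NPC.Poly.id)) (by fun_prop)

theorem poly_tuples {R : α → List ℕ} (hR : Poly R) : Poly (fun a => tuples (R a)) := by
  unfold tuples
  exact poly_ext hR (poly_ext hR (poly_ext hR (poly_ext hR (poly_ext hR (NPC.Poly.const _)))))

theorem poly_decA {A : α → List (List Bool)} {k : α → ℕ} (hA : Poly A) (hk : Poly k) :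
    Poly (fun a => decA (A a) (k a)) := by
  have hr := poly_range hA
  unfold decA
  refine NPC.Poly.any (p := fun a S => (none :: (List.range (A a).length).map some).any
    fun q => decide (misL (A a) S q ≤ 2 * k a)) (NPC.Poly.cons (NPC.Poly.const _) (poly_tuples hr)) ?_
  refine NPC.Poly.any (α := α × List ℕ)
    (l := fun p => (none :: (List.range (A p.1).length).map some : List (Option ℕ)))
    (p := fun p q => decide (misL (A p.1) p.2 q ≤ 2 * k p.1)) ?_ ?_
  · have h1 : Poly (fun p : α × List ℕ => List.range (A p.1).length) :=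
      hr.comp (NPC.Poly.fst NPC.Poly.id)
    exact NPC.Poly.cons (NPC.Poly.const _) (NPC.Poly.map (F := fun _ x => some x) h1
      (NPC.Poly.some (NPC.Poly.snd NPC.Poly.id)))
  · have h2 : Poly (fun p : (α × List ℕ) × Option ℕ => misL (A p.1.1) p.1.2 p.2) :=
      poly_misL (α := (α × List ℕ) × Option ℕ) (A := fun p => A p.1.1) (S := fun p => p.1.2)
        (q := fun p => p.2) (hA.comp (by fun_prop)) (by fun_prop) (by fun_prop)
    have h3 : Poly (fun p : (α × List ℕ) × Option ℕ => 2 * k p.1.1) :=
      NPC.Poly.mul (NPC.Poly.const 2) (hk.comp (by fun_prop))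
    exact NPC.Poly.decide_le h2 h3

/-- the decision procedure on codes -/
def decB (x : List Bool) : Bool :=
  match unbits (List (List Bool) × ℕ) x with
  | none => false
  | some p => decA p.1 p.2

theorem poly_decB : Poly decB :=
  (Poly.optCases (o := unbits (List (List Bool) × ℕ)) (g := fun _ => false)
    (h := fun _ p => decA p.1 p.2) poly_unbits (NPC.Poly.const _)
    (poly_decA (by fun_prop) (by fun_prop))).congr fun x => by
      unfold decB
      cases unbits (List (List Bool) × ℕ) x <;> rfl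

theorem decB_code {n : ℕ} (G : SimpleGraph (Fin n)) (k : ℕ) :
    decB (code G k) = true ↔ Modifiable .editing {C4, TwoK2} G k := by
  unfold decB code
  rw [unbits_bits]
  exact decA_iff G k

end Pool.Agent.P8H86.EM
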