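import Pool.Agent.P8H86.EM.Red
import Pool.Agent.H671R2.PolyAuto
import Pool.Agent.H671R2.CK.K7
import Pool.Agent.H671R2.CK.K13

/-!
# The instance is computed in polynomial time
-/

set_option autoImplicit false

namespace Pool.Agent.P8H86.EM

open Pool.Agent.NPC Pool.Agent.NPC.R671
open Pool.Agent.CK (Form maxLen upoly_maxLen upoly_size)

variable {α : Type} [TEnc α]

theorem poly_litAt {φ : α → Form} {n : α → ℕ} (hφ : Poly φ) (hn : Poly n) :
    Poly (fun a => litAt (φ a) (n a)) := by
  have h : Poly (fun a => (φ a).getD (n a / 3) ((true, 0), (true, 0), (true, 0))) :=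
    NPC.Poly.getD hφ (NPC.Poly.div hn (NPC.Poly.const 3)) (NPC.Poly.const _)
  unfold litAt
  refine Poly.ite (p := fun a => n a % 3 = 0) ?_ (Poly.fst h) (Poly.ite (p := fun a => n a % 3 = 1) ?_
    (Poly.fst (Poly.snd h)) (Poly.snd (Poly.snd h)))
  · exact Poly.dec_eq (NPC.Poly.mod hn (NPC.Poly.const 3)) (NPC.Poly.const 0)
  · exact Poly.dec_eq (NPC.Poly.mod hn (NPC.Poly.const 3)) (NPC.Poly.const 1)

theorem poly_conf {φ : α → Form} {p : α → ℕ × ℕ} (hφ : Poly φ) (hp : Poly p) :
    Poly (fun a => conf (φ a) (p a)) := by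
  have h1 := poly_litAt hφ (Poly.fst hp)
  have h2 := poly_litAt hφ (Poly.snd hp)
  unfold conf
  fun_prop

theorem poly_vcOf {φ : α → Form} (hφ : Poly φ) : Poly (fun a => vcOf (φ a)) := by
  have hl : UPoly (fun a => 3 * (φ a).length) := UPoly.mul (UPoly.const 3) (UPoly.length hφ)
  have hr : Poly (fun a => List.range (3 * (φ a).length)) := hl.range
  have hm : Poly (fun a => (φ a).length) := Poly.length hφ
  have hf : Poly (fun a => (List.range (3 * (φ a).length) ×ˢ List.range (3 * (φ a).length)).filter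
      (conf (φ a))) :=
    Poly.filter (p := fun a p => conf (φ a) p) (poly_product hr hr)
      (poly_conf (hφ.comp (Poly.fst NPC.Poly.id)) (Poly.snd NPC.Poly.id))
  unfold vcOf
  exact Poly.pair hl.toPoly (Poly.pair hf (NPC.Poly.mul (NPC.Poly.const 2) hm))

theorem poly_insts {fs : α → List Form} (hf : Poly fs) : Poly (fun a => insts (fs a)) := by
  unfold insts
  exact NPC.Poly.map (F := fun _ φ => vcOf φ) hf (poly_vcOf (Poly.snd NPC.Poly.id))

theorem upoly_bK {fs : α → List Form} (hf : Poly fs) : UPoly (fun a => bK (fs a)) :=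
  UPoly.mul (UPoly.const 20) (UPoly.mul (upoly_maxLen hf) (upoly_maxLen hf))

theorem upoly_budget {Is : α → List VC} {K : α → ℕ} (hI : Poly Is) (hK : UPoly K) :
    UPoly (fun a => budget (Is a) (K a)) :=
  UPoly.add (upoly_size (UPoly.mul (UPoly.const 2) (UPoly.length hI)).toPoly) hK

theorem poly_ins {Is : α → List VC} {v : α → ℕ} (hI : Poly Is) (hv : Poly v) :
    Poly (fun a => ins (Is a) (v a)) :=
  NPC.Poly.getD hI (NPC.Poly.sub hv (Poly.length hI)) (NPC.Poly.const _)

theorem upoly_slack {Is : α → List VC} {K v : α → ℕ} (hI : Poly Is) (hK : UPoly K) (hv : Poly v) :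
    UPoly (fun a => slack (Is a) (K a) (v a)) := by
  have hb := upoly_budget hI hK
  have hi := poly_ins hI hv
  have hs : Poly (fun a => (v a).size) := (upoly_size hv).toPoly
  refine UPoly.of_le ?_ hb (fun a => Nat.sub_le _ _)
  unfold slack
  have hb' := hb.toPoly
  fun_prop

theorem poly_up {Is : α → List VC} {x y : α → Lab} (hI : Poly Is) (hx : Poly x) (hy : Poly y) :
    Poly (fun a => up (Is a) (x a) (y a)) := by
  have hi := poly_ins hI (Poly.fst (Poly.snd hx))
  have hg : Poly (fun a => (ins (Is a) (x a).2.1).2.1.getD (x a).2.2 (0, 0)) :=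
    NPC.Poly.getD (Poly.fst (Poly.snd hi)) (Poly.snd (Poly.snd hx)) (NPC.Poly.const _)
  have h : Poly (fun a =>
      (decide ((x a).1 = 1) && (decide ((y a).1 = 1) && (decide ((x a).2.1 = (y a).2.1 / 2) &&
        decide ((x a).2.1 < (y a).2.1)))) ||
      ((decide ((x a).1 = 1) && (decide ((y a).1 = 2) && decide ((x a).2.1 = (y a).2.1))) ||
      ((decide ((x a).1 = 1) && (decide ((y a).1 = 5) && decide ((x a).2.1 = (y a).2.1))) ||
      ((decide ((x a).1 = 2) && (decide ((y a).1 = 3) && decide ((x a).2 = (y a).2))) ||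
      (decide ((x a).1 = 3) && (decide ((y a).1 = 4) && (decide ((x a).2.1 = (y a).2.1) &&
        (decide (((ins (Is a) (x a).2.1).2.1.getD (x a).2.2 (0, 0)).1 = (y a).2.2) ||
          decide (((ins (Is a) (x a).2.1).2.1.getD (x a).2.2 (0, 0)).2 = (y a).2.2))))))))) := by
    fun_prop
  refine h.congr fun a => ?_
  rw [Bool.eq_iff_iff, up_iff]
  simp only [Bool.or_eq_true, Bool.and_eq_true, decide_eq_true_eq]

theorem poly_ladj {Is : α → List VC} {x y : α → Lab} (hI : Poly Is) (hx : Poly x) (hy : Poly y) :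
    Poly (fun a => ladj (Is a) (x a) (y a)) :=
  Poly.or (poly_up hI hx hy) (poly_up hI hy hx)

theorem poly_ltyp {Is : α → List VC} {x : α → Lab} (hI : Poly Is) (hx : Poly x) :
    Poly (fun a => ltyp (Is a) (x a)) := by
  have hl := Poly.length hI
  have h : Poly (fun a => (decide ((x a).1 = 1) && decide ((Is a).length ≤ (x a).2.1)) ||
      (decide ((x a).1 = 2) || decide ((x a).1 = 4))) := by fun_prop
  refine h.congr fun a => ?_
  unfold ltyp
  rw [Bool.eq_iff_iff]
  simp only [Bool.or_eq_true, Bool.and_eq_true, decide_eq_true_eq]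

theorem ins_fst_le (fs : List Form) (v : ℕ) : (ins (insts fs) v).1 ≤ bK fs := by
  unfold ins
  rw [List.getD_eq_getElem?_getD]
  cases h : (insts fs)[v - (insts fs).length]? with
  | none => simp
  | some I =>
    obtain ⟨φ, hφ, rfl⟩ := List.mem_map.1 (List.mem_of_getElem? h)
    obtain ⟨h1, h2⟩ := maxLen_facts fs 1
    have h3 := h2 φ hφ
    change 3 * φ.length ≤ 20 * (maxLen fs * maxLen fs)
    have h4 : φ.length ≤ maxLen fs := h3
    have h5 : 1 ≤ maxLen fs := h1
    nlinarith

theorem poly_leafLabs {fs : α → List Form} {v : α → ℕ} (hf : Poly fs) (hv : Poly v) :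
    Poly (fun a => leafLabs (insts (fs a)) (bK (fs a)) (v a)) := by
  have hI := poly_insts hf
  have hK := upoly_bK hf
  have hi := poly_ins hI hv
  have h1 : Poly (fun a => List.range (ins (insts (fs a)) (v a)).2.1.length) :=
    (UPoly.length (Poly.fst (Poly.snd hi))).range
  have h2 : Poly (fun a => List.range (ins (insts (fs a)) (v a)).1) :=
    (UPoly.of_le (Poly.fst hi) hK (fun a => ins_fst_le _ _)).range
  have h3 : Poly (fun a => List.range (slack (insts (fs a)) (bK (fs a)) (v a))) :=
    (upoly_slack hI hK hv).range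
  have hv' : Poly (fun p : α × ℕ => v p.1) := hv.comp (Poly.fst NPC.Poly.id)
  have he : Poly (fun p : α × ℕ => p.2) := Poly.snd NPC.Poly.id
  unfold leafLabs
  refine Poly.append (NPC.Poly.map (F := fun a e => ((2, v a, e) : Lab)) h1 (by fun_prop))
    (Poly.append (NPC.Poly.map (F := fun a e => ((3, v a, e) : Lab)) h1 (by fun_prop))
      (Poly.append (NPC.Poly.map (F := fun a e => ((4, v a, e) : Lab)) h2 (by fun_prop))
        (NPC.Poly.map (F := fun a e => ((5, v a, e) : Lab)) h3 (by fun_prop))))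

theorem poly_labs {fs : α → List Form} (hf : Poly fs) :
    Poly (fun a => labs (insts (fs a)) (bK (fs a))) := by
  have hI := poly_insts hf
  have hl : UPoly (fun a => 2 * (insts (fs a)).length) := UPoly.mul (UPoly.const 2) (UPoly.length hI)
  have h1 : Poly (fun a => List.range (2 * (insts (fs a)).length - 1)) :=
    (UPoly.of_le (NPC.Poly.sub hl.toPoly (NPC.Poly.const 1)) hl (fun a => Nat.sub_le _ _)).range
  have h2 : Poly (fun a => List.range (insts (fs a)).length) := (UPoly.length hI).range
  have hlen : Poly (fun p : α × ℕ => (insts (fs p.1)).length) :=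
    (Poly.length hI).comp (Poly.fst NPC.Poly.id)
  unfold labs
  refine Poly.append (NPC.Poly.map (F := fun a v => ((1, v + 1, 0) : Lab)) h1 (by fun_prop)) ?_
  refine Poly.flatMap (F := fun a i => leafLabs (insts (fs a)) (bK (fs a))
    ((insts (fs a)).length + i)) h2 ?_
  exact poly_leafLabs (fs := fun p : α × ℕ => fs p.1) (hf.comp (Poly.fst NPC.Poly.id))
    (NPC.Poly.add hlen (Poly.snd NPC.Poly.id))

theorem poly_mad {ad : α → Lab → Lab → Bool} (had : Poly (fun p : α × (Lab × Lab) =>
    ad p.1 p.2.1 p.2.2)) {x y : α → Mn Lab} (hx : Poly x) (hy : Poly y) :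
    Poly (fun a => mad (ad a) lroot (x a) (y a)) := by
  have h : Poly (fun a => (x a).elim
      ((y a).elim false (fun w => w.2 || decide (w.1 ≠ lroot)))
      (fun v => (y a).elim (v.2 || decide (v.1 ≠ lroot))
        (fun w => cond v.2 (cond w.2 false (decide (v.1 = w.1)))
          (cond w.2 (decide (v.1 = w.1)) (ad a v.1 w.1))))) := by
    refine Poly.optElim hx ?_ ?_
    · refine Poly.optElim (h := fun _ w => w.2 || decide (w.1 ≠ lroot)) hy (NPC.Poly.const _) ?_
      fun_prop
    · refine Poly.optElim (α := α × (Lab × Bool))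
        (o := fun p => y p.1) (g := fun p => p.2.2 || decide (p.2.1 ≠ lroot))
        (h := fun p w => cond p.2.2 (cond w.2 false (decide (p.2.1 = w.1)))
          (cond w.2 (decide (p.2.1 = w.1)) (ad p.1 p.2.1 w.1)))
        (hy.comp (Poly.fst NPC.Poly.id)) ?_ ?_
      · fun_prop
      · have h1 : Poly (fun p : (α × (Lab × Bool)) × (Lab × Bool) => ad p.1.1 p.1.2.1 p.2.1) :=
          had.comp (f := fun p : (α × (Lab × Bool)) × (Lab × Bool) =>
            (p.1.1, (p.1.2.1, p.2.1))) (by fun_prop)
        exact Poly.cond (by fun_prop) (Poly.cond (by fun_prop) (NPC.Poly.const _) (by fun_prop))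
          (Poly.cond (by fun_prop) (by fun_prop) h1)
  refine h.congr fun a => ?_
  rcases x a with _ | ⟨v, _ | _⟩ <;> rcases y a with _ | ⟨w, _ | _⟩ <;> simp [mad]

theorem poly_fr {x y : α → Mn Lab} (hx : Poly x) (hy : Poly y) :
    Poly (fun a => fr lroot (x a) (y a)) := by
  have h : Poly (fun a => (x a).elim
      ((y a).elim false (fun w => w.2 || decide (w.1 = lroot)))
      (fun v => (y a).elim (v.2 || decide (v.1 = lroot))
        (fun w => decide (v ≠ w)))) := by
    refine Poly.optElim hx ?_ ?_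
    · refine Poly.optElim (h := fun _ w => w.2 || decide (w.1 = lroot)) hy (NPC.Poly.const _) ?_
      fun_prop
    · refine Poly.optElim (α := α × (Lab × Bool))
        (o := fun p => y p.1) (g := fun p => p.2.2 || decide (p.2.1 = lroot))
        (h := fun p w => decide (p.2 ≠ w))
        (hy.comp (Poly.fst NPC.Poly.id)) ?_ ?_
      · fun_prop
      · fun_prop
  refine h.congr fun a => ?_
  rcases x a with _ | ⟨v, _ | _⟩ <;> rcases y a with _ | ⟨w, _ | _⟩ <;> simp [fr]

/-- the data of a protecting vertex -/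
abbrev Pr : Type := (Mn Lab × Mn Lab) × (ℕ × Bool)

theorem poly_cad {ad : α → Lab → Lab → Bool} (had : Poly (fun p : α × (Lab × Lab) =>
    ad p.1 p.2.1 p.2.2)) {x y : α → Cd Lab} (hx : Poly x) (hy : Poly y) :
    Poly (fun a => cad (ad a) lroot (x a) (y a)) := by
  have had' : ∀ {β : Type} [TEnc β] {g : β → α}, Poly g → Poly (fun p : β × (Lab × Lab) =>
      ad (g p.1) p.2.1 p.2.2) := by
    intro β _ g hg
    exact had.comp (f := fun p : β × (Lab × Lab) => (g p.1, p.2)) (by fun_prop)
  -- main vertex and protecting vertex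
  have mix : ∀ {β : Type} [TEnc β] {g : β → α} {z : β → Mn Lab} {q : β → Pr}, Poly g → Poly z →
      Poly q → Poly (fun b => cond (mad (ad (g b)) lroot (q b).1.1 (q b).1.2)
        (decide (z b = (q b).1.1) || decide (z b = (q b).1.2))
        (decide (z b = cond (q b).2.2 (q b).1.2 (q b).1.1))) := by
    intro β _ g z q hg hz hq
    refine Poly.cond (poly_mad (ad := fun b => ad (g b)) (had' hg) (by fun_prop) (by fun_prop)) ?_ ?_
    · fun_prop
    · exact Poly.dec_eq hz (Poly.cond (by fun_prop) (by fun_prop) (by fun_prop))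
  have h : Poly (fun a => Sum.elim
      (fun u : Mn Lab => Sum.elim (fun w : Mn Lab => mad (ad a) lroot u w)
        (fun q : Pr => cond (mad (ad a) lroot q.1.1 q.1.2)
          (decide (u = q.1.1) || decide (u = q.1.2)) (decide (u = cond q.2.2 q.1.2 q.1.1))) (y a))
      (fun q : Pr => Sum.elim (fun w : Mn Lab => cond (mad (ad a) lroot q.1.1 q.1.2)
          (decide (w = q.1.1) || decide (w = q.1.2)) (decide (w = cond q.2.2 q.1.2 q.1.1)))
        (fun q' : Pr => decide (q.1 = q'.1) && (decide (q.2.1 = q'.2.1) &&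
          (decide (q.2.2 ≠ q'.2.2) && !(mad (ad a) lroot q.1.1 q.1.2)))) (y a)) (x a)) := by
    refine Poly.sumElim hx ?_ ?_
    · refine Poly.sumElim (α := α × Mn Lab) (o := fun p => y p.1)
        (g := fun p w => mad (ad p.1) lroot p.2 w)
        (h := fun p q => cond (mad (ad p.1) lroot q.1.1 q.1.2)
          (decide (p.2 = q.1.1) || decide (p.2 = q.1.2)) (decide (p.2 = cond q.2.2 q.1.2 q.1.1)))
        (hy.comp (Poly.fst NPC.Poly.id)) ?_ ?_
      · exact poly_mad (α := (α × Mn Lab) × Mn Lab) (ad := fun p => ad p.1.1)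
          (had' (g := fun p : (α × Mn Lab) × Mn Lab => p.1.1) (by fun_prop)) (by fun_prop)
          (by fun_prop)
      · exact mix (β := (α × Mn Lab) × Pr) (g := fun p => p.1.1) (z := fun p => p.1.2)
          (q := fun p => p.2) (by fun_prop) (by fun_prop) (by fun_prop)
    · refine Poly.sumElim (α := α × Pr) (o := fun p => y p.1)
        (g := fun p w => cond (mad (ad p.1) lroot p.2.1.1 p.2.1.2)
          (decide (w = p.2.1.1) || decide (w = p.2.1.2)) (decide (w = cond p.2.2.2 p.2.1.2 p.2.1.1)))
        (h := fun p q' => decide (p.2.1 = q'.1) && (decide (p.2.2.1 = q'.2.1) &&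
          (decide (p.2.2.2 ≠ q'.2.2) && !(mad (ad p.1) lroot p.2.1.1 p.2.1.2))))
        (hy.comp (Poly.fst NPC.Poly.id)) ?_ ?_
      · exact mix (β := (α × Pr) × Mn Lab) (g := fun p => p.1.1) (z := fun p => p.2)
          (q := fun p => p.1.2) (by fun_prop) (by fun_prop) (by fun_prop)
      · have h1 := poly_mad (α := (α × Pr) × Pr) (ad := fun p => ad p.1.1)
          (x := fun p => p.1.2.1.1) (y := fun p => p.1.2.1.2)
          (had' (g := fun p : (α × Pr) × Pr => p.1.1) (by fun_prop)) (by fun_prop) (by fun_prop)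
        fun_prop
  refine h.congr fun a => ?_
  rcases x a with u | ⟨⟨q1, q2⟩, ⟨i, b⟩⟩ <;> rcases y a with w | ⟨⟨q1', q2'⟩, ⟨i', b'⟩⟩
  · rfl
  · simp only [Sum.elim_inl, Sum.elim_inr, cad]
    cases mad (ad a) lroot q1' q2' <;> cases b' <;> rfl
  · simp only [Sum.elim_inl, Sum.elim_inr, cad]
    cases mad (ad a) lroot q1 q2 <;> cases b <;> rfl
  · rfl

theorem poly_instA {fs : α → List Form} {x y : α → Cd Lab} (hf : Poly fs) (hx : Poly x)
    (hy : Poly y) : Poly (fun a => instA (fs a) (x a) (y a)) := by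
  unfold instA
  refine poly_cad (ad := fun a => ladj (insts (fs a))) ?_ hx hy
  exact poly_ladj (α := α × (Lab × Lab)) (poly_insts (hf.comp (Poly.fst NPC.Poly.id)))
    (by fun_prop) (by fun_prop)

theorem upoly_instK {fs : α → List Form} (hf : Poly fs) : UPoly (fun a => instK (fs a)) :=
  upoly_budget (poly_insts hf) (upoly_bK hf)

theorem poly_mlist {fs : α → List Form} (hf : Poly fs) :
    Poly (fun a => mlist (labs (insts (fs a)) (bK (fs a))) (ltyp (insts (fs a)))) := by
  have h1 := poly_labs hf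
  have h2 : Poly (fun a => (labs (insts (fs a)) (bK (fs a))).filter (ltyp (insts (fs a)))) :=
    Poly.filter (p := fun a x => ltyp (insts (fs a)) x) h1
      (poly_ltyp (poly_insts (hf.comp (Poly.fst NPC.Poly.id))) (Poly.snd NPC.Poly.id))
  unfold mlist
  exact Poly.cons (NPC.Poly.const none) (Poly.append
    (NPC.Poly.map (F := fun _ v => (some (v, false) : Mn Lab)) h1 (by fun_prop))
    (NPC.Poly.map (F := fun _ v => (some (v, true) : Mn Lab)) h2 (by fun_prop)))

theorem poly_instV {fs : α → List Form} (hf : Poly fs) : Poly (fun a => instV (fs a)) := by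
  have hm := poly_mlist hf
  have hk := upoly_instK hf
  have hr : Poly (fun a => List.range (instK (fs a) + 1)) := (hk.add (UPoly.const 1)).range
  unfold instV clist
  refine Poly.append (NPC.Poly.map (F := fun _ x => (Sum.inl x : Cd Lab)) hm (by fun_prop)) ?_
  refine Poly.flatMap (F := fun a p => (List.range (instK (fs a) + 1)).flatMap fun i =>
    [(Sum.inr (p, (i, false)) : Cd Lab), Sum.inr (p, (i, true))]) ?_ ?_
  · exact Poly.filter (p := fun _ p => fr lroot p.1 p.2) (poly_product hm hm)
      (poly_fr (by fun_prop) (by fun_prop))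
  · refine Poly.flatMap (α := α × (Mn Lab × Mn Lab)) (l := fun q => List.range (instK (fs q.1) + 1))
      (F := fun q i => [(Sum.inr (q.2, (i, false)) : Cd Lab), Sum.inr (q.2, (i, true))])
      (hr.comp (Poly.fst NPC.Poly.id)) ?_
    exact Poly.cons (by fun_prop) (Poly.cons (by fun_prop) (NPC.Poly.const []))

theorem poly_instM {fs : α → List Form} (hf : Poly fs) : Poly (fun a => instM (fs a)) := by
  have hv := poly_instV hf
  unfold instM
  refine NPC.Poly.map (F := fun a x => (instV (fs a)).map fun y => instA (fs a) x y) hv ?_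
  refine NPC.Poly.map (α := α × Cd Lab) (l := fun p => instV (fs p.1))
    (F := fun p y => instA (fs p.1) p.2 y) (hv.comp (Poly.fst NPC.Poly.id)) ?_
  exact poly_instA (hf.comp (by fun_prop)) (by fun_prop) (by fun_prop)

theorem poly_instN {fs : α → List Form} (hf : Poly fs) : Poly (fun a => instN (fs a)) := by
  have hv := poly_instV hf
  unfold instN
  refine NPC.Poly.map (F := fun a x => (instV (fs a)).map fun y =>
    decide (x ≠ y) && !(instA (fs a) x y)) hv ?_
  refine NPC.Poly.map (α := α × Cd Lab) (l := fun p => instV (fs p.1))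
    (F := fun p y => decide (p.2 ≠ y) && !(instA (fs p.1) p.2 y))
    (hv.comp (Poly.fst NPC.Poly.id)) ?_
  have h1 : Poly (fun p : (α × Cd Lab) × Cd Lab => instA (fs p.1.1) p.1.2 p.2) :=
    poly_instA (hf.comp (by fun_prop)) (by fun_prop) (by fun_prop)
  have h2 : Poly (fun p : (α × Cd Lab) × Cd Lab => decide (p.1.2 ≠ p.2)) :=
    (Poly.not (Poly.dec_eq (f := fun p : (α × Cd Lab) × Cd Lab => p.1.2)
      (g := fun p => p.2) (by fun_prop) (by fun_prop))).congr fun p => by
        rw [← decide_not]
  exact Poly.and h2 (Poly.not h1)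

end Pool.Agent.P8H86.EM
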