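import Pool.Agent.P8H86.EM.Basic

/-!
# Graphs without induced `C₄` and `2K₂`
-/

set_option autoImplicit false

namespace Pool.Agent.P8H86.EM

variable {V : Type}

/-- the five vertices form an induced cycle -/
def IsC5 (G : SimpleGraph V) (a b c d e : V) : Prop :=
  (G.Adj a b ∧ G.Adj b c ∧ G.Adj c d ∧ G.Adj d e ∧ G.Adj e a) ∧
    (¬ G.Adj a c ∧ ¬ G.Adj a d ∧ ¬ G.Adj b d ∧ ¬ G.Adj b e ∧ ¬ G.Adj c e)

/-- the set is a clique -/
def IsClq (G : SimpleGraph V) (K : Finset V) : Prop := ∀ u ∈ K, ∀ v ∈ K, u ≠ v → G.Adj u v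

theorem no2K2 {G : SimpleGraph V} (h : ∀ a b c d, ¬ IsC4 Gᶜ a b c d) {a b c d : V}
    (hab : G.Adj a b) (hcd : G.Adj c d) (hac : ¬ G.Adj a c) (had : ¬ G.Adj a d)
    (hbc : ¬ G.Adj b c) (hbd : ¬ G.Adj b d) : False := by
  have n1 : a ≠ c := by rintro rfl; exact had hcd
  have n2 : c ≠ b := by rintro rfl; exact hbd hcd
  have n3 : b ≠ d := by rintro rfl; exact hbc hcd.symm
  have n4 : d ≠ a := by rintro rfl; exact hac hcd.symm
  refine h a c b d ⟨?_, ?_, ?_, ?_, hab.ne, ?_, hcd.ne, ?_⟩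
  · exact (SimpleGraph.compl_adj _ _ _).2 ⟨n1, hac⟩
  · exact (SimpleGraph.compl_adj _ _ _).2 ⟨n2, fun h => hbc h.symm⟩
  · exact (SimpleGraph.compl_adj _ _ _).2 ⟨n3, hbd⟩
  · exact (SimpleGraph.compl_adj _ _ _).2 ⟨n4, fun h => had h.symm⟩
  · rw [SimpleGraph.compl_adj]; exact fun h => h.2 hab
  · rw [SimpleGraph.compl_adj]; exact fun h => h.2 hcd

theorem noC4' {G : SimpleGraph V} (h : ∀ a b c d, ¬ IsC4 G a b c d) {a b c d : V}
    (hab : G.Adj a b) (hbc : G.Adj b c) (hcd : G.Adj c d) (hda : G.Adj d a) (n1 : a ≠ c)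
    (hac : ¬ G.Adj a c) (n2 : b ≠ d) (hbd : ¬ G.Adj b d) : False :=
  h a b c d ⟨hab, hbc, hcd, hda, n1, hac, n2, hbd⟩

/-- a graph without induced `C₄` and `2K₂` is a split graph or contains an induced `C₅` -/
theorem split_or_C5 [Fintype V] [DecidableEq V] (G : SimpleGraph V)
    (h4 : ∀ a b c d, ¬ IsC4 G a b c d) (h2 : ∀ a b c d, ¬ IsC4 Gᶜ a b c d) :
    (∃ K : Finset V, IsClq G K ∧ ∀ u ∉ K, ∀ v ∉ K, ¬ G.Adj u v) ∨
      ∃ a b c d e, IsC5 G a b c d e := by
  classical
  -- a maximum clique with the minimal number of edges outside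
  obtain ⟨K0, hK0, hmax0⟩ := Finset.exists_max_image
    ((Finset.univ : Finset (Finset V)).filter (IsClq G)) Finset.card
    ⟨∅, by rw [Finset.mem_filter]; exact ⟨Finset.mem_univ _, by simp [IsClq]⟩⟩
  rw [Finset.mem_filter] at hK0
  let E : Finset V → Finset (V × V) := fun K =>
    Finset.univ.filter (fun p => p.1 ∉ K ∧ p.2 ∉ K ∧ G.Adj p.1 p.2)
  obtain ⟨K, hK, hmin⟩ := Finset.exists_min_image
    ((Finset.univ : Finset (Finset V)).filter (fun K => IsClq G K ∧ K.card = K0.card))
    (fun K => (E K).card)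
    ⟨K0, by rw [Finset.mem_filter]; exact ⟨Finset.mem_univ _, hK0.2, rfl⟩⟩
  rw [Finset.mem_filter] at hK
  obtain ⟨-, hclq, hcard⟩ := hK
  have hmax : ∀ K' : Finset V, IsClq G K' → K'.card ≤ K.card := by
    intro K' hK'
    rw [hcard]
    exact hmax0 K' (by rw [Finset.mem_filter]; exact ⟨Finset.mem_univ _, hK'⟩)
  by_cases hind : ∀ u ∉ K, ∀ v ∉ K, ¬ G.Adj u v
  · exact Or.inl ⟨K, hclq, hind⟩
  right
  push Not at hind
  obtain ⟨x0, hx0, y0, hy0, hxy0⟩ := hind
  -- every vertex outside has a non-neighbour in the clique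
  have nonnb : ∀ x ∉ K, ∃ u ∈ K, ¬ G.Adj x u := by
    intro x hx
    by_contra hcon
    push Not at hcon
    have h1 : IsClq G (insert x K) := by
      intro u hu v hv huv
      rw [Finset.mem_insert] at hu hv
      rcases hu with rfl | hu <;> rcases hv with rfl | hv
      · exact absurd rfl huv
      · exact hcon v hv
      · exact (hcon u hu).symm
      · exact hclq u hu v hv huv
    have h3 := hmax _ h1
    rw [Finset.card_insert_of_notMem hx] at h3
    omega
  -- the non-neighbourhoods are comparable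
  have comp : ∀ x ∉ K, ∀ y ∉ K, G.Adj x y → (∀ u ∈ K, ¬ G.Adj x u → ¬ G.Adj y u) ∨
      ∀ u ∈ K, ¬ G.Adj y u → ¬ G.Adj x u := by
    intro x hx y hy hxy
    by_contra hcon
    push Not at hcon
    obtain ⟨⟨u, hu, hxu, hyu⟩, v, hv, hyv, hxv⟩ := hcon
    have huv : u ≠ v := by rintro rfl; exact hxu hxv
    refine noC4' h4 hxy hyu (hclq u hu v hv huv) hxv.symm ?_ hxu ?_ hyv
    · rintro rfl; exact hx hu
    · rintro rfl; exact hy hv
  obtain ⟨x, hx, y, hy, hxy, hsub⟩ : ∃ x, x ∉ K ∧ ∃ y, y ∉ K ∧ G.Adj x y ∧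
      ∀ u ∈ K, ¬ G.Adj x u → ¬ G.Adj y u := by
    rcases comp x0 hx0 y0 hy0 hxy0 with h | h
    · exact ⟨x0, hx0, y0, hy0, hxy0, h⟩
    · exact ⟨y0, hy0, x0, hx0, hxy0.symm, h⟩
  obtain ⟨u, hu, hxu⟩ := nonnb x hx
  have hyu := hsub u hu hxu
  have huniq : ∀ v ∈ K, ¬ G.Adj x v → v = u := by
    intro v hv hxv
    by_contra hne
    exact no2K2 h2 hxy (hclq u hu v hv (Ne.symm hne)) hxu hxv hyu (hsub v hv hxv)
  -- the clique with `x` in place of `u`
  have hK' : IsClq G (insert x (K.erase u)) := by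
    intro a ha b hb hab
    rw [Finset.mem_insert, Finset.mem_erase] at ha hb
    have key : ∀ c, c ≠ u → c ∈ K → G.Adj x c := by
      intro c h1 h3
      by_contra h5
      exact h1 (huniq c h3 h5)
    rcases ha with rfl | ⟨ha1, ha2⟩ <;> rcases hb with rfl | ⟨hb1, hb2⟩
    · exact absurd rfl hab
    · exact key b hb1 hb2
    · exact (key a ha1 ha2).symm
    · exact hclq a ha2 b hb2 hab
  have hxe : x ∉ K.erase u := fun h => hx (Finset.mem_of_mem_erase h)
  have hK'c : (insert x (K.erase u)).card = K.card := by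
    rw [Finset.card_insert_of_notMem hxe, Finset.card_erase_of_mem hu]
    have := Finset.card_pos.2 ⟨u, hu⟩
    omega
  obtain ⟨v, hv, hvu, hyv⟩ : ∃ v ∈ K, v ≠ u ∧ ¬ G.Adj y v := by
    by_contra hcon
    push Not at hcon
    have h1 : IsClq G (insert y (insert x (K.erase u))) := by
      intro a ha b hb hab
      rw [Finset.mem_insert] at ha hb
      have key : ∀ c ∈ insert x (K.erase u), G.Adj y c := by
        intro c hc
        rw [Finset.mem_insert, Finset.mem_erase] at hc
        rcases hc with rfl | ⟨h1, h3⟩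
        · exact hxy.symm
        · exact hcon c h3 h1
      rcases ha with rfl | ha <;> rcases hb with rfl | hb
      · exact absurd rfl hab
      · exact key b hb
      · exact (key a ha).symm
      · exact hK' a ha b hb hab
    have h3 := hmax _ h1
    rw [Finset.card_insert_of_notMem, hK'c] at h3
    · omega
    · rw [Finset.mem_insert, Finset.mem_erase, not_or]
      exact ⟨hxy.ne', fun h => hy h.2⟩
  have hxv : G.Adj x v := by
    by_contra h
    exact hvu (huniq v hv h)
  -- a neighbour of `u` outside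
  obtain ⟨z, hz, hzx, huz, hxz⟩ : ∃ z, z ∉ K ∧ z ≠ x ∧ G.Adj u z ∧ ¬ G.Adj x z := by
    by_contra hcon
    push Not at hcon
    have h1 := hmin (insert x (K.erase u)) (by
      rw [Finset.mem_filter]
      exact ⟨Finset.mem_univ _, hK', by rw [hK'c, hcard]⟩)
    let φ : V × V → V × V := fun p => (if p.1 = u then x else p.1, if p.2 = u then x else p.2)
    have hout : ∀ w, w ∉ insert x (K.erase u) → w ≠ x ∧ (w = u ∨ w ∉ K) := by
      intro w hw
      rw [Finset.mem_insert, Finset.mem_erase, not_or, not_and] at hw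
      refine ⟨hw.1, ?_⟩
      by_cases h : w = u
      · exact Or.inl h
      · exact Or.inr (hw.2 h)
    have h3 : (E (insert x (K.erase u))).card ≤ ((E K).erase (x, y)).card := by
      refine Finset.card_le_card_of_injOn φ ?_ ?_
      · rintro ⟨p, q⟩ hpq
        simp only [E, Finset.coe_filter, Finset.mem_univ, true_and, Set.mem_setOf_eq] at hpq
        obtain ⟨hp, hq, hadj⟩ := hpq
        obtain ⟨hp1, hp2⟩ := hout p hp
        obtain ⟨hq1, hq2⟩ := hout q hq
        rw [Finset.mem_coe, Finset.mem_erase]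
        simp only [φ, E, Finset.mem_filter, Finset.mem_univ, true_and]
        by_cases e1 : p = u <;> by_cases e2 : q = u
        · exact absurd (e1.trans e2.symm) hadj.ne
        · have hqK : q ∉ K := hq2.resolve_left e2
          rw [e1] at hadj
          rw [if_pos e1, if_neg e2]
          refine ⟨?_, hx, hqK, hcon q hqK hq1 hadj⟩
          intro h
          rw [Prod.mk.injEq] at h
          rw [h.2] at hadj
          exact hyu hadj.symm
        · have hpK : p ∉ K := hp2.resolve_left e1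
          rw [e2] at hadj
          rw [if_neg e1, if_pos e2]
          refine ⟨?_, hpK, hx, (hcon p hpK hp1 hadj.symm).symm⟩
          intro h
          rw [Prod.mk.injEq] at h
          exact hp1 h.1
        · have hqK : q ∉ K := hq2.resolve_left e2
          have hpK : p ∉ K := hp2.resolve_left e1
          rw [if_neg e1, if_neg e2]
          refine ⟨?_, hpK, hqK, hadj⟩
          intro h
          rw [Prod.mk.injEq] at h
          exact hp1 h.1
      · rintro ⟨p, q⟩ hpq ⟨p', q'⟩ hpq' heq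
        simp only [E, Finset.coe_filter, Finset.mem_univ, true_and, Set.mem_setOf_eq] at hpq hpq'
        obtain ⟨hp1, -⟩ := hout p hpq.1
        obtain ⟨hq1, -⟩ := hout q hpq.2.1
        obtain ⟨hp1', -⟩ := hout p' hpq'.1
        obtain ⟨hq1', -⟩ := hout q' hpq'.2.1
        simp only [φ, Prod.mk.injEq] at heq
        obtain ⟨e1, e2⟩ := heq
        have aux : ∀ a b : V, a ≠ x → b ≠ x → (if a = u then x else a) = (if b = u then x else b) →
            a = b := by
          intro a b ha hb h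
          by_cases h1 : a = u <;> by_cases h3 : b = u
          · rw [h1, h3]
          · rw [if_pos h1, if_neg h3] at h; exact absurd h.symm hb
          · rw [if_neg h1, if_pos h3] at h; exact absurd h ha
          · rw [if_neg h1, if_neg h3] at h; exact h
        rw [aux p p' hp1 hp1' e1, aux q q' hq1 hq1' e2]
    have h5 : (x, y) ∈ E K := by
      simp only [E, Finset.mem_filter, Finset.mem_univ, true_and]
      exact ⟨hx, hy, hxy⟩
    rw [Finset.card_erase_of_mem h5] at h3
    have h6 := Finset.card_pos.2 ⟨_, h5⟩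
    have h7 : (E K).card ≤ (E (insert x (K.erase u))).card := h1
    omega
  have hyz : G.Adj y z := by
    by_contra h
    exact no2K2 h2 hxy huz hxu hxz hyu h
  have hzv : ¬ G.Adj z v := by
    intro h
    refine noC4' h4 h hxv.symm hxy hyz hzx (fun h => hxz h.symm) ?_ (fun h => hyv h.symm)
    rintro rfl
    exact hy hv
  exact ⟨z, u, v, x, y, ⟨huz.symm, hclq u hu v hv (Ne.symm hvu), hxv.symm, hxy, hyz⟩,
    ⟨hzv, fun h => hxz h.symm, fun h => hxu h.symm, fun h => hyu h.symm, fun h => hyv h.symm⟩⟩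

/-- vertices outside an induced `C₅` are adjacent to all or none of its vertices -/
theorem all_or_none (G : SimpleGraph V)
    (h4 : ∀ a b c d, ¬ IsC4 G a b c d) (h2 : ∀ a b c d, ¬ IsC4 Gᶜ a b c d) {a b c d e : V}
    (h5 : IsC5 G a b c d e) {w : V} (ha : w ≠ a) (hb : w ≠ b) (hc : w ≠ c) (hd : w ≠ d)
    (he : w ≠ e) : (G.Adj w a ∧ G.Adj w b ∧ G.Adj w c ∧ G.Adj w d ∧ G.Adj w e) ∨
      (¬ G.Adj w a ∧ ¬ G.Adj w b ∧ ¬ G.Adj w c ∧ ¬ G.Adj w d ∧ ¬ G.Adj w e) := by
  obtain ⟨⟨ab, bc, cd, de, ea⟩, nac, nad, nbd, nbe, nce⟩ := h5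
  have dac : a ≠ c := by rintro rfl; exact nad cd
  have dad : a ≠ d := by rintro rfl; exact nac cd.symm
  have dbd : b ≠ d := by rintro rfl; exact nbe de
  have dbe : b ≠ e := by rintro rfl; exact nbd de.symm
  have dce : c ≠ e := by rintro rfl; exact nbe bc
  -- no C4
  have c1 : G.Adj w a → G.Adj w c → G.Adj w b := fun h1 h3 => by
    by_contra h; exact noC4' h4 h1 ab bc h3.symm hb h dac nac
  have c2 : G.Adj w b → G.Adj w d → G.Adj w c := fun h1 h3 => by
    by_contra h; exact noC4' h4 h1 bc cd h3.symm hc h dbd nbd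
  have c3 : G.Adj w c → G.Adj w e → G.Adj w d := fun h1 h3 => by
    by_contra h; exact noC4' h4 h1 cd de h3.symm hd h dce nce
  have c4 : G.Adj w d → G.Adj w a → G.Adj w e := fun h1 h3 => by
    by_contra h; exact noC4' h4 h1 de ea h3.symm he h dad.symm (fun h => nad h.symm)
  have c5 : G.Adj w e → G.Adj w b → G.Adj w a := fun h1 h3 => by
    by_contra h; exact noC4' h4 h1 ea ab h3.symm ha h dbe.symm (fun h => nbe h.symm)
  -- no 2K2
  have k1 : G.Adj w d → G.Adj w a ∨ G.Adj w b := fun h1 => by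
    by_contra h
    rw [not_or] at h
    exact no2K2 h2 h1 ab h.1 h.2 (fun h => nad h.symm) (fun h => nbd h.symm)
  have k2 : G.Adj w e → G.Adj w b ∨ G.Adj w c := fun h1 => by
    by_contra h
    rw [not_or] at h
    exact no2K2 h2 h1 bc h.1 h.2 (fun h => nbe h.symm) (fun h => nce h.symm)
  have k3 : G.Adj w a → G.Adj w c ∨ G.Adj w d := fun h1 => by
    by_contra h
    rw [not_or] at h
    exact no2K2 h2 h1 cd h.1 h.2 nac nad
  have k4 : G.Adj w b → G.Adj w d ∨ G.Adj w e := fun h1 => by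
    by_contra h
    rw [not_or] at h
    exact no2K2 h2 h1 de h.1 h.2 nbd nbe
  have k5 : G.Adj w c → G.Adj w e ∨ G.Adj w a := fun h1 => by
    by_contra h
    rw [not_or] at h
    exact no2K2 h2 h1 ea h.1 h.2 nce (fun h => nac h.symm)
  clear h4 h2
  by_cases A : G.Adj w a <;> by_cases B : G.Adj w b <;> by_cases C : G.Adj w c <;>
    by_cases D : G.Adj w d <;> by_cases E : G.Adj w e <;>
    simp only [A, B, C, D, E, forall_true_left, not_true_eq_false, not_false_eq_true, and_self,
      true_or, or_true, or_self, false_or, or_false, false_and, and_false, IsEmpty.forall_iff]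
      at c1 c2 c3 c4 c5 k1 k2 k3 k4 k5 ⊢

end Pool.Agent.P8H86.EM
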