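import Pool.Agent.P8H86.EM.TreeConv
import Pool.Agent.NPC.Sat2
import Pool.Agent.H671R2.CK.CDefs
import Pool.Agent.H671R2.GraphEnc

/-!
# From formulas to vertex covers, and the instance for a list of formulas
-/

set_option autoImplicit false

namespace Pool.Agent.P8H86.EM

open Pool.Agent.NPC Pool.Agent.NPC.R671
open Pool.Agent.CK (Form maxLen)

instance instDecEqCd {Λ : Type} [DecidableEq Λ] : DecidableEq (Cd Λ) :=
  @instDecidableEqSum (Mn Λ) ((Mn Λ × Mn Λ) × (ℕ × Bool)) inferInstance inferInstance

/-- the literal at position `a` of a formula -/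
def litAt (φ : Form) (a : ℕ) : Lit ℕ :=
  if a % 3 = 0 then (φ.getD (a / 3) ((true, 0), (true, 0), (true, 0))).1
  else if a % 3 = 1 then (φ.getD (a / 3) ((true, 0), (true, 0), (true, 0))).2.1
  else (φ.getD (a / 3) ((true, 0), (true, 0), (true, 0))).2.2

/-- two positions are in conflict -/
def conf (φ : Form) (p : ℕ × ℕ) : Bool :=
  decide (p.1 < p.2) && (decide (p.1 / 3 = p.2 / 3) ||
    (decide ((litAt φ p.1).2 = (litAt φ p.2).2) && decide ((litAt φ p.1).1 ≠ (litAt φ p.2).1)))

/-- the vertex cover instance of a formula -/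
def vcOf (φ : Form) : VC :=
  (3 * φ.length, (List.range (3 * φ.length) ×ˢ List.range (3 * φ.length)).filter (conf φ),
    2 * φ.length)

theorem conf_iff {φ : Form} {a b : ℕ} : conf φ (a, b) = true ↔ a < b ∧ (a / 3 = b / 3 ∨
    ((litAt φ a).2 = (litAt φ b).2 ∧ (litAt φ a).1 ≠ (litAt φ b).1)) := by
  unfold conf
  simp only [Bool.and_eq_true, Bool.or_eq_true, decide_eq_true_eq]

theorem mem_edges {φ : Form} {p : ℕ × ℕ} : p ∈ (vcOf φ).2.1 ↔
    p.1 < 3 * φ.length ∧ p.2 < 3 * φ.length ∧ conf φ p = true := by
  obtain ⟨a, b⟩ := p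
  unfold vcOf
  simp only [List.mem_filter, List.mem_product, List.mem_range, and_assoc]

theorem vcOf_ok (φ : Form) : VC.Ok (vcOf φ) := by
  refine ⟨?_, ?_⟩
  · exact (List.nodup_range.product List.nodup_range).filter _
  · intro p hp
    obtain ⟨h1, h2, h3⟩ := mem_edges.1 hp
    obtain ⟨a, b⟩ := p
    exact ⟨(conf_iff.1 h3).1, h2⟩

theorem vcOf_card (φ : Form) {M : ℕ} (h : φ.length ≤ M) (hM : 1 ≤ M) :
    2 * (vcOf φ).2.1.length + (vcOf φ).2.2 ≤ 20 * (M * M) := by
  have h1 : (vcOf φ).2.1.length ≤ (3 * φ.length) * (3 * φ.length) := by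
    unfold vcOf
    refine (List.length_filter_le _ _).trans ?_
    rw [List.length_product, List.length_range]
  have h2 : (vcOf φ).2.2 = 2 * φ.length := rfl
  rw [h2]
  nlinarith

theorem litAt_cases {φ : Form} {a : ℕ} (ha : a < 3 * φ.length) :
    ∃ c ∈ φ, φ[a / 3]? = some c ∧ ((a % 3 = 0 ∧ litAt φ a = c.1) ∨
      (a % 3 = 1 ∧ litAt φ a = c.2.1) ∨ (a % 3 = 2 ∧ litAt φ a = c.2.2)) := by
  have h1 : a / 3 < φ.length := by omega
  refine ⟨φ[a / 3], List.getElem_mem h1, List.getElem?_eq_getElem h1, ?_⟩
  unfold litAt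
  rw [List.getD_eq_getElem _ _ h1]
  have : a % 3 = 0 ∨ a % 3 = 1 ∨ a % 3 = 2 := by omega
  rcases this with h | h | h <;> simp [h]

/-- vertex covers and satisfying assignments -/
theorem vcOf_sat (φ : Form) : VC.Sat (vcOf φ) ↔ SAT3 φ := by
  classical
  constructor
  · rintro ⟨C, hC1, hC2, hC3⟩
    set R := Finset.range (3 * φ.length) \ C with hR
    have memR : ∀ a, a ∈ R ↔ a < 3 * φ.length ∧ a ∉ C := by
      intro a
      rw [hR, Finset.mem_sdiff, Finset.mem_range]
    have hRc : φ.length ≤ R.card := by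
      have h1 := Finset.le_card_sdiff C (Finset.range (3 * φ.length))
      rw [Finset.card_range, ← hR] at h1
      have h2 : C.card ≤ 2 * φ.length := hC2
      omega
    have noconf : ∀ a ∈ R, ∀ b ∈ R, ¬ conf φ (a, b) = true := by
      intro a ha b hb h
      rw [memR] at ha hb
      rcases hC3 (a, b) (mem_edges.2 ⟨ha.1, hb.1, h⟩) with h' | h'
      · exact ha.2 h'
      · exact hb.2 h'
    have noconf' : ∀ a ∈ R, ∀ b ∈ R, a ≠ b → a / 3 ≠ b / 3 ∧
        ¬ ((litAt φ a).2 = (litAt φ b).2 ∧ (litAt φ a).1 ≠ (litAt φ b).1) := by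
      intro a ha b hb hab
      rcases Nat.lt_or_ge a b with h | h
      · have h1 := noconf a ha b hb
        rw [conf_iff] at h1
        exact ⟨fun h' => h1 ⟨h, Or.inl h'⟩, fun h' => h1 ⟨h, Or.inr h'⟩⟩
      · have h0 : b < a := by omega
        have h1 := noconf b hb a ha
        rw [conf_iff] at h1
        exact ⟨fun h' => h1 ⟨h0, Or.inl h'.symm⟩,
          fun h' => h1 ⟨h0, Or.inr ⟨h'.1.symm, fun e => h'.2 e.symm⟩⟩⟩
    have hsurj : ∀ j < φ.length, ∃ a ∈ R, a / 3 = j := by
      have himg : R.image (fun a => a / 3) = Finset.range φ.length := by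
        refine Finset.eq_of_subset_of_card_le ?_ ?_
        · intro j hj
          rw [Finset.mem_image] at hj
          obtain ⟨a, ha, rfl⟩ := hj
          rw [memR] at ha
          rw [Finset.mem_range]
          omega
        · rw [Finset.card_range, Finset.card_image_of_injOn]
          · exact hRc
          · intro a ha b hb hab
            by_contra hne
            exact (noconf' a ha b hb hne).1 hab
      intro j hj
      rw [← Finset.mem_range, ← himg, Finset.mem_image] at hj
      exact hj
    refine ⟨fun x => decide (∃ a ∈ R, litAt φ a = (true, x)), ?_⟩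
    intro c hc
    obtain ⟨j, hj, hjc⟩ := List.getElem_of_mem hc
    obtain ⟨a, haR, haj⟩ := hsurj j hj
    have htrue : decide (∃ b ∈ R, litAt φ b = (true, (litAt φ a).2)) = (litAt φ a).1 := by
      cases h : (litAt φ a).1 with
      | true =>
        rw [decide_eq_true_iff]
        exact ⟨a, haR, Prod.ext h rfl⟩
      | false =>
        rw [decide_eq_false_iff_not]
        rintro ⟨b, hbR, hb⟩
        have hne : a ≠ b := by
          rintro rfl
          rw [hb] at h
          simp at h
        refine (noconf' a haR b hbR hne).2 ⟨?_, ?_⟩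
        · rw [hb]
        · rw [hb, h]; simp
    obtain ⟨c', -, hc', hcase⟩ := litAt_cases ((memR a).1 haR).1
    have : c' = c := by
      rw [haj, List.getElem?_eq_getElem hj, hjc] at hc'
      exact (Option.some.inj hc').symm
    subst this
    rcases hcase with ⟨-, h⟩ | ⟨-, h⟩ | ⟨-, h⟩
    · left; rw [h] at htrue; exact htrue
    · right; left; rw [h] at htrue; exact htrue
    · right; right; rw [h] at htrue; exact htrue
  · rintro ⟨τ, hτ⟩
    have hpos : ∀ j, ∃ i, i < 3 ∧ (j < φ.length → τ (litAt φ (3 * j + i)).2 = (litAt φ (3 * j + i)).1) := by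
      intro j
      by_cases hj : j < φ.length
      · have key : ∀ i < 3, ∃ c, c = φ[j] ∧ ((i = 0 ∧ litAt φ (3 * j + i) = c.1) ∨
            (i = 1 ∧ litAt φ (3 * j + i) = c.2.1) ∨ (i = 2 ∧ litAt φ (3 * j + i) = c.2.2)) := by
          intro i hi
          obtain ⟨c, -, h1, h2⟩ := litAt_cases (φ := φ) (a := 3 * j + i) (by omega)
          have e1 : (3 * j + i) / 3 = j := by omega
          have e2 : (3 * j + i) % 3 = i := by omega
          rw [e1, List.getElem?_eq_getElem hj] at h1
          rw [e2] at h2
          exact ⟨c, (Option.some.inj h1).symm, h2⟩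
        rcases hτ φ[j] (List.getElem_mem hj) with h | h | h
        · refine ⟨0, by omega, fun _ => ?_⟩
          obtain ⟨c, rfl, h2⟩ := key 0 (by omega)
          rcases h2 with ⟨-, h2⟩ | ⟨h0, -⟩ | ⟨h0, -⟩
          · rw [h2]; exact h
          · omega
          · omega
        · refine ⟨1, by omega, fun _ => ?_⟩
          obtain ⟨c, rfl, h2⟩ := key 1 (by omega)
          rcases h2 with ⟨h0, -⟩ | ⟨-, h2⟩ | ⟨h0, -⟩
          · omega
          · rw [h2]; exact h
          · omega
        · refine ⟨2, by omega, fun _ => ?_⟩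
          obtain ⟨c, rfl, h2⟩ := key 2 (by omega)
          rcases h2 with ⟨h0, -⟩ | ⟨h0, -⟩ | ⟨-, h2⟩
          · omega
          · omega
          · rw [h2]; exact h
      · exact ⟨0, by omega, fun h => absurd h hj⟩
    choose pos hp1 hp2 using hpos
    set R : Finset ℕ := (Finset.range φ.length).image (fun j => 3 * j + pos j) with hR
    have hRc : R.card = φ.length := by
      rw [hR, Finset.card_image_of_injOn, Finset.card_range]
      intro i _ j _ hij
      have h1 := hp1 i
      have h2 := hp1 j
      dsimp only at hij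
      omega
    have hRs : R ⊆ Finset.range (3 * φ.length) := by
      intro a ha
      rw [hR, Finset.mem_image] at ha
      obtain ⟨j, hj, rfl⟩ := ha
      rw [Finset.mem_range] at hj ⊢
      have := hp1 j
      omega
    refine ⟨Finset.range (3 * φ.length) \ R, ?_, ?_, ?_⟩
    · intro u hu
      rw [Finset.mem_sdiff, Finset.mem_range] at hu
      exact hu.1
    · rw [Finset.card_sdiff_of_subset hRs, hRc, Finset.card_range]
      change 3 * φ.length - φ.length ≤ 2 * φ.length
      omega
    · rintro ⟨a, b⟩ hp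
      obtain ⟨h1, h2, h3⟩ := mem_edges.1 hp
      dsimp only at h1 h2 ⊢
      by_contra hcon
      rw [not_or, Finset.mem_sdiff, Finset.mem_sdiff, Finset.mem_range, Finset.mem_range] at hcon
      have ha : a ∈ R := by by_contra h; exact hcon.1 ⟨h1, h⟩
      have hb : b ∈ R := by by_contra h; exact hcon.2 ⟨h2, h⟩
      rw [hR, Finset.mem_image] at ha hb
      obtain ⟨i, hi, rfl⟩ := ha
      obtain ⟨j, hj, rfl⟩ := hb
      rw [Finset.mem_range] at hi hj
      have e1 := hp1 i
      have e2 := hp1 j
      obtain ⟨h4, h5 | h5⟩ := conf_iff.1 h3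
      · have e3 : i = j := by omega
        subst e3
        omega
      · refine h5.2 ?_
        rw [← hp2 i hi, ← hp2 j hj, h5.1]

/-! ### The instance for a list of formulas -/

/-- the vertex cover instances -/
def insts (fs : List Form) : List VC := fs.map vcOf

/-- a bound -/
def bK (fs : List Form) : ℕ := 20 * (maxLen fs * maxLen fs)

/-- the parameter -/
def instK (fs : List Form) : ℕ := budget (insts fs) (bK fs)

/-- the vertices -/
def instV (fs : List Form) : List (Cd Lab) :=
  clist (labs (insts fs) (bK fs)) (ltyp (insts fs)) lroot (instK fs)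

/-- the adjacency -/
def instA (fs : List Form) : Cd Lab → Cd Lab → Bool := cad (ladj (insts fs)) lroot

/-- the matrix -/
def instM (fs : List Form) : List (List Bool) :=
  (instV fs).map fun a => (instV fs).map fun b => instA fs a b

/-- the matrix of the complement -/
def instN (fs : List Form) : List (List Bool) :=
  (instV fs).map fun a => (instV fs).map fun b => decide (a ≠ b) && !(instA fs a b)

/-- the graph -/
def instG (fs : List Form) : SimpleGraph (Fin (instV fs).length) :=
  listGraph (instV fs) (instA fs) (fun x y => cad_symm _ _ ladj_symm x y)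
    (fun x => cad_irrefl _ _ ladj_irrefl x)

theorem instG_matrix (fs : List Form) : adjMatrix (instG fs) = instM fs :=
  adjMatrix_listGraph _ _ _ _

theorem instV_nodup (fs : List Form) : (instV fs).Nodup := clist_nodup labs_nodup

theorem instG_compl_matrix (fs : List Form) : adjMatrix (instG fs)ᶜ = instN fs := by
  have h : (instG fs)ᶜ = listGraph (instV fs) (fun a b => decide (a ≠ b) && !(instA fs a b))
      (fun x y => by
        rw [show instA fs x y = instA fs y x from cad_symm _ _ ladj_symm x y]
        simp [eq_comm])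
      (fun x => by simp) := by
    ext i j
    rw [SimpleGraph.compl_adj]
    simp only [listGraph, instG, Bool.and_eq_true, decide_eq_true_eq, Bool.not_eq_true',
      Bool.not_eq_true]
    refine and_congr_left fun _ => not_congr ?_
    rw [Fin.getElem_fin, Fin.getElem_fin, (instV_nodup fs).getElem_inj_iff, Fin.ext_iff]
  rw [h]
  exact adjMatrix_listGraph _ _ _ _

theorem maxLen_facts (fs : List Form) : ∀ a : ℕ, a ≤ fs.foldl (fun a φ => max a φ.length) a ∧
    ∀ φ ∈ fs, φ.length ≤ fs.foldl (fun a φ => max a φ.length) a := by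
  induction fs with
  | nil => simp
  | cons φ fs ih =>
    intro a
    rw [List.foldl_cons]
    obtain ⟨h1, h2⟩ := ih (max a φ.length)
    refine ⟨(le_max_left _ _).trans h1, ?_⟩
    intro ψ hψ
    rcases List.mem_cons.1 hψ with rfl | hψ
    · exact (le_max_right _ _).trans h1
    · exact h2 ψ hψ

theorem inst_ok (fs : List Form) : ∀ I ∈ insts fs, VC.Ok I := by
  intro I hI
  obtain ⟨φ, -, rfl⟩ := List.mem_map.1 hI
  exact vcOf_ok φ

theorem inst_bound (fs : List Form) : ∀ I ∈ insts fs, 2 * I.2.1.length + I.2.2 ≤ bK fs := by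
  intro I hI
  obtain ⟨φ, hφ, rfl⟩ := List.mem_map.1 hI
  obtain ⟨h1, h2⟩ := maxLen_facts fs 1
  exact vcOf_card φ (h2 φ hφ) h1

/-- the graph is isomorphic to the protected graph -/
noncomputable def instIso (fs : List Form) (H : Good (labs (insts fs) (bK fs)) (ladj (insts fs)) lroot) :
    instG fs ≃g gam H (ltyp (insts fs)) (instK fs) where
  toEquiv := List.Nodup.getEquiv (instV fs) (instV_nodup fs)
  map_rel_iff' := by
    intro i j
    rw [gam_adj]
    rfl

/-- The answer for the instance. -/
theorem inst_iff (M : Modification) (hM : M = .deletion ∨ M = .editing) (fs : List Form)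
    (hne : fs ≠ []) : Modifiable M {C4} (instG fs) (instK fs) ↔ ∃ φ ∈ fs, SAT3 φ := by
  have hne' : insts fs ≠ [] := by
    unfold insts
    simpa using hne
  have H : Good (labs (insts fs) (bK fs)) (ladj (insts fs)) lroot := good (inst_ok fs) hne'
  rw [modifiable_iso (instIso fs H), gam_iff H M hM]
  change (∃ S : Finset Lab, S.card ≤ budget (insts fs) (bK fs) ∧ _) ↔ _
  rw [tree_iff (inst_ok fs) (inst_bound fs) hne']
  unfold insts
  constructor
  · rintro ⟨I, hI, h⟩
    obtain ⟨φ, hφ, rfl⟩ := List.mem_map.1 hI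
    exact ⟨φ, hφ, (vcOf_sat φ).1 h⟩
  · rintro ⟨φ, hφ, h⟩
    exact ⟨vcOf φ, List.mem_map_of_mem hφ, (vcOf_sat φ).2 h⟩

end Pool.Agent.P8H86.EM
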