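import Pool.Agent.P8H86.EM.Pseudo

/-!
# The structure of graphs without induced `C₄` and `2K₂`, and the editing cost
-/

set_option autoImplicit false

namespace Pool.Agent.P8H86.EM

/-- the adjacency of two vertices of the given classes: the classes `0, ..., 4` are the vertices of
a five-cycle, `5` is the clique and `6` the independent set -/
def tgt (a : Bool) (i j : ℕ) : Bool :=
  if i < 5 then
    if j < 5 then decide ((i + 1) % 5 = j ∨ (j + 1) % 5 = i) else decide (j = 5)
  else if j < 5 then decide (i = 5)
  else if i = j then decide (i = 5) else a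

theorem tgt_comm (a : Bool) (i j : ℕ) : tgt a i j = tgt a j i := by
  unfold tgt
  by_cases h1 : i < 5 <;> by_cases h2 : j < 5 <;> simp only [h1, h2, if_true, if_false]
  · congr 1
    rw [or_comm]
  · by_cases h : i = j
    · subst h; rfl
    · rw [if_neg h, if_neg (Ne.symm h)]

theorem tgt_mono (a : Bool) (i j : ℕ) (h : tgt a i j = true) : tgt true i j = true := by
  unfold tgt at *
  split_ifs at * <;> simp_all

theorem tgt_mono' (a : Bool) (i j : ℕ) (h : tgt a i j = false) : tgt false i j = false := by
  unfold tgt at *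
  split_ifs at * <;> simp_all

/-- the table, on finite types -/
def ft (a : Bool) (i j : Fin 7) : Bool := tgt a i.1 j.1

theorem table_C4 : ∀ i j k l : Fin 7, ¬ (ft true i j = true ∧ ft true j k = true ∧
    ft true k l = true ∧ ft true l i = true ∧ ft false i k = false ∧ ft false j l = false ∧
    (i = k → 5 ≤ i.1) ∧ (j = l → 5 ≤ j.1)) := by
  decide +kernel

theorem table_2K2 : ∀ i j k l : Fin 7, ¬ (ft false i j = false ∧ ft false j k = false ∧
    ft false k l = false ∧ ft false l i = false ∧ ft true i k = true ∧ ft true j l = true ∧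
    (i = j → 5 ≤ i.1) ∧ (j = k → 5 ≤ j.1) ∧ (k = l → 5 ≤ k.1) ∧ (l = i → 5 ≤ l.1)) := by
  decide +kernel

variable {V : Type}

open scoped Classical in
/-- the graph obtained from `G` and a class function -/
noncomputable def TG (G : SimpleGraph V) (cl : V → ℕ) : SimpleGraph V where
  Adj u v := u ≠ v ∧ tgt (decide (G.Adj u v)) (cl u) (cl v) = true
  symm := ⟨by
    rintro u v ⟨h1, h2⟩
    refine ⟨h1.symm, ?_⟩
    rw [tgt_comm, ← h2]
    congr 1
    rw [decide_eq_decide, SimpleGraph.adj_comm]⟩
  loopless := ⟨fun u h => h.1 rfl⟩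

theorem TG_free (G : SimpleGraph V) (cl : V → ℕ) (h6 : ∀ v, cl v ≤ 6)
    (hinj : ∀ u v, cl u = cl v → cl u < 5 → u = v) : Free {C4, TwoK2} (TG G cl) := by
  classical
  rw [free_both]
  have hadj : ∀ u v, (TG G cl).Adj u v → tgt true (cl u) (cl v) = true := fun u v h =>
    tgt_mono _ _ _ h.2
  have hnon : ∀ u v, u ≠ v → ¬ (TG G cl).Adj u v → tgt false (cl u) (cl v) = false := by
    intro u v h1 h2
    refine tgt_mono' (decide (G.Adj u v)) _ _ ?_
    rw [← Bool.not_eq_true]
    exact fun h => h2 ⟨h1, h⟩
  have hd : ∀ u v : V, u ≠ v → (cl u = cl v → 5 ≤ cl u) := by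
    intro u v h1 h2
    by_contra h3
    exact h1 (hinj u v h2 (by omega))
  let f : V → Fin 7 := fun v => ⟨cl v, by have := h6 v; omega⟩
  have hf : ∀ u v, f u = f v → cl u = cl v := fun u v h => congrArg Fin.val h
  constructor
  · rintro a b c d ⟨h1, h2, h3, h4, h5, h6, h7, h8⟩
    exact table_C4 (f a) (f b) (f c) (f d) ⟨hadj _ _ h1, hadj _ _ h2, hadj _ _ h3, hadj _ _ h4,
      hnon _ _ h5 h6, hnon _ _ h7 h8, fun h => hd _ _ h5 (hf _ _ h), fun h => hd _ _ h7 (hf _ _ h)⟩
  · rintro a b c d ⟨h1, h2, h3, h4, h5, h6, h7, h8⟩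
    rw [SimpleGraph.compl_adj] at h1 h2 h3 h4 h6 h8
    have e6 : (TG G cl).Adj a c := by
      by_contra h; exact h6 ⟨h5, h⟩
    have e8 : (TG G cl).Adj b d := by
      by_contra h; exact h8 ⟨h7, h⟩
    exact table_2K2 (f a) (f b) (f c) (f d) ⟨hnon _ _ h1.1 h1.2, hnon _ _ h2.1 h2.2,
      hnon _ _ h3.1 h3.2, hnon _ _ h4.1 h4.2, hadj _ _ e6, hadj _ _ e8,
      fun h => hd _ _ h1.1 (hf _ _ h), fun h => hd _ _ h2.1 (hf _ _ h),
      fun h => hd _ _ h3.1 (hf _ _ h), fun h => hd _ _ h4.1 (hf _ _ h)⟩

/-- the class function given by a list of vertices and a set of vertices -/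
def clS {V : Type} [DecidableEq V] (S : List V) (K : V → Bool) (v : V) : ℕ :=
  if v ∈ S then S.idxOf v else if K v then 5 else 6

theorem clS_le [DecidableEq V] {S : List V} (hS : S.length ≤ 5) (K : V → Bool) (v : V) :
    clS S K v ≤ 6 := by
  unfold clS
  split_ifs with h
  · have := List.idxOf_lt_length_of_mem h
    omega
  · omega
  · omega

theorem clS_inj [DecidableEq V] {S : List V} (K : V → Bool) (u v : V)
    (h : clS S K u = clS S K v) (h5 : clS S K u < 5) : u = v := by
  have aux : ∀ w, clS S K w < 5 → w ∈ S := by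
    intro w hw
    by_contra hn
    unfold clS at hw
    rw [if_neg hn] at hw
    split_ifs at hw <;> omega
  have hu := aux u h5
  have hv := aux v (h ▸ h5)
  unfold clS at h
  rw [if_pos hu, if_pos hv] at h
  exact (List.idxOf_inj hu).1 h

theorem fits_of_free [Fintype V] [DecidableEq V] (G : SimpleGraph V) (h : Free {C4, TwoK2} G) :
    ∃ (S : List V) (K : V → Bool), (S = [] ∨ S.length = 5) ∧
      ∀ u v, u ≠ v → ∀ a : Bool, (a = true ↔ G.Adj u v) → tgt a (clS S K u) (clS S K v) = a := by
  classical
  rw [free_both] at h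
  obtain ⟨h4, h2⟩ := h
  rcases split_or_C5 G h4 h2 with ⟨K, hK, hI⟩ | ⟨a, b, c, d, e, h5⟩
  · refine ⟨[], fun v => decide (v ∈ K), Or.inl rfl, fun u v huv a ha => ?_⟩
    have e1 : ∀ w, clS [] (fun v => decide (v ∈ K)) w = if w ∈ K then 5 else 6 := by
      intro w; simp [clS]
    rw [e1, e1]
    by_cases hu : u ∈ K <;> by_cases hv : v ∈ K
    · rw [if_pos hu, if_pos hv, ha.2 (hK u hu v hv huv)]; rfl
    · rw [if_pos hu, if_neg hv]; rfl
    · rw [if_neg hu, if_pos hv]; rfl
    · have : a = false := by
        rw [← Bool.not_eq_true, ha]; exact hI u hu v hv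
      rw [if_neg hu, if_neg hv, this]; rfl
  · have h5' := h5
    obtain ⟨⟨ab, bc, cd, de, ea⟩, nac, nad, nbd, nbe, nce⟩ := h5
    have dac : a ≠ c := by rintro rfl; exact nad cd
    have dad : a ≠ d := by rintro rfl; exact nac cd.symm
    have dbd : b ≠ d := by rintro rfl; exact nbe de
    have dbe : b ≠ e := by rintro rfl; exact nbd de.symm
    have dce : c ≠ e := by rintro rfl; exact nbe bc
    have dab := ab.ne
    have dbc := bc.ne
    have dcd := cd.ne
    have dde := de.ne
    have dea := ea.ne
    let K : V → Bool := fun v => decide (G.Adj v a)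
    have ia : clS [a, b, c, d, e] K a = 0 := by simp [clS]
    have ib : clS [a, b, c, d, e] K b = 1 := by simp [clS, List.idxOf_cons, dab, dab.symm]
    have ic : clS [a, b, c, d, e] K c = 2 := by
      simp [clS, List.idxOf_cons, dac, dbc, dac.symm, dbc.symm]
    have id : clS [a, b, c, d, e] K d = 3 := by
      simp [clS, List.idxOf_cons, dad, dbd, dcd]
    have ie : clS [a, b, c, d, e] K e = 4 := by
      simp [clS, List.idxOf_cons, dea.symm, dbe, dce, dde]
    have iK : ∀ w, w ∉ [a, b, c, d, e] → G.Adj w a → clS [a, b, c, d, e] K w = 5 := by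
      intro w hw hwa
      unfold clS
      rw [if_neg hw]
      simp [K, hwa]
    have iI : ∀ w, w ∉ [a, b, c, d, e] → ¬ G.Adj w a → clS [a, b, c, d, e] K w = 6 := by
      intro w hw hwa
      unfold clS
      rw [if_neg hw]
      simp [K, hwa]
    have hall : ∀ w, w ∉ [a, b, c, d, e] → G.Adj w a → ∀ x ∈ [a, b, c, d, e], G.Adj w x := by
      intro w hw hwa x hx
      simp only [List.mem_cons, List.not_mem_nil, or_false, not_or] at hw hx
      rcases all_or_none G h4 h2 h5' hw.1 hw.2.1 hw.2.2.1 hw.2.2.2.1 hw.2.2.2.2 with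
        ⟨p1, p2, p3, p4, p5⟩ | ⟨p1, -⟩
      · rcases hx with rfl | rfl | rfl | rfl | rfl <;> assumption
      · exact absurd hwa p1
    have hnone : ∀ w, w ∉ [a, b, c, d, e] → ¬ G.Adj w a → ∀ x ∈ [a, b, c, d, e], ¬ G.Adj w x := by
      intro w hw hwa x hx
      simp only [List.mem_cons, List.not_mem_nil, or_false, not_or] at hw hx
      rcases all_or_none G h4 h2 h5' hw.1 hw.2.1 hw.2.2.1 hw.2.2.2.1 hw.2.2.2.2 with
        ⟨p1, -⟩ | ⟨p1, p2, p3, p4, p5⟩
      · exact absurd p1 hwa
      · rcases hx with rfl | rfl | rfl | rfl | rfl <;> assumption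
    -- a symmetric statement
    have main : ∀ u v, u ≠ v → (u ∈ [a, b, c, d, e] ∨ v ∉ [a, b, c, d, e]) →
        (G.Adj u v ∧ tgt true (clS [a, b, c, d, e] K u) (clS [a, b, c, d, e] K v) = true) ∨
        (¬ G.Adj u v ∧ tgt false (clS [a, b, c, d, e] K u) (clS [a, b, c, d, e] K v) = false) := by
      intro u v huv hor
      by_cases hv : v ∈ [a, b, c, d, e]
      · have hu : u ∈ [a, b, c, d, e] := hor.resolve_right (fun h => h hv)
        simp only [List.mem_cons, List.not_mem_nil, or_false] at hu hv
        have sab := ab.symm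
        have sbc := bc.symm
        have scd := cd.symm
        have sde := de.symm
        have sea := ea.symm
        have mac : ¬ G.Adj c a := fun h => nac h.symm
        have mad : ¬ G.Adj d a := fun h => nad h.symm
        have mbd : ¬ G.Adj d b := fun h => nbd h.symm
        have mbe : ¬ G.Adj e b := fun h => nbe h.symm
        have mce : ¬ G.Adj e c := fun h => nce h.symm
        rcases hu with rfl | rfl | rfl | rfl | rfl <;> rcases hv with rfl | rfl | rfl | rfl | rfl <;>
          first
          | exact absurd rfl huv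
          | (left; refine ⟨by assumption, ?_⟩; simp only [ia, ib, ic, id, ie]; decide)
          | (right; refine ⟨by assumption, ?_⟩; simp only [ia, ib, ic, id, ie]; decide)
      · by_cases hu : u ∈ [a, b, c, d, e]
        · have hlt : clS [a, b, c, d, e] K u < 5 := by
            simp only [List.mem_cons, List.not_mem_nil, or_false] at hu
            rcases hu with rfl | rfl | rfl | rfl | rfl
            · rw [ia]; decide
            · rw [ib]; decide
            · rw [ic]; decide
            · rw [id]; decide
            · rw [ie]; decide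
          by_cases hva : G.Adj v a
          · left
            refine ⟨(hall v hv hva u hu).symm, ?_⟩
            rw [iK v hv hva]
            unfold tgt
            rw [if_pos hlt]; rfl
          · right
            refine ⟨fun h => hnone v hv hva u hu h.symm, ?_⟩
            rw [iI v hv hva]
            unfold tgt
            rw [if_pos hlt]; rfl
        · by_cases hua : G.Adj u a <;> by_cases hva : G.Adj v a
          · left
            refine ⟨?_, by rw [iK u hu hua, iK v hv hva]; rfl⟩
            by_contra hn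
            exact noC4' h4 hua.symm.symm (hall v hv hva a (by simp)).symm
              (hall v hv hva c (by simp)) (hall u hu hua c (by simp)).symm huv hn dac nac
          · by_cases hg : G.Adj u v
            · left; refine ⟨hg, ?_⟩; rw [iK u hu hua, iI v hv hva]; rfl
            · right; refine ⟨hg, ?_⟩; rw [iK u hu hua, iI v hv hva]; rfl
          · by_cases hg : G.Adj u v
            · left; refine ⟨hg, ?_⟩; rw [iI u hu hua, iK v hv hva]; rfl
            · right; refine ⟨hg, ?_⟩; rw [iI u hu hua, iK v hv hva]; rfl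
          · right
            refine ⟨?_, by rw [iI u hu hua, iI v hv hva]; rfl⟩
            intro hg
            exact no2K2 h2 hg ab (hnone u hu hua a (by simp)) (hnone u hu hua b (by simp))
              (hnone v hv hva a (by simp)) (hnone v hv hva b (by simp))
    refine ⟨[a, b, c, d, e], K, Or.inr rfl, fun u v huv x hx => ?_⟩
    have key : (G.Adj u v ∧ tgt true (clS [a, b, c, d, e] K u) (clS [a, b, c, d, e] K v) = true) ∨
        (¬ G.Adj u v ∧ tgt false (clS [a, b, c, d, e] K u) (clS [a, b, c, d, e] K v) = false) := by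
      by_cases h : u ∈ [a, b, c, d, e] ∨ v ∉ [a, b, c, d, e]
      · exact main u v huv h
      · rw [not_or, not_not] at h
        have := main v u huv.symm (Or.inl h.2)
        rw [tgt_comm, G.adj_comm, tgt_comm false] at this
        exact this
    rcases key with ⟨k1, k2⟩ | ⟨k1, k2⟩
    · rw [hx.2 k1]; exact k2
    · have : x = false := by rw [← Bool.not_eq_true, hx]; exact k1
      rw [this]; exact k2

theorem tgt_congr {a b : Bool} {i j : ℕ} (h : tgt a i j ≠ a) : tgt b i j = tgt a i j := by
  unfold tgt at *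
  split_ifs at * <;> simp_all

theorem diff_TG [DecidableEq V] (G G' : SimpleGraph V) (cl : V → ℕ)
    (h : ∀ u v, u ≠ v → ∀ a : Bool, (a = true ↔ G'.Adj u v) → tgt a (cl u) (cl v) = a) :
    diff G (TG G cl) ⊆ diff G G' := by
  classical
  intro e
  induction e using Sym2.ind with
  | _ u v =>
    intro he
    rw [mem_diff] at he ⊢
    intro hn
    apply he
    by_cases huv : u = v
    · subst huv; simp
    · have h1 := h u v huv (decide (G'.Adj u v)) (by simp)
      have h3 : decide (G'.Adj u v) = decide (G.Adj u v) := by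
        rw [decide_eq_decide]; exact hn.symm
      rw [h3] at h1
      change G.Adj u v ↔ (u ≠ v ∧ _)
      rw [h1]
      simp [huv]

theorem diff_finite [Finite V] (G G' : SimpleGraph V) : (diff G G').Finite := Set.toFinite _

/-- the problem, in terms of class functions -/
theorem modifiable_both [Fintype V] [DecidableEq V] (G : SimpleGraph V) (k : ℕ) :
    Modifiable .editing {C4, TwoK2} G k ↔ ∃ (S : List V) (K : V → Bool),
      (S = [] ∨ S.length = 5) ∧ cost G (TG G (clS S K)) ≤ k := by
  constructor
  · rintro ⟨G', -, hF, hc⟩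
    obtain ⟨S, K, hS, hfit⟩ := fits_of_free G' hF
    refine ⟨S, K, hS, le_trans ?_ hc⟩
    rw [cost_eq, cost_eq]
    exact Set.ncard_le_ncard (diff_TG G G' _ hfit) (diff_finite _ _)
  · rintro ⟨S, K, hS, hc⟩
    refine ⟨TG G (clS S K), trivial, TG_free G _ (clS_le ?_ K) (clS_inj K), hc⟩
    rcases hS with rfl | hS
    · simp
    · omega

end Pool.Agent.P8H86.EM
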