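import Pool.Agent.P8H86.EM.GammaConv

/-!
# The base graph: a selection tree with vertex cover instances at its leaves
-/

set_option autoImplicit false

namespace Pool.Agent.P8H86.EM

/-- labels of the vertices of the base graph -/
abbrev Lab : Type := ℕ × ℕ × ℕ

/-- instances of vertex cover: the number of vertices, the list of the edges, the bound -/
abbrev VC : Type := ℕ × List (ℕ × ℕ) × ℕ

/-- well formed instances -/
def VC.Ok (I : VC) : Prop := I.2.1.Nodup ∧ ∀ p ∈ I.2.1, p.1 < p.2 ∧ p.2 < I.1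

/-- there is a vertex cover -/
def VC.Sat (I : VC) : Prop := ∃ C : Finset ℕ, (∀ u ∈ C, u < I.1) ∧ C.card ≤ I.2.2 ∧
  ∀ p ∈ I.2.1, p.1 ∈ C ∨ p.2 ∈ C

/-- the instance at the leaf `v` -/
def ins (Is : List VC) (v : ℕ) : VC := Is.getD (v - Is.length) (0, [], 0)

/-- adjacency, from the root towards the instances -/
def up (Is : List VC) (x y : Lab) : Bool :=
  decide ((x.1 = 1 ∧ y.1 = 1 ∧ x.2.1 = y.2.1 / 2 ∧ x.2.1 < y.2.1) ∨
    (x.1 = 1 ∧ y.1 = 2 ∧ x.2.1 = y.2.1) ∨ (x.1 = 1 ∧ y.1 = 5 ∧ x.2.1 = y.2.1) ∨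
    (x.1 = 2 ∧ y.1 = 3 ∧ x.2 = y.2) ∨
    (x.1 = 3 ∧ y.1 = 4 ∧ x.2.1 = y.2.1 ∧
      (((ins Is x.2.1).2.1.getD x.2.2 (0, 0)).1 = y.2.2 ∨
        ((ins Is x.2.1).2.1.getD x.2.2 (0, 0)).2 = y.2.2)))

/-- adjacency in the base graph -/
def ladj (Is : List VC) (x y : Lab) : Bool := up Is x y || up Is y x

/-- the vertices which propagate to all neighbours -/
def ltyp (Is : List VC) (x : Lab) : Bool :=
  decide ((x.1 = 1 ∧ Is.length ≤ x.2.1) ∨ x.1 = 2 ∨ x.1 = 4)

/-- the root -/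
def lroot : Lab := (1, 1, 0)

/-- the bound for the size of a closed set -/
def budget (Is : List VC) (K : ℕ) : ℕ := (2 * Is.length).size + K

/-- the number of dummy vertices at the leaf `v` -/
def slack (Is : List VC) (K v : ℕ) : ℕ :=
  budget Is K - ((v.size - 1) + 2 * (ins Is v).2.1.length + (ins Is v).2.2)

/-- the vertices of the base graph at the leaf `v` -/
def leafLabs (Is : List VC) (K v : ℕ) : List Lab :=
  (List.range (ins Is v).2.1.length).map (fun e => ((2, v, e) : Lab)) ++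
    ((List.range (ins Is v).2.1.length).map (fun e => ((3, v, e) : Lab)) ++
      ((List.range (ins Is v).1).map (fun e => ((4, v, e) : Lab)) ++
        (List.range (slack Is K v)).map (fun e => ((5, v, e) : Lab))))

/-- the vertices of the base graph -/
def labs (Is : List VC) (K : ℕ) : List Lab :=
  (List.range (2 * Is.length - 1)).map (fun v => ((1, v + 1, 0) : Lab)) ++
    (List.range Is.length).flatMap fun i => leafLabs Is K (Is.length + i)

section
variable {Is : List VC} {K : ℕ}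

theorem mem_leafLabs {v : ℕ} {x : Lab} : x ∈ leafLabs Is K v ↔ x.2.1 = v ∧
    ((x.1 = 2 ∧ x.2.2 < (ins Is v).2.1.length) ∨ (x.1 = 3 ∧ x.2.2 < (ins Is v).2.1.length) ∨
      (x.1 = 4 ∧ x.2.2 < (ins Is v).1) ∨ (x.1 = 5 ∧ x.2.2 < slack Is K v)) := by
  obtain ⟨a, b, c⟩ := x
  unfold leafLabs
  simp only [List.mem_append, List.mem_map, List.mem_range, Prod.mk.injEq]
  constructor
  · rintro (⟨e, h, rfl, rfl, rfl⟩ | ⟨e, h, rfl, rfl, rfl⟩ | ⟨e, h, rfl, rfl, rfl⟩ |
      ⟨e, h, rfl, rfl, rfl⟩) <;> simp [h]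
  · rintro ⟨rfl, ⟨rfl, h⟩ | ⟨rfl, h⟩ | ⟨rfl, h⟩ | ⟨rfl, h⟩⟩
    · exact Or.inl ⟨c, h, rfl, rfl, rfl⟩
    · exact Or.inr (Or.inl ⟨c, h, rfl, rfl, rfl⟩)
    · exact Or.inr (Or.inr (Or.inl ⟨c, h, rfl, rfl, rfl⟩))
    · exact Or.inr (Or.inr (Or.inr ⟨c, h, rfl, rfl, rfl⟩))

theorem mem_labs {x : Lab} : x ∈ labs Is K ↔
    (x.1 = 1 ∧ x.2.2 = 0 ∧ 1 ≤ x.2.1 ∧ x.2.1 < 2 * Is.length) ∨
    (Is.length ≤ x.2.1 ∧ x.2.1 < 2 * Is.length ∧
      ((x.1 = 2 ∧ x.2.2 < (ins Is x.2.1).2.1.length) ∨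
        (x.1 = 3 ∧ x.2.2 < (ins Is x.2.1).2.1.length) ∨
        (x.1 = 4 ∧ x.2.2 < (ins Is x.2.1).1) ∨ (x.1 = 5 ∧ x.2.2 < slack Is K x.2.1))) := by
  unfold labs
  rw [List.mem_append, List.mem_flatMap]
  constructor
  · rintro (h | ⟨i, hi, h⟩)
    · left
      rw [List.mem_map] at h
      obtain ⟨v, hv, rfl⟩ := h
      rw [List.mem_range] at hv
      exact ⟨rfl, rfl, Nat.le_add_left 1 v, by dsimp only; omega⟩
    · right
      rw [mem_leafLabs] at h
      obtain ⟨h1, h2⟩ := h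
      rw [List.mem_range] at hi
      rw [← h1] at h2
      exact ⟨by omega, by omega, h2⟩
  · rintro (⟨h1, h2, h3, h4⟩ | ⟨h1, h2, h3⟩)
    · left
      rw [List.mem_map]
      refine ⟨x.2.1 - 1, List.mem_range.2 (by omega), ?_⟩
      refine Prod.ext h1.symm (Prod.ext ?_ h2.symm)
      dsimp only
      omega
    · right
      refine ⟨x.2.1 - Is.length, List.mem_range.2 (by omega), ?_⟩
      have e : Is.length + (x.2.1 - Is.length) = x.2.1 := by omega
      rw [mem_leafLabs, e]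
      exact ⟨rfl, h3⟩

theorem leafLabs_nodup (v : ℕ) : (leafLabs Is K v).Nodup := by
  unfold leafLabs
  have h : ∀ (a n : ℕ), ((List.range n).map (fun e => ((a, v, e) : Lab))).Nodup := fun a n =>
    List.nodup_range.map (fun x y e => by simpa using e)
  simp only [List.nodup_append, h, true_and, List.mem_append, List.mem_map, List.mem_range]
  refine ⟨⟨?_, ?_⟩, ?_⟩
  · rintro _ ⟨_, _, rfl⟩ _ ⟨_, _, rfl⟩
    simp
  · rintro _ ⟨_, _, rfl⟩ _ (⟨_, _, rfl⟩ | ⟨_, _, rfl⟩) <;> simp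
  · rintro _ ⟨_, _, rfl⟩ _ (⟨_, _, rfl⟩ | ⟨_, _, rfl⟩ | ⟨_, _, rfl⟩) <;> simp

theorem labs_nodup : (labs Is K).Nodup := by
  unfold labs
  rw [List.nodup_append]
  refine ⟨List.nodup_range.map (fun x y e => by simpa using e), ?_, ?_⟩
  · rw [List.nodup_flatMap]
    refine ⟨fun i _ => leafLabs_nodup _, ?_⟩
    refine List.nodup_range.imp ?_
    intro i j hij
    rw [Function.onFun, List.disjoint_left]
    intro x hx hy
    rw [mem_leafLabs] at hx hy
    omega
  · intro x hx y hy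
    rw [List.mem_map] at hx
    obtain ⟨v, -, rfl⟩ := hx
    rw [List.mem_flatMap] at hy
    obtain ⟨i, -, hy⟩ := hy
    rw [mem_leafLabs] at hy
    rintro rfl
    dsimp only at hy
    omega

/-- the level of a vertex -/
def lev (x : Lab) : ℕ :=
  x.2.1.size + (if x.1 = 1 then 0 else if x.1 = 2 then 1 else if x.1 = 5 then 1 else
    if x.1 = 3 then 2 else 3)

theorem size_half {v : ℕ} (h : v / 2 < v) : v.size = (v / 2).size + 1 := by
  have h1 := Nat.bit_bodd_div2 v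
  have h2 : Nat.bit v.bodd v.div2 ≠ 0 := by rw [h1]; omega
  have h3 := Nat.size_bit h2
  rw [h1, Nat.div2_val] at h3
  exact h3

theorem up_iff {x y : Lab} : up Is x y = true ↔
    ((x.1 = 1 ∧ y.1 = 1 ∧ x.2.1 = y.2.1 / 2 ∧ x.2.1 < y.2.1) ∨
    (x.1 = 1 ∧ y.1 = 2 ∧ x.2.1 = y.2.1) ∨ (x.1 = 1 ∧ y.1 = 5 ∧ x.2.1 = y.2.1) ∨
    (x.1 = 2 ∧ y.1 = 3 ∧ x.2 = y.2) ∨
    (x.1 = 3 ∧ y.1 = 4 ∧ x.2.1 = y.2.1 ∧
      (((ins Is x.2.1).2.1.getD x.2.2 (0, 0)).1 = y.2.2 ∨
        ((ins Is x.2.1).2.1.getD x.2.2 (0, 0)).2 = y.2.2))) := by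
  unfold up
  rw [decide_eq_true_iff]

theorem ladj_iff {x y : Lab} : ladj Is x y = true ↔ up Is x y = true ∨ up Is y x = true := by
  unfold ladj
  rw [Bool.or_eq_true]

theorem lev_up {x y : Lab} (h : up Is x y = true) : lev y = lev x + 1 := by
  rw [up_iff] at h
  unfold lev
  rcases h with ⟨h1, h2, h3, h4⟩ | ⟨h1, h2, h3⟩ | ⟨h1, h2, h3⟩ | ⟨h1, h2, h3⟩ | ⟨h1, h2, h3, -⟩
  · have := size_half (v := y.2.1) (by omega)
    rw [h1, h2, this, h3]
    simp
  · rw [h1, h2, h3]; simp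
  · rw [h1, h2, h3]; simp
  · rw [h1, h2, h3]; simp
  · rw [h1, h2, h3]; simp

theorem ladj_lev {x y : Lab} (h : ladj Is x y = true) :
    (up Is x y = true ∧ lev y = lev x + 1) ∨ (up Is y x = true ∧ lev x = lev y + 1) := by
  rcases ladj_iff.1 h with h | h
  · exact Or.inl ⟨h, lev_up h⟩
  · exact Or.inr ⟨h, lev_up h⟩

theorem ladj_symm (x y : Lab) : ladj Is x y = ladj Is y x := by
  unfold ladj
  exact Bool.or_comm _ _

theorem ladj_irrefl (x : Lab) : ladj Is x x = false := by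
  by_contra h
  rw [Bool.not_eq_false] at h
  rcases ladj_lev h with h | h <;> omega

/-- two lower neighbours of the same vertex -/
theorem two_lower (hI : ∀ I ∈ Is, VC.Ok I) {a b c d : Lab} (ha : a ∈ labs Is K)
    (hb : b ∈ labs Is K) (hc : c ∈ labs Is K) (hd : d ∈ labs Is K) (h1 : up Is b a = true)
    (h2 : up Is d a = true) (h3 : ladj Is b c = true) (h4 : ladj Is c d = true) :
    a = c ∨ b = d := by
  by_contra hcon
  rw [not_or] at hcon
  obtain ⟨hac, hbd⟩ := hcon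
  have hIn : ∀ v, VC.Ok (ins Is v) := by
    intro v
    unfold ins
    rw [List.getD_eq_getElem?_getD]
    cases h : Is[v - Is.length]? with
    | none => exact ⟨List.nodup_nil, by simp⟩
    | some I => exact hI I (List.mem_of_getElem? h)
  obtain ⟨a1, v, u⟩ := a
  obtain ⟨b1, b2, b3⟩ := b
  obtain ⟨d1, d2, d3⟩ := d
  obtain ⟨c1, c2, c3⟩ := c
  rw [mem_labs] at ha hb hc hd
  rw [up_iff] at h1 h2
  rw [ladj_iff, up_iff, up_iff] at h3 h4
  simp only [Prod.mk.injEq, not_and] at ha hb hc hd h1 h2 h3 h4 hac hbd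
  -- the top vertex is a vertex of an instance
  have k4 : a1 = 4 := by omega
  subst k4
  have kb : b1 = 3 := by omega
  have kd : d1 = 3 := by omega
  subst kb kd
  have e1 : b2 = v := by omega
  have e2 : d2 = v := by omega
  subst e1 e2
  have hne : b3 ≠ d3 := hbd rfl rfl
  have kc : c1 = 4 := by omega
  subst kc
  have e3 : c2 = d2 := by omega
  subst e3
  have huc : u ≠ c3 := fun e => hac rfl rfl e
  obtain ⟨ok1, ok2⟩ := hIn c2
  have hb3 : b3 < (ins Is c2).2.1.length := by omega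
  have hd3 : d3 < (ins Is c2).2.1.length := by omega
  have gb : (ins Is c2).2.1.getD b3 (0, 0) = (ins Is c2).2.1[b3] :=
    List.getD_eq_getElem _ _ hb3
  have gd : (ins Is c2).2.1.getD d3 (0, 0) = (ins Is c2).2.1[d3] :=
    List.getD_eq_getElem _ _ hd3
  rw [gb] at h1 h3
  rw [gd] at h2 h4
  have q1 := ok2 _ (List.getElem_mem hb3)
  have q2 := ok2 _ (List.getElem_mem hd3)
  have hne' : (ins Is c2).2.1[b3] ≠ (ins Is c2).2.1[d3] := fun e =>
    hne ((List.Nodup.getElem_inj_iff ok1).1 e)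
  refine hne' (Prod.ext ?_ ?_) <;> omega

theorem good (hI : ∀ I ∈ Is, VC.Ok I) (hne : Is ≠ []) : Good (labs Is K) (ladj Is) lroot where
  symm := ladj_symm
  irrefl := ladj_irrefl
  root := by
    rw [mem_labs]
    have := List.length_pos_iff.2 hne
    left
    refine ⟨rfl, rfl, le_rfl, ?_⟩
    simp only [lroot]
    omega
  tri := by
    intro a _ b _ c _ h1 h2 h3
    rcases ladj_lev h1 with h1 | h1 <;> rcases ladj_lev h2 with h2 | h2 <;>
      rcases ladj_lev h3 with h3 | h3 <;> omega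
  cyc := by
    intro a ha b hb c hc d hd h1 h2 h3 h4
    have hs := ladj_symm (Is := Is)
    rcases ladj_lev h1 with k1 | k1 <;> rcases ladj_lev h2 with k2 | k2 <;>
      rcases ladj_lev h3 with k3 | k3 <;> rcases ladj_lev h4 with k4 | k4 <;> first
      | (exfalso; omega)
      | exact two_lower hI ha hb hc hd k1.1 k4.1 h2 h3
      | exact (two_lower hI hb ha hd hc k1.1 k2.1 (by rw [hs]; exact h4)
          (by rw [hs]; exact h3)).symm
      | exact (two_lower hI hc hb ha hd k2.1 k3.1 (by rw [hs]; exact h1)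
          (by rw [hs]; exact h4)).imp Eq.symm id
      | exact (two_lower hI hd hc hb ha k3.1 k4.1 (by rw [hs]; exact h2)
          (by rw [hs]; exact h1)).symm.imp Eq.symm Eq.symm

end

end Pool.Agent.P8H86.EM
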