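import Pool.Agent.P8H86.EM.TreeThm

/-!
# From closed sets of the base graph to vertex covers
-/

set_option autoImplicit false

namespace Pool.Agent.P8H86.EM

section
variable {Is : List VC} {K : ℕ}

/-- a closed set contains a path from the root to a leaf -/
theorem exists_leaf {S : Finset Lab}
    (hS : Closed (labs Is K) (ladj Is) (ltyp Is) lroot S) : ∀ (m w : ℕ), 2 * Is.length - w = m →
    1 ≤ w → w < 2 * Is.length → (∀ x, Anc w x → ((1, x, 0) : Lab) ∈ insert lroot S) →
    ∃ v, Is.length ≤ v ∧ v < 2 * Is.length ∧ ∀ x, Anc v x → ((1, x, 0) : Lab) ∈ insert lroot S := by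
  intro m
  induction m using Nat.strong_induction_on with
  | _ m ih =>
    intro w hm hw1 hw2 hw
    by_cases hleaf : Is.length ≤ w
    · exact ⟨w, hleaf, hw2, hw⟩
    · have h1 : ((1, 2 * w, 0) : Lab) ∈ labs Is K := by
        rw [mem_labs]; left; exact ⟨rfl, rfl, by dsimp only; omega, by dsimp only; omega⟩
      have h2 : ((1, 2 * w + 1, 0) : Lab) ∈ labs Is K := by
        rw [mem_labs]; left; exact ⟨rfl, rfl, by dsimp only; omega, by dsimp only; omega⟩
      have a1 : ladj Is (1, w, 0) (1, 2 * w, 0) = true := by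
        rw [ladj_iff, up_iff]; left; left
        exact ⟨rfl, rfl, by dsimp only; omega, by dsimp only; omega⟩
      have a2 : ladj Is (1, w, 0) (1, 2 * w + 1, 0) = true := by
        rw [ladj_iff, up_iff]; left; left
        exact ⟨rfl, rfl, by dsimp only; omega, by dsimp only; omega⟩
      have h3 := (hS.2.2 _ (hw w (Anc.self hw1))).2 _ h1 _ h2 a1 a2
      have step : ∀ c, c / 2 = w → c < 2 * Is.length → ((1, c, 0) : Lab) ∈ insert lroot S →
          ∃ v, Is.length ≤ v ∧ v < 2 * Is.length ∧
            ∀ x, Anc v x → ((1, x, 0) : Lab) ∈ insert lroot S := by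
        intro c hc hc2 hcS
        refine ih (2 * Is.length - c) (by omega) c rfl (by omega) hc2 ?_
        intro x hx
        rcases hx.cases with rfl | h
        · exact hcS
        · rw [hc] at h
          exact hw x h
      by_cases c1 : ((1, 2 * w, 0) : Lab) ∈ insert lroot S
      · exact step (2 * w) (by omega) (by omega) c1
      · by_cases c2 : ((1, 2 * w + 1, 0) : Lab) ∈ insert lroot S
        · exact step (2 * w + 1) (by omega) (by omega) c2
        · have := h3 c1 c2
          simp at this

theorem card_ge {S : Finset Lab} (τ n : ℕ) (f : ℕ → ℕ × ℕ) (hf : ∀ i < n, ∀ j < n, f i = f j → i = j)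
    (hS : ∀ i < n, ((τ, f i) : Lab) ∈ S) : n ≤ (S.filter (fun x => x.1 = τ)).card := by
  classical
  have h1 : ((Finset.range n).image (fun i => ((τ, f i) : Lab))).card = n := by
    rw [Finset.card_image_of_injOn, Finset.card_range]
    intro i hi j hj hij
    simp only [Finset.coe_range, Set.mem_Iio] at hi hj
    simp only [Prod.mk.injEq, true_and] at hij
    exact hf i hi j hj hij
  calc n = ((Finset.range n).image (fun i => ((τ, f i) : Lab))).card := h1.symm
    _ ≤ _ := by
      refine Finset.card_le_card ?_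
      intro x hx
      rw [Finset.mem_image] at hx
      obtain ⟨i, hi, rfl⟩ := hx
      rw [Finset.mem_filter]
      exact ⟨hS i (Finset.mem_range.1 hi), rfl⟩

/-- a closed set gives a vertex cover -/
theorem cover_of_closed (hI : ∀ I ∈ Is, VC.Ok I)
    (hK : ∀ I ∈ Is, 2 * I.2.1.length + I.2.2 ≤ K) (hne : Is ≠ []) {S : Finset Lab}
    (hc : S.card ≤ budget Is K) (hS : Closed (labs Is K) (ladj Is) (ltyp Is) lroot S) :
    ∃ I ∈ Is, VC.Sat I := by
  classical
  have hlen := List.length_pos_iff.2 hne
  obtain ⟨v, hv, hv2, hanc⟩ := exists_leaf hS _ 1 rfl le_rfl (by omega) (by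
    intro x hx
    have h1 := hx.le
    have h2 := hx.1
    have : x = 1 := by omega
    subst this
    exact Finset.mem_insert_self _ _)
  have hv1 : 1 ≤ v := by omega
  have hsl := slack_eq hK hv hv2
  have hmemI : ins Is v ∈ Is := by
    unfold ins
    rw [List.getD_eq_getElem _ _ (by omega)]
    exact List.getElem_mem _
  obtain ⟨ok1, ok2⟩ := hI _ hmemI
  have hleaf := hanc v (Anc.self hv1)
  have ne_root : ∀ x : Lab, x ∈ insert lroot S → x ≠ lroot → x ∈ S := by
    intro x hx hne
    exact (Finset.mem_insert.1 hx).resolve_left hne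
  have l2 : ∀ e < (ins Is v).2.1.length, ((2, v, e) : Lab) ∈ labs Is K := by
    intro e he
    rw [mem_labs]; right; exact ⟨hv, hv2, Or.inl ⟨rfl, he⟩⟩
  have l3 : ∀ e < (ins Is v).2.1.length, ((3, v, e) : Lab) ∈ labs Is K := by
    intro e he
    rw [mem_labs]; right; exact ⟨hv, hv2, Or.inr (Or.inl ⟨rfl, he⟩)⟩
  have l4 : ∀ e < (ins Is v).1, ((4, v, e) : Lab) ∈ labs Is K := by
    intro e he
    rw [mem_labs]; right; exact ⟨hv, hv2, Or.inr (Or.inr (Or.inl ⟨rfl, he⟩))⟩
  have l5 : ∀ e < slack Is K v, ((5, v, e) : Lab) ∈ labs Is K := by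
    intro e he
    rw [mem_labs]; right; exact ⟨hv, hv2, Or.inr (Or.inr (Or.inr ⟨rfl, he⟩))⟩
  have s2 : ∀ e < (ins Is v).2.1.length, ((2, v, e) : Lab) ∈ S := by
    intro e he
    refine ne_root _ ((hS.2.2 _ hleaf).1 (by simp [ltyp, hv]) _ (l2 e he) ?_) (by simp [lroot])
    rw [ladj_iff, up_iff]; left; right; left
    exact ⟨rfl, rfl, rfl⟩
  have s5 : ∀ e < slack Is K v, ((5, v, e) : Lab) ∈ S := by
    intro e he
    refine ne_root _ ((hS.2.2 _ hleaf).1 (by simp [ltyp, hv]) _ (l5 e he) ?_) (by simp [lroot])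
    rw [ladj_iff, up_iff]; left; right; right; left
    exact ⟨rfl, rfl, rfl⟩
  have s3 : ∀ e < (ins Is v).2.1.length, ((3, v, e) : Lab) ∈ S := by
    intro e he
    refine ne_root _ ((hS.2.2 _ (Finset.mem_insert_of_mem (s2 e he))).1 (by simp [ltyp]) _
      (l3 e he) ?_) (by simp [lroot])
    rw [ladj_iff, up_iff]; left; right; right; right; left
    exact ⟨rfl, rfl, rfl⟩
  have s1 : ∀ j < v.size - 1, ((1, v / 2 ^ j, 0) : Lab) ∈ S := by
    intro j hj
    have h2 : 1 ≤ v / 2 ^ (j + 1) := by
      rw [Nat.le_div_iff_mul_le (by positivity), one_mul, ← Nat.lt_size]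
      omega
    have h3 : 2 ≤ v / 2 ^ j := by
      rw [pow_succ, ← Nat.div_div_eq_div_mul] at h2
      omega
    refine ne_root _ (hanc _ ⟨by omega, j, rfl⟩) ?_
    simp only [lroot, ne_eq, Prod.mk.injEq, not_and]
    intro _ h
    omega
  set C : Finset ℕ := (Finset.range (ins Is v).1).filter (fun u => ((4, v, u) : Lab) ∈ S) with hC
  refine ⟨ins Is v, hmemI, C, ?_, ?_, ?_⟩
  · intro u hu
    rw [hC, Finset.mem_filter, Finset.mem_range] at hu
    exact hu.1
  · -- counting
    have t1 : v.size - 1 ≤ (S.filter (fun x => x.1 = 1)).card := by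
      refine card_ge 1 _ (fun j => (v / 2 ^ j, 0)) ?_ s1
      intro i hi j hj hij
      simp only [Prod.mk.injEq, and_true] at hij
      have key : ∀ i j, i < j → j < v.size - 1 → v / 2 ^ i ≠ v / 2 ^ j := by
        intro i j hij hj h
        have h2 : 1 ≤ v / 2 ^ j := by
          rw [Nat.le_div_iff_mul_le (by positivity), one_mul, ← Nat.lt_size]
          omega
        have h3 : v / 2 ^ j ≤ v / 2 ^ (i + 1) :=
          Nat.div_le_div_left (Nat.pow_le_pow_right (by norm_num) hij) (by positivity)
        rw [pow_succ, ← Nat.div_div_eq_div_mul] at h3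
        omega
      rcases lt_trichotomy i j with h | h | h
      · exact absurd hij (key i j h hj)
      · exact h
      · exact absurd hij.symm (key j i h hi)
    have t2 : (ins Is v).2.1.length ≤ (S.filter (fun x => x.1 = 2)).card :=
      card_ge 2 _ (fun e => (v, e)) (fun i _ j _ h => by simpa using h) s2
    have t3 : (ins Is v).2.1.length ≤ (S.filter (fun x => x.1 = 3)).card :=
      card_ge 3 _ (fun e => (v, e)) (fun i _ j _ h => by simpa using h) s3
    have t5 : slack Is K v ≤ (S.filter (fun x => x.1 = 5)).card :=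
      card_ge 5 _ (fun e => (v, e)) (fun i _ j _ h => by simpa using h) s5
    have t4 : C.card ≤ (S.filter (fun x => x.1 = 4)).card := by
      refine Finset.card_le_card_of_injOn (fun u => ((4, v, u) : Lab)) ?_ ?_
      · intro u hu
        rw [Finset.mem_coe, hC, Finset.mem_filter] at hu
        rw [Finset.mem_coe, Finset.mem_filter]
        exact ⟨hu.2, rfl⟩
      · intro a _ b _ h
        simpa using h
    have tot : S.card = ∑ τ ∈ Finset.range 6, (S.filter (fun x => x.1 = τ)).card := by
      refine Finset.card_eq_sum_card_fiberwise ?_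
      intro x hx
      have := hS.2.1 x hx
      rw [mem_labs] at this
      rw [Finset.mem_coe, Finset.mem_range]
      omega
    simp only [Finset.sum_range_succ, Finset.sum_range_zero] at tot
    omega
  · intro p hp
    obtain ⟨e, he, hpe⟩ := List.getElem_of_mem hp
    have hg : (ins Is v).2.1.getD e (0, 0) = p := by
      rw [List.getD_eq_getElem _ _ he, hpe]
    obtain ⟨q1, q2⟩ := ok2 p hp
    have a1 : ladj Is (3, v, e) (4, v, p.1) = true := by
      rw [ladj_iff, up_iff]; left; right; right; right; right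
      exact ⟨rfl, rfl, rfl, by simp only [hg, true_or]⟩
    have a2 : ladj Is (3, v, e) (4, v, p.2) = true := by
      rw [ladj_iff, up_iff]; left; right; right; right; right
      exact ⟨rfl, rfl, rfl, by simp only [hg, or_true]⟩
    have h1 := (hS.2.2 _ (Finset.mem_insert_of_mem (s3 e he))).2 _ (l4 p.1 (by omega)) _
      (l4 p.2 q2) a1 a2
    by_contra hcon
    rw [not_or] at hcon
    have n1 : ((4, v, p.1) : Lab) ∉ insert lroot S := by
      intro h
      refine hcon.1 ?_
      rw [hC, Finset.mem_filter, Finset.mem_range]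
      exact ⟨by omega, ne_root _ h (by simp [lroot])⟩
    have n2 : ((4, v, p.2) : Lab) ∉ insert lroot S := by
      intro h
      refine hcon.2 ?_
      rw [hC, Finset.mem_filter, Finset.mem_range]
      exact ⟨q2, ne_root _ h (by simp [lroot])⟩
    have h2 := h1 n1 n2
    simp only [Prod.mk.injEq, true_and] at h2
    omega

/-- closed sets of bounded size, and vertex covers -/
theorem tree_iff (hI : ∀ I ∈ Is, VC.Ok I)
    (hK : ∀ I ∈ Is, 2 * I.2.1.length + I.2.2 ≤ K) (hne : Is ≠ []) :
    (∃ S : Finset Lab, S.card ≤ budget Is K ∧ Closed (labs Is K) (ladj Is) (ltyp Is) lroot S) ↔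
      ∃ I ∈ Is, VC.Sat I := by
  constructor
  · rintro ⟨S, h1, h2⟩
    exact cover_of_closed hI hK hne h1 h2
  · rintro ⟨I, hI', hsat⟩
    obtain ⟨i, hi, rfl⟩ := List.getElem_of_mem hI'
    refine closed_of_cover (v := Is.length + i) hK (by omega) (by omega) ?_
    have : ins Is (Is.length + i) = Is[i] := by
      unfold ins
      rw [Nat.add_sub_cancel_left, List.getD_eq_getElem _ _ hi]
    rw [this]
    exact hsat

end

end Pool.Agent.P8H86.EM
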