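import Pool.Agent.P8H86.EM.Tree

/-!
# Closed sets of the base graph and vertex covers
-/

set_option autoImplicit false

namespace Pool.Agent.P8H86.EM

/-- `x` is an ancestor of `w` (or `w`) -/
def Anc (w x : ℕ) : Prop := 1 ≤ x ∧ ∃ j, w / 2 ^ j = x

theorem Anc.self {w : ℕ} (h : 1 ≤ w) : Anc w w := ⟨h, 0, by simp⟩

theorem Anc.half {w x : ℕ} (h : Anc w x) (h2 : x ≠ 1) : Anc w (x / 2) := by
  obtain ⟨h1, j, rfl⟩ := h
  exact ⟨by omega, j + 1, by rw [pow_succ, Nat.div_div_eq_div_mul]⟩

theorem Anc.le {w x : ℕ} (h : Anc w x) : x ≤ w := by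
  obtain ⟨h1, j, rfl⟩ := h
  exact Nat.div_le_self _ _

theorem Anc.child {w x : ℕ} (h : Anc w x) (h2 : x ≠ w) : Anc w (2 * x) ∨ Anc w (2 * x + 1) := by
  obtain ⟨h1, j, rfl⟩ := h
  cases j with
  | zero => simp at h2
  | succ j =>
    rw [pow_succ, ← Nat.div_div_eq_div_mul] at h1 ⊢
    have : w / 2 ^ j = 2 * (w / 2 ^ j / 2) ∨ w / 2 ^ j = 2 * (w / 2 ^ j / 2) + 1 := by omega
    rcases this with h | h
    · left
      exact ⟨by omega, j, h⟩
    · right
      exact ⟨by omega, j, h⟩

theorem Anc.cases {w x : ℕ} (h : Anc w x) : x = w ∨ Anc (w / 2) x := by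
  obtain ⟨h1, j, rfl⟩ := h
  cases j with
  | zero => left; simp
  | succ j =>
    right
    refine ⟨h1, j, ?_⟩
    rw [Nat.div_div_eq_div_mul, pow_succ, mul_comm]

theorem Anc.le_half {w x : ℕ} (h : Anc w x) (h2 : x ≠ w) : x ≤ w / 2 := by
  rcases h.cases with h | h
  · exact absurd h h2
  · exact h.le

section
variable {Is : List VC} {K : ℕ}

theorem slack_eq (hK : ∀ I ∈ Is, 2 * I.2.1.length + I.2.2 ≤ K) {v : ℕ}
    (hv : Is.length ≤ v) (hv2 : v < 2 * Is.length) :
    (v.size - 1) + 2 * (ins Is v).2.1.length + (ins Is v).2.2 + slack Is K v = budget Is K := by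
  have h1 : ins Is v ∈ Is := by
    unfold ins
    have : v - Is.length < Is.length := by omega
    rw [List.getD_eq_getElem _ _ this]
    exact List.getElem_mem _
  have h2 := hK _ h1
  have h3 : v.size ≤ (2 * Is.length).size := Nat.size_le_size hv2.le
  unfold slack budget
  omega

/-- a vertex cover gives a closed set -/
theorem closed_of_cover (hK : ∀ I ∈ Is, 2 * I.2.1.length + I.2.2 ≤ K) {v : ℕ}
    (hv : Is.length ≤ v) (hv2 : v < 2 * Is.length) (hS : VC.Sat (ins Is v)) :
    ∃ S : Finset Lab, S.card ≤ budget Is K ∧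
      Closed (labs Is K) (ladj Is) (ltyp Is) lroot S := by
  classical
  obtain ⟨C, hC1, hC2, hC3⟩ := hS
  have hsl := slack_eq hK hv hv2
  have hv1 : 1 ≤ v := by omega
  set n1 := (ins Is v).2.1.length with hn1
  set S1 : Finset Lab := (Finset.range (v.size - 1)).image (fun j => ((1, v / 2 ^ j, 0) : Lab))
  set S2 : Finset Lab := (Finset.range n1).image (fun e => ((2, v, e) : Lab))
  set S3 : Finset Lab := (Finset.range n1).image (fun e => ((3, v, e) : Lab))
  set S4 : Finset Lab := C.image (fun e => ((4, v, e) : Lab))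
  set S5 : Finset Lab := (Finset.range (slack Is K v)).image (fun e => ((5, v, e) : Lab))
  have hlt : ∀ j, 1 ≤ v / 2 ^ j ↔ j < v.size := by
    intro j
    rw [Nat.lt_size, Nat.le_div_iff_mul_le (by positivity), one_mul]
  have hlt2 : ∀ j, 2 ≤ v / 2 ^ j ↔ j < v.size - 1 := by
    intro j
    have h1 : 2 ≤ v / 2 ^ j ↔ 1 ≤ v / 2 ^ (j + 1) := by
      rw [pow_succ, ← Nat.div_div_eq_div_mul]
      omega
    rw [h1, hlt]
    omega
  have mem : ∀ x : Lab, x ∈ insert lroot (S1 ∪ (S2 ∪ (S3 ∪ (S4 ∪ S5)))) ↔
      (x.1 = 1 ∧ x.2.2 = 0 ∧ Anc v x.2.1) ∨ (x.2.1 = v ∧ ((x.1 = 2 ∧ x.2.2 < n1) ∨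
        (x.1 = 3 ∧ x.2.2 < n1) ∨ (x.1 = 4 ∧ x.2.2 ∈ C) ∨ (x.1 = 5 ∧ x.2.2 < slack Is K v))) := by
    rintro ⟨a, b, c⟩
    simp only [Finset.mem_insert, Finset.mem_union, S1, S2, S3, S4, S5, Finset.mem_image,
      Finset.mem_range, lroot, Prod.mk.injEq]
    constructor
    · rintro (⟨rfl, rfl, rfl⟩ | ⟨j, h, rfl, rfl, rfl⟩ | ⟨e, h, rfl, rfl, rfl⟩ |
        ⟨e, h, rfl, rfl, rfl⟩ | ⟨e, h, rfl, rfl, rfl⟩ | ⟨e, h, rfl, rfl, rfl⟩)
      · left
        refine ⟨rfl, rfl, le_rfl, v.size - 1, ?_⟩
        have h1 := (hlt (v.size - 1)).2 (by have := Nat.size_pos.2 hv1; omega)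
        have h2 : ¬ 2 ≤ v / 2 ^ (v.size - 1) := by rw [hlt2]; omega
        omega
      · left
        have := (hlt2 j).2 h
        exact ⟨rfl, rfl, by omega, j, rfl⟩
      · simp [h]
      · simp [h]
      · simp [h]
      · simp [h]
    · rintro (⟨rfl, rfl, h1, j, rfl⟩ | ⟨rfl, ⟨rfl, h⟩ | ⟨rfl, h⟩ | ⟨rfl, h⟩ | ⟨rfl, h⟩⟩)
      · by_cases h2 : v / 2 ^ j = 1
        · left
          exact ⟨rfl, h2, rfl⟩
        · right; left
          exact ⟨j, (hlt2 j).1 (by omega), rfl, rfl, rfl⟩
      · simp [h]
      · simp [h]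
      · simp [h]
      · simp [h]
  refine ⟨S1 ∪ (S2 ∪ (S3 ∪ (S4 ∪ S5))), ?_, ?_, ?_, ?_⟩
  · have c1 : S1.card ≤ v.size - 1 := Finset.card_image_le.trans (by simp)
    have c2 : S2.card ≤ n1 := Finset.card_image_le.trans (by simp)
    have c3 : S3.card ≤ n1 := Finset.card_image_le.trans (by simp)
    have c4 : S4.card ≤ C.card := Finset.card_image_le
    have c5 : S5.card ≤ slack Is K v := Finset.card_image_le.trans (by simp)
    have u1 := Finset.card_union_le S1 (S2 ∪ (S3 ∪ (S4 ∪ S5)))
    have u2 := Finset.card_union_le S2 (S3 ∪ (S4 ∪ S5))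
    have u3 := Finset.card_union_le S3 (S4 ∪ S5)
    have u4 := Finset.card_union_le S4 S5
    omega
  · simp only [Finset.mem_union, S1, S2, S3, S4, S5, Finset.mem_image,
      Finset.mem_range, lroot, Prod.mk.injEq, not_or, not_exists, not_and]
    refine ⟨fun j hj _ h => ?_, fun _ _ h => by omega, fun _ _ h => by omega,
      fun _ _ h => by omega, fun _ _ h => by omega⟩
    have := (hlt2 j).2 hj
    omega
  · intro x hx
    have hx' := (mem x).1 (Finset.mem_insert_of_mem hx)
    rw [mem_labs]
    rcases hx' with ⟨h1, h2, h3⟩ | ⟨h0, h⟩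
    · left
      have h4 := h3.le
      exact ⟨h1, h2, h3.1, by omega⟩
    · right
      rw [h0]
      refine ⟨hv, hv2, ?_⟩
      rcases h with ⟨h1, h2⟩ | ⟨h1, h2⟩ | ⟨h1, h2⟩ | ⟨h1, h2⟩
      · exact Or.inl ⟨h1, h2⟩
      · exact Or.inr (Or.inl ⟨h1, h2⟩)
      · exact Or.inr (Or.inr (Or.inl ⟨h1, hC1 _ h2⟩))
      · exact Or.inr (Or.inr (Or.inr ⟨h1, h2⟩))
  · intro b hb
    rw [mem] at hb
    -- it suffices to treat the vertices of the second type separately
    have all_in : (∀ a ∈ labs Is K, ladj Is b a = true →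
        a ∈ insert lroot (S1 ∪ (S2 ∪ (S3 ∪ (S4 ∪ S5))))) →
        (ltyp Is b = true → ∀ a ∈ labs Is K, ladj Is b a = true →
          a ∈ insert lroot (S1 ∪ (S2 ∪ (S3 ∪ (S4 ∪ S5))))) ∧
        ∀ a ∈ labs Is K, ∀ c ∈ labs Is K, ladj Is b a = true → ladj Is b c = true →
          a ∉ insert lroot (S1 ∪ (S2 ∪ (S3 ∪ (S4 ∪ S5)))) →
          c ∉ insert lroot (S1 ∪ (S2 ∪ (S3 ∪ (S4 ∪ S5)))) → a = c :=
      fun h => ⟨fun _ => h, fun a ha c _ h1 _ h2 _ => absurd (h a ha h1) h2⟩
    obtain ⟨b1, b2, b3⟩ := b
    dsimp only at hb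
    rcases hb with ⟨rfl, rfl, hanc⟩ | ⟨rfl, ⟨rfl, hb⟩ | ⟨rfl, hb⟩ | ⟨rfl, hb⟩ | ⟨rfl, hb⟩⟩
    · by_cases hbv : b2 = v
      · subst hbv
        apply all_in
        rintro ⟨a1, a2, a3⟩ ha hba
        rw [mem_labs] at ha
        rw [ladj_iff, up_iff, up_iff] at hba
        rw [mem]
        dsimp only at ha hba ⊢
        rcases hba with (h | h | h | h | h) | (h | h | h | h | h)
        · exfalso; omega
        · right; rw [← h.2.2] at ha; omega
        · right; rw [← h.2.2] at ha; omega
        · exfalso; omega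
        · exfalso; omega
        · left
          obtain ⟨h1, h2, h3, h4⟩ := h
          have h5 : a2 = b2 / 2 := h3
          refine ⟨h1, by omega, ?_⟩
          rw [h5]
          exact hanc.half (by omega)
        · exfalso; omega
        · exfalso; omega
        · exfalso; omega
        · exfalso; omega
      · have hlt : b2 < Is.length := by
          have := hanc.le_half hbv
          omega
        refine ⟨fun h => ?_, ?_⟩
        · unfold ltyp at h
          rw [decide_eq_true_iff] at h
          dsimp only at h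
          omega
        · have nbr : ∀ a ∈ labs Is K, ladj Is (1, b2, 0) a = true →
              a ∉ insert lroot (S1 ∪ (S2 ∪ (S3 ∪ (S4 ∪ S5)))) →
              a.1 = 1 ∧ a.2.2 = 0 ∧ (a.2.1 = 2 * b2 ∨ a.2.1 = 2 * b2 + 1) ∧ ¬ Anc v a.2.1 := by
            rintro ⟨a1, a2, a3⟩ ha hba hna
            rw [mem_labs] at ha
            rw [ladj_iff, up_iff, up_iff] at hba
            rw [mem] at hna
            dsimp only at ha hba hna ⊢
            rcases hba with (h | h | h | h | h) | (h | h | h | h | h)
            · have e3 : a3 = 0 := by omega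
              refine ⟨h.2.1, e3, by omega, fun h' => hna (Or.inl ⟨h.2.1, e3, h'⟩)⟩
            · exfalso; omega
            · exfalso; omega
            · exfalso; omega
            · exfalso; omega
            · exfalso
              have e3 : a3 = 0 := by omega
              obtain ⟨h1, h2, h3, h4⟩ := h
              have h5 : a2 = b2 / 2 := h3
              refine hna (Or.inl ⟨h1, e3, ?_⟩)
              rw [h5]
              exact hanc.half (by omega)
            · exfalso; omega
            · exfalso; omega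
            · exfalso; omega
            · exfalso; omega
          intro a ha c hc hba hbc hna hnc
          obtain ⟨x1, x2, x3, x4⟩ := nbr a ha hba hna
          obtain ⟨y1, y2, y3, y4⟩ := nbr c hc hbc hnc
          refine Prod.ext (by omega) (Prod.ext ?_ (by omega))
          rcases hanc.child hbv with hch | hch
          · rcases x3 with x3 | x3 <;> rcases y3 with y3 | y3
            · omega
            · rw [x3] at x4; exact absurd hch x4
            · rw [y3] at y4; exact absurd hch y4
            · omega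
          · rcases x3 with x3 | x3 <;> rcases y3 with y3 | y3
            · omega
            · rw [y3] at y4; exact absurd hch y4
            · rw [x3] at x4; exact absurd hch x4
            · omega
    · apply all_in
      rintro ⟨a1, a2, a3⟩ ha hba
      rw [mem_labs] at ha
      rw [ladj_iff, up_iff, up_iff] at hba
      rw [mem]
      dsimp only at ha hba ⊢
      rcases hba with (h | h | h | h | h) | (h | h | h | h | h)
      · exfalso; omega
      · exfalso; omega
      · exfalso; omega
      · right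
        simp only [Prod.mk.injEq] at h
        omega
      · exfalso; omega
      · exfalso; omega
      · left
        have e : a2 = b2 := h.2.2
        refine ⟨h.1, by omega, ?_⟩
        rw [e]
        exact Anc.self hv1
      · exfalso; omega
      · exfalso; omega
      · exfalso; omega
    · refine ⟨fun h => by simp [ltyp] at h, ?_⟩
      have hE : (ins Is b2).2.1.getD b3 (0, 0) ∈ (ins Is b2).2.1 := by
        rw [List.getD_eq_getElem _ _ hb]
        exact List.getElem_mem _
      have hcov := hC3 _ hE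
      have nbr : ∀ a ∈ labs Is K, ladj Is (3, b2, b3) a = true →
          a ∉ insert lroot (S1 ∪ (S2 ∪ (S3 ∪ (S4 ∪ S5)))) →
          a.1 = 4 ∧ a.2.1 = b2 ∧ a.2.2 ∉ C ∧
            (((ins Is b2).2.1.getD b3 (0, 0)).1 = a.2.2 ∨
              ((ins Is b2).2.1.getD b3 (0, 0)).2 = a.2.2) := by
        rintro ⟨a1, a2, a3⟩ ha hba hna
        rw [mem_labs] at ha
        rw [ladj_iff, up_iff, up_iff] at hba
        rw [mem] at hna
        dsimp only at ha hba hna ⊢
        rcases hba with (h | h | h | h | h) | (h | h | h | h | h)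
        · exfalso; omega
        · exfalso; omega
        · exfalso; omega
        · exfalso; omega
        · obtain ⟨-, h1, h2, h3⟩ := h
          refine ⟨h1, h2.symm, fun h' => hna (Or.inr ⟨h2.symm, Or.inr (Or.inr (Or.inl ⟨h1, h'⟩))⟩),
            h3⟩
        · exfalso; omega
        · exfalso; omega
        · exfalso; omega
        · exfalso
          simp only [Prod.mk.injEq] at h
          exact hna (Or.inr ⟨h.2.2.1, Or.inl ⟨h.1, by omega⟩⟩)
        · exfalso; omega
      intro a ha c hc hba hbc hna hnc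
      obtain ⟨x1, x2, x3, x4⟩ := nbr a ha hba hna
      obtain ⟨y1, y2, y3, y4⟩ := nbr c hc hbc hnc
      refine Prod.ext (by omega) (Prod.ext (by omega) ?_)
      rcases x4 with x4 | x4 <;> rcases y4 with y4 | y4
      · omega
      · exfalso
        rw [x4, y4] at hcov
        rcases hcov with h | h
        · exact x3 h
        · exact y3 h
      · exfalso
        rw [x4, y4] at hcov
        rcases hcov with h | h
        · exact y3 h
        · exact x3 h
      · omega
    · apply all_in
      rintro ⟨a1, a2, a3⟩ ha hba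
      rw [mem_labs] at ha
      rw [ladj_iff, up_iff, up_iff] at hba
      rw [mem]
      dsimp only at ha hba ⊢
      rcases hba with (h | h | h | h | h) | (h | h | h | h | h)
      · exfalso; omega
      · exfalso; omega
      · exfalso; omega
      · exfalso; omega
      · exfalso; omega
      · exfalso; omega
      · exfalso; omega
      · exfalso; omega
      · exfalso; omega
      · right
        obtain ⟨h1, h2, h3, -⟩ := h
        rw [h3] at ha
        omega
    · apply all_in
      rintro ⟨a1, a2, a3⟩ ha hba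
      rw [mem_labs] at ha
      rw [ladj_iff, up_iff, up_iff] at hba
      rw [mem]
      dsimp only at ha hba ⊢
      rcases hba with (h | h | h | h | h) | (h | h | h | h | h)
      · exfalso; omega
      · exfalso; omega
      · exfalso; omega
      · exfalso; omega
      · exfalso; omega
      · exfalso; omega
      · exfalso; omega
      · left
        have e : a2 = b2 := h.2.2
        refine ⟨h.1, by omega, ?_⟩
        rw [e]
        exact Anc.self hv1
      · exfalso; omega
      · exfalso; omega

end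

end Pool.Agent.P8H86.EM
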